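import Pool.Agent.H83.Site.Crit

/-!
# The critical density is neither zero nor one
-/

set_option autoImplicit false

open MeasureTheory ProbabilityTheory unitInterval

namespace Pool.Agent.H83.Site

open Pool.Agent.H89.Perc

theorem Pr_open (p : I) (e : Edge) : Pr p {ω : Config | ω e = true} = p := by
  have hl : LocalOn {e} {ω : Config | ω e = true} := by
    intro ω ω' h hω
    simp only [Set.mem_ofPred_eq] at hω ⊢
    rw [← h e (Finset.mem_singleton_self e)]; exact hω
  rw [Pr_eq_update hl e]
  have h1 : {ω : Config | Function.update ω e true ∈ {ω : Config | ω e = true}} = Set.univ := by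
    ext ω; simp
  have h2 : {ω : Config | Function.update ω e false ∈ {ω : Config | ω e = true}} = ∅ := by
    ext ω; simp
  rw [h1, h2]
  simp [Pr]

theorem BXP.pos {p : I} {r : Bool} (h : BXP p r) : (0 : ℝ) < p := by
  obtain ⟨c, hc, h1⟩ := h 1
  have h2 := h1 1 le_rfl
  have h3 : PT p r {η | HC η 0 ((1 : ℕ) * (1 : ℕ)) 0 (1 : ℕ)} ≤
      Pr p {ω : Config | ω (0, 0, false) = true} + Pr p {ω : Config | ω (0, 1, false) = true} := by
    refine le_trans ?_ Pr_union_le
    unfold PT
    refine Pr_mono ?_
    rintro ω ⟨y, y', hc⟩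
    have hm := hc.mem_left
    have ho := hc.open_left
    rw [mem_TR_site] at hm
    have hy : y = 0 ∨ y = 1 := by
      have h1 := hm.2.2.1
      have h2 := hm.2.2.2
      have : ((1 : ℕ) : ℤ) = 1 := rfl
      omega
    simp only [full, Bool.false_eq_true, if_false] at ho
    rcases hy with rfl | rfl
    · exact Or.inl ho
    · exact Or.inr ho
  rw [Pr_open, Pr_open] at h3
  have h4 := h2.trans h3
  linarith

theorem pc_pos : (0 : ℝ) < pc := bxp_pc.1.pos

theorem pc_lt_one : (pc : ℝ) < 1 := by
  have h := bxp_pc.2.pos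
  have : ((σ pc : I) : ℝ) = 1 - pc := rfl
  rw [this] at h
  linarith

end Pool.Agent.H83.Site
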