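import Pool.Agent.H83.Site.TProb

/-!
# Transfer to site percolation on `ℤ × ℤ`
-/

set_option autoImplicit false

open MeasureTheory ProbabilityTheory unitInterval

namespace Pool.Agent.H83.Site

open Pool.Agent.H89.Perc

/-- Adjacency of the square lattice (`r = false`) and of its matching lattice (`r = true`). -/
def SA (r : Bool) (u v : ℤ × ℤ) : Prop :=
  u ≠ v ∧ |u.1 - v.1| ≤ 1 ∧ |u.2 - v.2| ≤ 1 ∧ (r = true ∨ u.1 = v.1 ∨ u.2 = v.2)

/-- The configuration on the centred lattice given by a configuration of the sites. -/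
def extS (ω : ℤ × ℤ → Bool) : Config := fun v => ω (v.1, v.2.1)

/-- Restriction to the sites. -/
def resS (ω : Config) : ℤ × ℤ → Bool := fun v => ω (v.1, v.2, false)

theorem full_extS_resS (r : Bool) (ω : Config) : full r (extS (resS ω)) = full r ω := by
  funext v
  obtain ⟨x, y, b⟩ := v
  cases b <;> simp [full, extS, resS]

theorem full_site (r : Bool) (ω : Config) (x y : ℤ) : full r ω (x, y, false) = ω (x, y, false) := by
  simp [full]

theorem full_cen (r : Bool) (ω : Config) (x y : ℤ) : full r ω (x, y, true) = r := by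
  simp [full]

variable {r : Bool} {ω : ℤ × ℤ → Bool}

/-- Neighbours are joined in the centred lattice. -/
theorem tconn_of_SA {u v : ℤ × ℤ} (hu : ω u = true) (hv : ω v = true) (h : SA r u v) :
    TConn (full r (extS ω)) Set.univ (u.1, u.2, false) (v.1, v.2, false) := by
  obtain ⟨a, b⟩ := u
  obtain ⟨c, d⟩ := v
  obtain ⟨h1, h2, h3, h4⟩ := h
  simp only [abs_le] at h2 h3
  simp only at h4
  have hu' : full r (extS ω) (a, b, false) = true := by rw [full_site]; exact hu
  have hv' : full r (extS ω) (c, d, false) = true := by rw [full_site]; exact hv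
  have hne : a ≠ c ∨ b ≠ d := by
    by_contra hcon
    push Not at hcon
    exact h1 (by rw [hcon.1, hcon.2])
  by_cases h5 : a = c ∨ b = d
  · refine TStep.conn ⟨trivial, trivial, Or.inl ⟨rfl, rfl, ?_⟩, hu', hv'⟩
    simp only
    omega
  · push Not at h5
    have hr : r = true := by
      rcases h4 with h | h | h
      · exact h
      · exact absurd h h5.1
      · exact absurd h h5.2
    subst hr
    have hc : full true (extS ω) (min a c, min b d, true) = true := full_cen _ _ _ _
    have s1 : TStep (full true (extS ω)) Set.univ (a, b, false) (min a c, min b d, true) :=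
      ⟨trivial, trivial, Or.inr (Or.inl ⟨rfl, rfl, by simp only; omega, by simp only; omega⟩),
        hu', hc⟩
    have s2 : TStep (full true (extS ω)) Set.univ (min a c, min b d, true) (c, d, false) :=
      ⟨trivial, trivial, Or.inr (Or.inr ⟨rfl, rfl, by simp only; omega, by simp only; omega⟩),
        hc, hv'⟩
    exact s1.conn.tail s2

section graph

variable {G : SimpleGraph (ℤ × ℤ)}

theorem tconn_of_reachable (hG : ∀ u v, G.Adj u v ↔ ω u = true ∧ ω v = true ∧ SA r u v)
    {u v : ℤ × ℤ} (hu : ω u = true) (h : G.Reachable u v) :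
    TConn (full r (extS ω)) Set.univ (u.1, u.2, false) (v.1, v.2, false) := by
  rw [SimpleGraph.reachable_iff_reflTransGen] at h
  induction h with
  | refl => exact TConn.refl trivial (by rw [full_site]; exact hu)
  | tail _ hbc ih =>
    obtain ⟨h1, h2, h3⟩ := (hG _ _).1 hbc
    exact ih.trans (tconn_of_SA h1 h2 h3)

/-- The corners of a centre. -/
def crn (v : TV) (c : ℤ × ℤ) : Prop :=
  if v.2.2 then (c.1 = v.1 ∨ c.1 = v.1 + 1) ∧ (c.2 = v.2.1 ∨ c.2 = v.2.1 + 1)
  else c = (v.1, v.2.1)

theorem reachable_of_tconn (hG : ∀ u v, G.Adj u v ↔ ω u = true ∧ ω v = true ∧ SA r u v)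
    {S : Set TV} {u : ℤ × ℤ} {v : TV} (h : TConn (full r (extS ω)) S (u.1, u.2, false) v) :
    ∀ c : ℤ × ℤ, crn v c → ω c = true → G.Reachable u c := by
  refine h.induction_right (P := fun v => ∀ c : ℤ × ℤ, crn v c → ω c = true → G.Reachable u c)
    ?_ ?_
  · intro c hc _
    simp only [crn, Bool.false_eq_true, if_false] at hc
    rw [hc]
  · intro a b _ hab ih c hc ho
    obtain ⟨-, -, hadj, ha, hb⟩ := hab
    have key : ∀ a' c' : ℤ × ℤ, ω a' = true → ω c' = true → G.Reachable u a' →
        |a'.1 - c'.1| ≤ 1 → |a'.2 - c'.2| ≤ 1 → (r = true ∨ a'.1 = c'.1 ∨ a'.2 = c'.2) →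
        G.Reachable u c' := by
      intro a' c' h1 h2 h3 h4 h5 h6
      by_cases h7 : a' = c'
      · rw [← h7]; exact h3
      · exact h3.trans ((hG _ _).2 ⟨h1, h2, h7, h4, h5, h6⟩).reachable
    obtain ⟨a1, a2, a3⟩ := a
    obtain ⟨b1, b2, b3⟩ := b
    unfold TAdj at hadj
    rcases hadj with ⟨h1, h2, h3⟩ | ⟨h1, h2, h3⟩ | ⟨h1, h2, h3⟩
    · simp only at h1 h2 h3
      subst h1 h2
      simp only [crn, Bool.false_eq_true, if_false] at hc ih
      rw [full_site] at ha hb
      have h4 := ih (a1, a2) rfl ha
      rw [hc]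
      refine key (a1, a2) (b1, b2) ha hb h4 ?_ ?_ ?_
      · simp only [abs_le]; omega
      · simp only [abs_le]; omega
      · right; simp only; omega
    · simp only at h1 h2 h3
      subst h1 h2
      simp only [crn, Bool.false_eq_true, if_false, if_true] at hc ih
      rw [full_site] at ha
      rw [full_cen] at hb
      have h4 := ih (a1, a2) rfl ha
      refine key (a1, a2) c ha ho h4 ?_ ?_ (Or.inl hb)
      · simp only [abs_le]; omega
      · simp only [abs_le]; omega
    · simp only at h1 h2 h3
      subst h1 h2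
      simp only [crn, Bool.false_eq_true, if_false, if_true] at hc ih
      rw [full_site] at hb
      rw [hc]
      exact ih (b1, b2) h3 hb

/-- The cluster of the origin is infinite if and only if the origin is joined to all
distances. -/
theorem infinite_iff (hG : ∀ u v, G.Adj u v ↔ ω u = true ∧ ω v = true ∧ SA r u v) :
    {v | G.Reachable (0, 0) v}.Infinite ↔ ∀ n, full r (extS ω) ∈ AB 0 0 0 n := by
  constructor
  · intro hinf n
    -- a point of the cluster outside of the box
    have hfin : (Set.Icc ((-n : ℤ), (-n : ℤ)) ((n : ℤ), (n : ℤ))).Finite := Set.finite_Icc _ _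
    obtain ⟨v, hv, hvn⟩ := hinf.exists_notMem_finite hfin
    have hne : v ≠ (0, 0) := by
      rintro rfl
      apply hvn
      rw [Set.mem_Icc]
      exact ⟨⟨by simp, by simp⟩, ⟨by simp, by simp⟩⟩
    have hvr : G.Reachable (0, 0) v := hv
    have h0 : ω (0, 0) = true := by
      rw [SimpleGraph.reachable_iff_reflTransGen] at hvr
      rcases Relation.ReflTransGen.cases_head hvr with h | ⟨c, h, -⟩
      · exact absurd h.symm hne
      · exact ((hG _ _).1 h).1
    have hc := tconn_of_reachable hG h0 hvr
    have hvn' : (v.1, v.2, false) ∉ TR (0 - n) (0 + n) (0 - n) (0 + n) := by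
      rw [mem_TR_site]
      intro h
      apply hvn
      rw [Set.mem_Icc]
      exact ⟨⟨by simp only; omega, by simp only; omega⟩, ⟨by simp only; omega, by simp only; omega⟩⟩
    have h0n : ((0 : ℤ), (0 : ℤ), false) ∈ TR (0 - n) (0 + n) (0 - n) (0 + n) := by
      rw [mem_TR_site]; omega
    obtain ⟨w, w', h1, h2, h3, -⟩ := hc.exists_exit h0n hvn'
    rw [Set.univ_inter] at h1
    have hw := h1.mem_right
    have hs : w ∈ sph 0 0 n := by
      rw [mem_TR] at hw
      rw [mem_TR] at h3
      have hadj := h2.2.2.1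
      have e1 : fx w < 2 * (0 + n) → fx w' ≤ 2 * (0 + n) := hadj.fx_le
      have e2 : 2 * (0 - n) < fx w → 2 * (0 - n) ≤ fx w' := hadj.le_fx
      have e3 : fy w < 2 * (0 + n) → fy w' ≤ 2 * (0 + n) := hadj.fy_le
      have e4 : 2 * (0 - n) < fy w → 2 * (0 - n) ≤ fy w' := hadj.le_fy
      have h5 : fx w = 2 * (0 - n) ∨ fx w = 2 * (0 + n) ∨ fy w = 2 * (0 - n) ∨
          fy w = 2 * (0 + n) := by
        by_contra hcon
        push Not at hcon
        apply h3
        refine ⟨e2 ?_, e1 ?_, e4 ?_, e3 ?_⟩ <;> omega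
      refine ⟨h1.mem_right, ?_, ?_⟩
      · rcases h5 with h | h | h | h
        · exact (site_of_fx h).1
        · exact (site_of_fx h).1
        · exact (site_of_fy h).1
        · exact (site_of_fy h).1
      · rcases h5 with h | h | h | h
        · left; exact (site_of_fx h).2
        · right; left; exact (site_of_fx h).2
        · right; right; left; exact (site_of_fy h).2
        · right; right; right; exact (site_of_fy h).2
    refine ⟨(0, 0, false), ?_, w, hs, h1⟩
    rw [mem_TR_site]; omega
  · intro h hfin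
    -- all points of the cluster are bounded
    obtain ⟨N, hN⟩ : ∃ N : ℕ, ∀ v ∈ {v | G.Reachable (0, 0) v}, |v.1| < N ∧ |v.2| < N := by
      obtain ⟨B, hB⟩ := (hfin.image fun v : ℤ × ℤ => max |v.1| |v.2|).bddAbove
      refine ⟨(B + 1).toNat, fun v hv => ?_⟩
      have h1 : max |v.1| |v.2| ≤ B := hB ⟨v, hv, rfl⟩
      have h2 := le_max_left |v.1| |v.2|
      have h3 := le_max_right |v.1| |v.2|
      have h4 := abs_nonneg v.1
      have h5 := Int.self_le_toNat (B + 1)
      constructor <;> omega
    obtain ⟨u, hu, w, ⟨-, hws, hw⟩, hc⟩ := h N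
    obtain ⟨u1, u2, u3⟩ := u
    have hu' : u3 = false ∧ u1 = 0 ∧ u2 = 0 := by
      cases u3
      · rw [mem_TR_site] at hu
        exact ⟨rfl, by omega, by omega⟩
      · rw [mem_TR_cen] at hu
        omega
    obtain ⟨rfl, rfl, rfl⟩ := hu'
    obtain ⟨w1, w2, w3⟩ := w
    simp only at hws
    subst hws
    have ho : ω (w1, w2) = true := by
      have := hc.open_right
      rwa [full_site] at this
    have hr := reachable_of_tconn (u := (0, 0)) hG hc (w1, w2) (by simp [crn]) ho
    have h1 := hN (w1, w2) hr
    simp only [abs_lt] at h1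
    simp only at hw
    omega

end graph

theorem map_resS (p : I) :
    (μ p).map resS = Measure.infinitePi (fun _ : ℤ × ℤ => bernoulliMeasure true false p) := by
  classical
  have hres : Measurable resS := by
    refine measurable_pi_lambda _ fun v => ?_
    exact measurable_pi_apply (v.1, v.2, false)
  apply Measure.eq_infinitePi
  intro s t ht
  have hmeas : MeasurableSet (Set.pi (s : Set (ℤ × ℤ)) t) :=
    MeasurableSet.pi s.countable_toSet fun i _ => ht i
  rw [Measure.map_apply hres hmeas]
  have hinj : Function.Injective (fun v : ℤ × ℤ => ((v.1, v.2, false) : Edge)) := by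
    rintro ⟨a, b⟩ ⟨c, d⟩ h
    simpa using h
  have hpre : resS ⁻¹' (Set.pi (s : Set (ℤ × ℤ)) t) =
      Set.pi ((s.image fun v : ℤ × ℤ => ((v.1, v.2, false) : Edge) : Finset Edge) : Set Edge)
        (fun e => t (e.1, e.2.1)) := by
    ext ω
    simp only [Set.mem_preimage, Set.mem_pi, Finset.mem_coe, Finset.mem_image]
    constructor
    · rintro h e ⟨v, hv, rfl⟩
      exact h v hv
    · intro h v hv
      exact h (v.1, v.2, false) ⟨v, hv, rfl⟩
  rw [hpre, μ, Measure.infinitePi_pi _ (fun e _ => ht _), Finset.prod_image hinj.injOn]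

/-- The percolation probability of the two site percolation models. -/
theorem theta_transfer (p : I) (r : Bool) (G : (ℤ × ℤ → Bool) → SimpleGraph (ℤ × ℤ))
    (hG : ∀ ω u v, (G ω).Adj u v ↔ ω u = true ∧ ω v = true ∧ SA r u v) :
    (Measure.infinitePi (fun _ : ℤ × ℤ => bernoulliMeasure true false p)).real
      {ω | {v | (G ω).Reachable (0, 0) v}.Infinite} = thT p r := by
  have hset : {ω | {v | (G ω).Reachable (0, 0) v}.Infinite} =
      extS ⁻¹' {ω | ∀ n, full r ω ∈ AB 0 0 0 n} := by
    ext ω
    simp only [Set.mem_ofPred_eq, Set.mem_preimage]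
    exact infinite_iff (hG ω)
  have hext : Measurable extS := by
    refine measurable_pi_lambda _ fun v => ?_
    exact measurable_pi_apply (v.1, v.2.1)
  have hres : Measurable resS := by
    refine measurable_pi_lambda _ fun v => ?_
    exact measurable_pi_apply (v.1, v.2, false)
  have hT : MeasurableSet {ω : Config | ∀ n, full r ω ∈ AB 0 0 0 n} := by
    have : {ω : Config | ∀ n, full r ω ∈ AB 0 0 0 n} = ⋂ n, {ω | full r ω ∈ AB 0 0 0 n} := by
      ext ω; simp
    rw [this]
    exact MeasurableSet.iInter fun n => (localOn_full r (localOn_AB 0 0 0 n)).measurableSet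
  rw [hset, ← map_resS, map_measureReal_apply hres (hext hT)]
  unfold thT PT Pr
  congr 1
  ext ω
  simp only [Set.mem_preimage, Set.mem_ofPred_eq, full_extS_resS]

end Pool.Agent.H83.Site
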