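import Pool.Agent.H83.Site.Expl

/-! # Russo-Seymour-Welsh for probabilities close to one -/

set_option autoImplicit false

open MeasureTheory ProbabilityTheory unitInterval

namespace Pool.Agent.H83.Site

open Pool.Agent.H89.Perc

/-- The event `E` fails with probability at most `q`. -/
private def NearG (p : I) (r : Bool) (q : ℝ) (E : Set Config) : Prop :=
  (∃ s : Finset Edge, LocalOn s E) ∧ 1 - q ≤ PT p r E

private lemma NearG.inter {p : I} {r : Bool} {q₁ q₂ : ℝ} {E F : Set Config}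
    (h1 : NearG p r q₁ E) (h2 : NearG p r q₂ F) : NearG p r (q₁ + q₂) (E ∩ F) := by
  classical
  obtain ⟨⟨s, hs⟩, h1⟩ := h1
  obtain ⟨⟨t, ht⟩, h2⟩ := h2
  have hloc : LocalOn (s ∪ t) (E ∩ F) :=
    (hs.mono Finset.subset_union_left).inter (ht.mono Finset.subset_union_right)
  refine ⟨⟨s ∪ t, hloc⟩, ?_⟩
  have h3 := PT_compl (p := p) (r := r) hloc
  rw [Set.compl_inter] at h3
  have h4 := PT_union_le (p := p) (r := r) (E := Eᶜ) (F := Fᶜ)
  rw [PT_compl hs, PT_compl ht] at h4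
  linarith

private lemma NearG.mono {p : I} {r : Bool} {q q' : ℝ} {E : Set Config} (h : NearG p r q E)
    (hq : q ≤ q') : NearG p r q' E := ⟨h.1, by linarith [h.2]⟩

private lemma near_localOn_comp {s : Finset Edge} {E : Set Config} (hE : LocalOn s E)
    (φ : TV → TV) : ∃ t : Finset Edge, LocalOn t {η | (fun v => η (φ v)) ∈ E} := by
  classical
  refine ⟨s.image φ, fun ω ω' hω h => hE _ _ (fun e he => hω _ (Finset.mem_image_of_mem _ he)) h⟩

/-- Horizontal crossings whose end points satisfy a condition. -/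
private def NearSt (P : ℤ → ℤ → Prop) (a b l : ℤ) : Set Config :=
  {η | ∃ y y' : ℤ, P y y' ∧ TConn η (TR a b 0 (2 * l)) (a, y, false) (b, y', false)}

private lemma near_localOn_st (P : ℤ → ℤ → Prop) (a b l : ℤ) :
    LocalOn (eRect a b 0 (2 * l)) (NearSt P a b l) := by
  rintro η η' h ⟨y, y', hP, hc⟩
  exact ⟨y, y', hP, localOn_tconn _ _ _ _ _ _ η η' h hc⟩

private lemma near_incr_st (P : ℤ → ℤ → Prop) (a b l : ℤ) : Incr (NearSt P a b l) := by
  rintro η η' h ⟨y, y', hP, hc⟩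
  exact ⟨y, y', hP, incr_tconn _ _ _ η η' h hc⟩

private lemma near_st {p : I} {r : Bool} {P : ℤ → ℤ → Prop} {a b l : ℤ} {δ : ℝ}
    (hP : ∀ y y', P y y' ∨ P (2 * l - y) (2 * l - y'))
    (h : 1 - δ ≤ PT p r {η | HC η a b 0 (2 * l)}) : NearG p r (Real.sqrt δ) (NearSt P a b l) := by
  have hloc := near_localOn_st P a b l
  refine ⟨⟨_, hloc⟩, ?_⟩
  obtain ⟨t, ht⟩ := near_localOn_comp hloc (rfy (2 * l))
  have h1 : PT p r {η | (fun v => η (rfy (2 * l) v)) ∈ NearSt P a b l} =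
      PT p r (NearSt P a b l) := PT_comp hloc (rfy_injective _).injOn fun _ => rfl
  have h2 := PT_sqrt_trick (p := p) (r := r) hloc ht (near_incr_st P a b l)
    (fun ω ω' hω hE => near_incr_st P a b l _ _ (fun e he => hω _ he) hE) h1
  have h3 : 1 - δ ≤ PT p r (NearSt P a b l ∪
      {η | (fun v => η (rfy (2 * l) v)) ∈ NearSt P a b l}) := by
    refine h.trans (PT_mono ?_)
    rintro η ⟨y, y', hc⟩
    rcases hP y y' with h | h
    · exact Or.inl ⟨y, y', h, hc⟩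
    · refine Or.inr ⟨2 * l - y, 2 * l - y', h, ?_⟩
      rw [tconn_rfy]
      simpa [rfy] using hc
  have h4 : Real.sqrt (1 - PT p r (NearSt P a b l ∪
      {η | (fun v => η (rfy (2 * l) v)) ∈ NearSt P a b l})) ≤ Real.sqrt δ :=
    Real.sqrt_le_sqrt (by linarith)
  linarith

private lemma near_lj {p : I} {r : Bool} {l : ℤ} (hl : 1 ≤ l) {δ : ℝ} (hδ : 0 ≤ δ)
    (hδ1 : δ ≤ 1) (h : 1 - δ ≤ PT p r {η | HC η 0 (2 * l) 0 (2 * l)}) :
    NearG p r (δ + Real.sqrt δ) (LJ l 0 (2 * l) (2 * l)) := by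
  refine ⟨⟨_, localOn_LJ (by omega) le_rfl⟩, ?_⟩
  have h1 := expl_prob p r (l := l) (c := 0) (d := 2 * l) (e := 2 * l) (by omega) (by omega) le_rfl
  have h2 : 1 - δ ≤ PT p r {η | HC η 0 l 0 (2 * l)} :=
    h.trans (PT_mono fun η hη => HC.mono hη le_rfl (by omega) (by omega) le_rfl le_rfl)
  rw [PT_VC_eq_HC] at h1
  have h3 : Real.sqrt (1 - PT p r {η | HC η 0 (2 * l) 0 (2 * l)}) ≤ Real.sqrt δ :=
    Real.sqrt_le_sqrt (by linarith)
  have h4 : Real.sqrt δ ≤ 1 := by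
    rw [Real.sqrt_le_left zero_le_one, one_pow]
    exact hδ1
  have h5 := Real.sqrt_nonneg δ
  have h6 : (1 - δ) * (1 - Real.sqrt δ) ≤ PT p r {η | HC η 0 l 0 (2 * l)} *
      (1 - Real.sqrt (1 - PT p r {η | HC η 0 (2 * l) 0 (2 * l)})) :=
    mul_le_mul h2 (by linarith) (by linarith) PT_nonneg
  have h7 : 0 ≤ δ * Real.sqrt δ := mul_nonneg hδ h5
  nlinarith

private lemma near_lj' {p : I} {r : Bool} {l : ℤ} {q : ℝ} {E : Set Config}
    (h : NearG p r q E) : NearG p r q {η | (fun v => η (rfx l v)) ∈ E} := by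
  obtain ⟨⟨s, hs⟩, h⟩ := h
  refine ⟨near_localOn_comp hs _, ?_⟩
  rw [PT_comp hs (rfx_injective _).injOn fun _ => rfl]
  exact h

/-- The deterministic part. -/
private lemma near_det {η : Config} {l : ℤ} (hl : 1 ≤ l)
    (h1 : η ∈ LJ l 0 (2 * l) (2 * l)) (h2 : (fun v => η (rfx l v)) ∈ LJ l 0 (2 * l) (2 * l))
    (h3 : η ∈ NearSt (fun y _ => y ≤ l) 0 l l) (h4 : η ∈ NearSt (fun _ y' => y' ≤ l) 0 l l)
    (h5 : η ∈ NearSt (fun y _ => l ≤ y) 0 (2 * l) l)
    (h6 : η ∈ NearSt (fun _ y' => l ≤ y') (-l) l l) : HC η (-l) (2 * l) 0 (2 * l) := by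
  obtain ⟨y, y', hz⟩ := low_exists (by omega) (by omega) h1.1
  obtain ⟨a0, a1, ha, hca⟩ := h3
  obtain ⟨b0, b1, hb, hcb⟩ := h4
  obtain ⟨c0, c1, hc, hcc⟩ := h5
  obtain ⟨d0, d1, hd, hcd⟩ := h6
  obtain ⟨y2, hy2, hl2⟩ := low_left hz hca
  obtain ⟨y3, hy3, hl3⟩ := low_right hz hcb
  obtain ⟨x, hx⟩ := low_joined le_rfl hz h1.2
  obtain ⟨x', hx'⟩ := low_joined_left le_rfl hz h2.2
  have s1 : TR 0 l 0 (2 * l) ⊆ TR 0 (2 * l) 0 (2 * l) :=
    TR_mono le_rfl (by omega) le_rfl le_rfl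
  have s2 : TR 0 l 0 (2 * l) ⊆ TR (-l) l 0 (2 * l) :=
    TR_mono (by omega) le_rfl le_rfl le_rfl
  have s3 : TR 0 (2 * l) 0 (2 * l) ⊆ TR (-l) (2 * l) 0 (2 * l) :=
    TR_mono (by omega) le_rfl le_rfl le_rfl
  have s4 : TR (-l) l 0 (2 * l) ⊆ TR (-l) (2 * l) 0 (2 * l) :=
    TR_mono le_rfl (by omega) le_rfl le_rfl
  -- right side
  have r1 : TConn η (TR 0 (2 * l) 0 (2 * l)) (0, y2, false) (x, 2 * l, false) :=
    (hl2.mono_set s1).symm.trans hx
  have r2 := glue_left (by omega) r1 hcc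
  have r3 : TConn η (TR 0 (2 * l) 0 (2 * l)) (0, y, false) (2 * l, c1, false) :=
    ((hl2.mono_set s1).trans r2).trans hcc
  -- left side
  have q1 : TConn η (TR (-l) l 0 (2 * l)) (l, y3, false) (x', 2 * l, false) :=
    (hl3.mono_set s2).symm.trans hx'
  have q2 := glue_right (by omega) q1 hcd.symm
  have q3 : TConn η (TR (-l) l 0 (2 * l)) (l, y', false) (-l, d0, false) :=
    ((hl3.mono_set s2).trans q2).trans hcd.symm
  have m1 : TConn η (TR 0 l 0 (2 * l)) (0, y, false) (l, y', false) :=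
    hz.mono le_rfl fun v _ hv => (zet_eq_true.1 hv).1
  exact ⟨d0, c1, (((q3.mono_set s4).symm.trans (m1.mono_set (s2.trans s4)).symm).trans
    (r3.mono_set s3))⟩

private lemma near_three {p : I} {r : Bool} {l : ℤ} (hl : 1 ≤ l) {δ : ℝ} (hδ : 0 ≤ δ)
    (hδ1 : δ ≤ 1) (h : 1 - δ ≤ PT p r {η | HC η 0 (2 * l) 0 (2 * l)}) :
    1 - 8 * Real.sqrt δ ≤ PT p r {η | HC η 0 (3 * l) 0 (2 * l)} := by
  have hs : δ ≤ Real.sqrt δ := Real.le_sqrt_of_sq_le (by nlinarith)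
  have e1 := near_lj hl hδ hδ1 h
  have e2 := near_lj' (l := l) e1
  have hS : 1 - δ ≤ PT p r {η | HC η 0 l 0 (2 * l)} :=
    h.trans (PT_mono fun η hη => HC.mono hη le_rfl (by omega) (by omega) le_rfl le_rfl)
  have hB : 1 - δ ≤ PT p r {η | HC η (-l) l 0 (2 * l)} := by
    have h1 := PT_HC_shf p r 0 (2 * l) 0 (2 * l) (-l) 0
    have e1 : (0 : ℤ) + -l = -l := by ring
    have e2 : 2 * l + -l = l := by ring
    rw [e1, e2, add_zero, add_zero] at h1
    rw [h1]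
    exact h
  have e3 := near_st (P := fun y _ => y ≤ l) (fun y y' => by omega) hS
  have e4 := near_st (P := fun _ y' => y' ≤ l) (fun y y' => by omega) hS
  have e5 := near_st (P := fun y _ => l ≤ y) (fun y y' => by omega) h
  have e6 := near_st (P := fun _ y' => l ≤ y') (fun y y' => by omega) hB
  have e7 := ((((e1.inter e2).inter e3).inter e4).inter e5).inter e6
  have h1 := PT_HC_shf p r 0 (3 * l) 0 (2 * l) (-l) 0
  have f1 : (0 : ℤ) + -l = -l := by ring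
  have f2 : 3 * l + -l = 2 * l := by ring
  rw [f1, f2, add_zero, add_zero] at h1
  rw [← h1]
  refine le_trans ?_ (e7.2.trans (PT_mono ?_))
  · linarith
  · rintro η ⟨⟨⟨⟨⟨h1, h2⟩, h3⟩, h4⟩, h5⟩, h6⟩
    exact near_det hl h1 h2 h3 h4 h5 h6

private lemma near_step {η : Config} {l m : ℤ} (hl : 1 ≤ l) (hm : 0 ≤ m)
    (h1 : HC η 0 (m + 3 * l) 0 (2 * l)) (h2 : HC η (m + l) (m + 4 * l) 0 (2 * l))
    (h3 : VC η (m + l) (m + 3 * l) 0 (2 * l)) : HC η 0 (m + 4 * l) 0 (2 * l) := by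
  obtain ⟨y1, y2, h1⟩ := h1
  obtain ⟨z1, z2, h2⟩ := h2
  obtain ⟨x1, x2, h3⟩ := h3
  obtain ⟨a1, a2, ha, ha1, -⟩ := h1.cross_x (a := m + l) (b := m + 3 * l)
    (by rw [fx_site]; omega) (by rw [fx_site]) (by omega)
  obtain ⟨b1, b2, hb, -, hb2⟩ := h2.cross_x (a := m + l) (b := m + 3 * l)
    (by rw [fx_site]) (by rw [fx_site]; omega) (by omega)
  rw [TR_inter_x (by omega) (by omega)] at ha hb
  have g1 := glue_hv ha h3
  have g2 := glue_hv hb h3
  have s1 : TR 0 (m + 3 * l) 0 (2 * l) ⊆ TR 0 (m + 4 * l) 0 (2 * l) :=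
    TR_mono le_rfl (by omega) le_rfl le_rfl
  have s2 : TR (m + l) (m + 4 * l) 0 (2 * l) ⊆ TR 0 (m + 4 * l) 0 (2 * l) :=
    TR_mono (by omega) le_rfl le_rfl le_rfl
  have s3 : TR (m + l) (m + 3 * l) 0 (2 * l) ⊆ TR 0 (m + 4 * l) 0 (2 * l) :=
    TR_mono (by omega) (by omega) le_rfl le_rfl
  exact ⟨y1, z2, (((ha1.mono_set s1).trans (g1.mono_set s3)).trans (g2.mono_set s3).symm).trans
    ((hb.mono_set s3).trans (hb2.mono_set s2))⟩

theorem near_rsw (p : I) (r : Bool) {l : ℕ} (hl : 1 ≤ l) {δ : ℝ} (hδ : 0 ≤ δ)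
    (h : 1 - δ ≤ PT p r {η | HC η 0 (2 * l) 0 (2 * l)}) :
    1 - 100 * Real.sqrt δ ≤ PT p r {η | HC η 0 (12 * l) 0 (2 * l)} := by
  by_cases hδ1 : 1 < δ
  · have h1 : 1 ≤ Real.sqrt δ := by
      rw [Real.one_le_sqrt]
      exact hδ1.le
    have h2 := PT_nonneg (p := p) (r := r) (E := {η | HC η 0 (12 * l) 0 (2 * l)})
    linarith
  push Not at hδ1
  have hL : (1 : ℤ) ≤ (l : ℤ) := by exact_mod_cast hl
  have hs : δ ≤ Real.sqrt δ := Real.le_sqrt_of_sq_le (by nlinarith)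
  have h3 := near_three hL hδ hδ1 h
  have key : ∀ j : ℕ, 1 - (8 * Real.sqrt δ + j * (9 * Real.sqrt δ)) ≤
      PT p r {η | HC η 0 (j * l + 3 * l) 0 (2 * l)} := by
    intro j
    induction j with
    | zero => simpa using h3
    | succ j ih =>
      have n1 : NearG p r (8 * Real.sqrt δ + j * (9 * Real.sqrt δ))
          {η | HC η 0 (j * l + 3 * l) 0 (2 * l)} := ⟨⟨_, localOn_HC _ _ _ _⟩, ih⟩
      have n2 : NearG p r (8 * Real.sqrt δ)
          {η | HC η (j * l + l) (j * l + 4 * l) 0 (2 * l)} := by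
        refine ⟨⟨_, localOn_HC _ _ _ _⟩, ?_⟩
        have h1 := PT_HC_shf p r 0 (3 * l) 0 (2 * l) (j * l + l) 0
        have f1 : (0 : ℤ) + (j * l + l) = j * l + l := by ring
        have f2 : 3 * (l : ℤ) + (j * l + l) = j * l + 4 * l := by ring
        rw [f1, f2, add_zero, add_zero] at h1
        rw [h1]
        exact h3
      have n3 : NearG p r (Real.sqrt δ)
          {η | VC η (j * l + l) (j * l + 3 * l) 0 (2 * l)} := by
        refine ⟨⟨_, localOn_VC _ _ _ _⟩, ?_⟩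
        have h1 := PT_VC_shf p r 0 (2 * l) 0 (2 * l) (j * l + l) 0
        have f1 : (0 : ℤ) + (j * l + l) = j * l + l := by ring
        have f2 : 2 * (l : ℤ) + (j * l + l) = j * l + 3 * l := by ring
        rw [f1, f2, add_zero, add_zero] at h1
        rw [h1, PT_VC_eq_HC]
        linarith
      have n4 := (n1.inter n2).inter n3
      refine le_trans ?_ (n4.2.trans (PT_mono ?_))
      · push_cast
        linarith
      · rintro η ⟨⟨k1, k2⟩, k3⟩
        have k4 := near_step hL (m := j * l) (by positivity) k1 k2 k3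
        simp only [Set.mem_ofPred_eq]
        have f3 : ((j + 1 : ℕ) : ℤ) * l + 3 * l = j * l + 4 * l := by push_cast; ring
        rw [f3]
        exact k4
  have h4 := key 9
  have f4 : ((9 : ℕ) : ℤ) * l + 3 * l = 12 * l := by push_cast; ring
  rw [f4] at h4
  refine le_trans ?_ h4
  have := Real.sqrt_nonneg δ
  push_cast
  linarith

end Pool.Agent.H83.Site
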