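import Pool.Agent.H83.Site.Chain
import Pool.Agent.H83.Site.Near
import Pool.Agent.H83.Site.Bdd

/-! # The critical point -/

set_option autoImplicit false

open MeasureTheory ProbabilityTheory unitInterval

namespace Pool.Agent.H83.Site

open Pool.Agent.H89.Perc

/-- The critical density of site percolation on the square lattice. -/
noncomputable def pc : I := sSup {p : I | thT p false = 0}

/-- Box crossing property. -/
def BXP (p : I) (r : Bool) : Prop :=
  ∀ K : ℕ, ∃ c > (0 : ℝ), ∀ m : ℕ, 1 ≤ m → c ≤ PT p r {η | HC η 0 (K * m) 0 m}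

theorem thT_mono {p q : I} (r : Bool) (h : p ≤ q) : thT p r ≤ thT q r :=
  le_thT (n₀ := 0) fun n _ => (thT_le_ab p r n).trans (ab_mono_param r 0 n h)

theorem thT_pos_of_pc_lt {p : I} (h : pc < p) : 0 < thT p false := by
  have h0 : 0 ≤ thT p false := PT_nonneg
  rcases h0.lt_or_eq with h1 | h1
  · exact h1
  · exact absurd (le_sSup (show p ∈ {p : I | thT p false = 0} from h1.symm)) (not_le.2 h)

theorem thT_eq_zero_of_lt_pc {p : I} (h : p < pc) : thT p false = 0 := by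
  obtain ⟨q, hq, hpq⟩ := lt_sSup_iff.1 h
  have h1 : thT q false = 0 := hq
  refine le_antisymm ?_ PT_nonneg
  rw [← h1]
  exact thT_mono false hpq.le

theorem crit_Pr_zero {s : Finset Edge} {A : Set Config} (hA : LocalOn s A) (h : ofS ∅ ∉ A) :
    Pr 0 A = 0 := by
  have hc : LocalOn s (cyl s ∅) := by
    intro ω ω' hω hE
    rw [mem_cyl] at hE ⊢
    intro e he
    rw [← hω e he]
    exact hE e he
  have hsub : A ⊆ (cyl s ∅)ᶜ := by
    intro ω hω hcyl
    rw [mem_cyl] at hcyl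
    exact h (hA ω (ofS ∅) hcyl hω)
  have h1 : Pr 0 (cyl s ∅) = 1 := by
    rw [Pr_cyl 0 (Finset.empty_subset s)]
    simp
  refine le_antisymm ?_ Pr_nonneg
  refine (Pr_mono hsub).trans ?_
  rw [Pr_compl hc, h1]
  norm_num

theorem crit_qc_zero (r : Bool) {m : ℕ} (hm : 1 ≤ m) : qc 0 r m = 1 := by
  rw [qc_eq 0 r hm]
  have h : PT 0 r {η | HC η 0 (4 * m) 1 m} = 0 := by
    unfold PT
    refine crit_Pr_zero (localOn_full r (localOn_HC 0 (4 * m) 1 m)) ?_
    rintro ⟨y, y', hc⟩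
    have h1 := hc.open_left
    simp [full, ofS] at h1
  rw [h]
  norm_num

theorem crit_qc_continuous (r : Bool) (m : ℕ) : Continuous (fun p : I => qc p r m) :=
  PT_continuous (LocalOn.neg (localOn_VC 0 (4 * m) 1 m)) r

theorem crit_exists_lt {f : I → ℝ} (hf : Continuous f) {x : ℝ} {a : I} (ha : f a < x)
    (h0 : 0 < a) : ∃ b < a, f b < x := by
  have h1 : {p : I | f p < x} ∈ nhds a := (isOpen_lt hf continuous_const).mem_nhds ha
  obtain ⟨l, hl, hs⟩ := exists_Ioc_subset_of_mem_nhds h1 ⟨0, h0⟩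
  obtain ⟨b, hb1, hb2⟩ := exists_between hl
  exact ⟨b, hb2, hs ⟨hb1, hb2.le⟩⟩

theorem crit_exists_gt {f : I → ℝ} (hf : Continuous f) {x : ℝ} {a : I} (ha : f a < x)
    (h0 : a < 1) : ∃ b, a < b ∧ f b < x := by
  have h1 : {p : I | f p < x} ∈ nhds a := (isOpen_lt hf continuous_const).mem_nhds ha
  obtain ⟨l, hl, hs⟩ := exists_Ico_subset_of_mem_nhds h1 ⟨1, h0⟩
  obtain ⟨b, hb1, hb2⟩ := exists_between hl
  exact ⟨b, hb1, hs ⟨hb1.le, hb2⟩⟩

theorem crit_qc {m : ℕ} (hm : 1 ≤ m) : 1 / 242 ≤ qc pc false m ∧ 1 / 242 ≤ qc (σ pc) true m := by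
  constructor
  · by_contra hlt
    rw [not_le] at hlt
    have h0 : 0 < pc := by
      rcases (unitInterval.nonneg' : (0 : I) ≤ pc).lt_or_eq with h | h
      · exact h
      · rw [← h, crit_qc_zero false hm] at hlt
        norm_num at hlt
    obtain ⟨b, hb1, hb2⟩ := crit_exists_lt (crit_qc_continuous false m) hlt h0
    have h1 := fs_plus hm hb2.le
    rw [thT_eq_zero_of_lt_pc hb1] at h1
    exact lt_irrefl _ h1
  · by_contra hlt
    rw [not_le] at hlt
    have h0 : pc < 1 := by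
      rcases (unitInterval.le_one' : pc ≤ (1 : I)).lt_or_eq with h | h
      · exact h
      · rw [h, unitInterval.symm_one, crit_qc_zero true hm] at hlt
        norm_num at hlt
    have hcont : Continuous (fun p : I => qc (σ p) true m) :=
      (crit_qc_continuous true m).comp unitInterval.continuous_symm
    obtain ⟨b, hb1, hb2⟩ := crit_exists_gt hcont hlt h0
    have h1 : thT b false = 0 := fs_minus (p := b) (r := false) hm (by simpa using hb2.le)
    have h2 := thT_pos_of_pc_lt hb1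
    rw [h1] at h2
    exact lt_irrefl _ h2

theorem crit_dual (p : I) (r : Bool) {a b c d : ℤ} (hab : a ≤ b) (hcd : c ≤ d) :
    PT p r {η | HC η a b c d} = 1 - PT (σ p) (!r) {η | HC η c d a b} := by
  have h1 : {η : Config | HC η a b c d} = {η | VC (neg η) a b c d}ᶜ := by
    ext η
    simp only [Set.mem_ofPred_eq, Set.mem_compl_iff]
    constructor
    · intro h
      exact not_hc_and_vc h
    · intro h
      exact (hc_or_vc hab hcd η).resolve_right h
  have h4 : LocalOn (eRect a b c d) {η | VC (neg η) a b c d} :=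
    LocalOn.neg (localOn_VC a b c d)
  rw [h1, PT_compl h4]
  have h2 : PT p r {η | neg η ∈ {η | VC η a b c d}} = PT (σ p) (!r) {η | VC η a b c d} :=
    PT_neg (localOn_VC a b c d)
  have h3 : PT p r {η | VC (neg η) a b c d} = PT (σ p) (!r) {η | VC η a b c d} := h2
  rw [h3, PT_VC_eq_HC]

theorem crit_sq_aux (p : I) (r : Bool) {k : ℕ} (hk : 1 ≤ k)
    (hq : 1 / 242 ≤ qc (σ p) (!r) (2 * k + 1)) :
    (1 / 24300 : ℝ) ^ 2 ≤ PT p r {η | HC η 0 (2 * k) 0 (2 * k)} := by
  by_contra hlt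
  rw [not_le] at hlt
  have h1 := crit_dual p r (a := 0) (b := 2 * k) (c := 0) (d := 2 * k) (by positivity)
    (by positivity)
  have h2 : 1 - (1 / 24300 : ℝ) ^ 2 ≤ PT (σ p) (!r) {η | HC η 0 (2 * k) 0 (2 * k)} := by
    linarith
  have h3 := near_rsw (σ p) (!r) hk (δ := (1 / 24300 : ℝ) ^ 2) (by positivity) h2
  rw [Real.sqrt_sq (by norm_num)] at h3
  rw [qc_eq (σ p) (!r) (by omega)] at hq
  have h4 : PT (σ p) (!r) {η | HC η 0 (12 * k) 0 (2 * k)} ≤
      PT (σ p) (!r) {η | HC η 0 (4 * ((2 * k + 1 : ℕ) : ℤ)) 1 ((2 * k + 1 : ℕ) : ℤ)} := by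
    rw [← PT_HC_shf (σ p) (!r) 0 (12 * k) 0 (2 * k) 0 1]
    refine PT_mono fun η hη => ?_
    have hη' : HC η (0 + 0) (12 * k + 0) (0 + 1) (2 * k + 1) := hη
    exact hη'.mono (by omega) (by positivity) (by push_cast; omega) (by omega)
      (by push_cast; omega)
  linarith

theorem crit_squares : ∃ δ > (0 : ℝ), ∀ k : ℕ, 1 ≤ k →
    δ ≤ PT pc false {η | HC η 0 (2 * k) 0 (2 * k)} ∧
      δ ≤ PT (σ pc) true {η | HC η 0 (2 * k) 0 (2 * k)} := by
  refine ⟨(1 / 24300 : ℝ) ^ 2, by positivity, fun k hk => ⟨?_, ?_⟩⟩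
  · exact crit_sq_aux pc false hk (crit_qc (by omega)).2
  · refine crit_sq_aux (σ pc) true hk ?_
    rw [σσ]
    exact (crit_qc (by omega)).1

theorem bxp_pc : BXP pc false ∧ BXP (σ pc) true := by
  obtain ⟨δ, hδ, h⟩ := crit_squares
  constructor
  · intro K
    obtain ⟨c, hc, hK⟩ := bdd_rsw hδ K
    exact ⟨c, hc, hK pc false fun k hk => (h k hk).1⟩
  · intro K
    obtain ⟨c, hc, hK⟩ := bdd_rsw hδ K
    exact ⟨c, hc, hK (σ pc) true fun k hk => (h k hk).2⟩

end Pool.Agent.H83.Site
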