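import Pool.Agent.H83.Site.Glue

/-! # Circuits in annuli -/

set_option autoImplicit false

open MeasureTheory ProbabilityTheory unitInterval

namespace Pool.Agent.H83.Site

open Pool.Agent.H89.Perc

/-- Open crossings of the four rectangles that form the annulus `[-2s, 2s]² \ [-s, s]²`. -/
def CircE (s : ℕ) : Set Config :=
  {η | HC η (-(2 * s)) (2 * s) s (2 * s) ∧ HC η (-(2 * s)) (2 * s) (-(2 * s)) (-s) ∧
    VC η s (2 * s) (-(2 * s)) (2 * s) ∧ VC η (-(2 * s)) (-s) (-(2 * s)) (2 * s)}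

theorem circ_eRect_mono {a b c d a' b' c' d' : ℤ} (h1 : a' ≤ a) (h2 : b ≤ b') (h3 : c' ≤ c)
    (h4 : d ≤ d') : eRect a b c d ⊆ eRect a' b' c' d' := by
  intro v hv
  rw [mem_eRect] at hv ⊢
  simp only [rect, Set.mem_ofPred_eq] at hv ⊢
  omega

theorem circ_eq (s : ℕ) : CircE s = ({η | HC η (-(2 * s)) (2 * s) s (2 * s)} ∩
    {η | HC η (-(2 * s)) (2 * s) (-(2 * s)) (-s)}) ∩ ({η | VC η s (2 * s) (-(2 * s)) (2 * s)} ∩
    {η | VC η (-(2 * s)) (-s) (-(2 * s)) (2 * s)}) := by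
  ext η
  simp only [CircE, Set.mem_ofPred_eq, Set.mem_inter_iff]
  tauto

theorem localOn_CircE (s : ℕ) :
    LocalOn (eRect (-(2 * s)) (2 * s) (-(2 * s)) (2 * s)) (CircE s) := by
  rw [circ_eq]
  refine LocalOn.inter (LocalOn.inter ?_ ?_) (LocalOn.inter ?_ ?_)
  · exact (localOn_HC _ _ _ _).mono (circ_eRect_mono (by omega) (by omega) (by omega) (by omega))
  · exact (localOn_HC _ _ _ _).mono (circ_eRect_mono (by omega) (by omega) (by omega) (by omega))
  · exact (localOn_VC _ _ _ _).mono (circ_eRect_mono (by omega) (by omega) (by omega) (by omega))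
  · exact (localOn_VC _ _ _ _).mono (circ_eRect_mono (by omega) (by omega) (by omega) (by omega))

theorem incr_CircE (s : ℕ) : Incr (CircE s) := by
  rw [circ_eq]
  exact ((incr_HC _ _ _ _).inter (incr_HC _ _ _ _)).inter
    ((incr_VC _ _ _ _).inter (incr_VC _ _ _ _))

theorem circ_prob {p₀ : I} {r : Bool} {c : ℝ} (hc : 0 < c)
    (h : ∀ m : ℕ, 1 ≤ m → c ≤ PT p₀ r {η | HC η 0 ((4 : ℕ) * m) 0 m}) {p : I} (hp : p₀ ≤ p)
    {s : ℕ} (hs : 1 ≤ s) : c ^ 4 ≤ PT p r (CircE s) := by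
  have h0 : c ≤ PT p r {η | HC η 0 ((4 : ℕ) * s) 0 s} :=
    (h s hs).trans (PT_mono_param (localOn_HC _ _ _ _) (incr_HC _ _ _ _) hp)
  have e1 : c ≤ PT p r {η | HC η (-(2 * s)) (2 * s) s (2 * s)} := by
    have := PT_HC_shf p r 0 ((4 : ℕ) * s) 0 s (-(2 * s)) s
    have a1 : (0 : ℤ) + -(2 * s) = -(2 * s) := by ring
    have a2 : ((4 : ℕ) : ℤ) * s + -(2 * s) = 2 * s := by push_cast; ring
    have a3 : (0 : ℤ) + s = s := by ring
    have a4 : (s : ℤ) + s = 2 * s := by ring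
    rw [a1, a2, a3, a4] at this
    rw [this]
    exact h0
  have e2 : c ≤ PT p r {η | HC η (-(2 * s)) (2 * s) (-(2 * s)) (-s)} := by
    have := PT_HC_shf p r 0 ((4 : ℕ) * s) 0 s (-(2 * s)) (-(2 * s))
    have a1 : (0 : ℤ) + -(2 * s) = -(2 * s) := by ring
    have a2 : ((4 : ℕ) : ℤ) * s + -(2 * s) = 2 * s := by push_cast; ring
    have a4 : (s : ℤ) + -(2 * s) = -s := by ring
    rw [a1, a2, a4] at this
    rw [this]
    exact h0
  have e3 : c ≤ PT p r {η | VC η s (2 * s) (-(2 * s)) (2 * s)} := by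
    rw [PT_VC_eq_HC]
    exact e1
  have e4 : c ≤ PT p r {η | VC η (-(2 * s)) (-s) (-(2 * s)) (2 * s)} := by
    rw [PT_VC_eq_HC]
    exact e2
  have f1 := PT_fkg (p := p) (r := r) (localOn_HC (-(2 * s)) (2 * s) s (2 * s))
    (localOn_HC (-(2 * s)) (2 * s) (-(2 * s)) (-s)) (incr_HC _ _ _ _) (incr_HC _ _ _ _)
  have f2 := PT_fkg (p := p) (r := r) (localOn_VC s (2 * s) (-(2 * s)) (2 * s))
    (localOn_VC (-(2 * s)) (-s) (-(2 * s)) (2 * s)) (incr_VC _ _ _ _) (incr_VC _ _ _ _)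
  have g1 : LocalOn (eRect (-(2 * s)) (2 * s) (-(2 * s)) (2 * s))
      ({η | HC η (-(2 * s)) (2 * s) s (2 * s)} ∩
        {η | HC η (-(2 * s)) (2 * s) (-(2 * s)) (-s)}) :=
    LocalOn.inter
      ((localOn_HC _ _ _ _).mono (circ_eRect_mono (by omega) (by omega) (by omega) (by omega)))
      ((localOn_HC _ _ _ _).mono (circ_eRect_mono (by omega) (by omega) (by omega) (by omega)))
  have g2 : LocalOn (eRect (-(2 * s)) (2 * s) (-(2 * s)) (2 * s))
      ({η | VC η s (2 * s) (-(2 * s)) (2 * s)} ∩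
        {η | VC η (-(2 * s)) (-s) (-(2 * s)) (2 * s)}) :=
    LocalOn.inter
      ((localOn_VC _ _ _ _).mono (circ_eRect_mono (by omega) (by omega) (by omega) (by omega)))
      ((localOn_VC _ _ _ _).mono (circ_eRect_mono (by omega) (by omega) (by omega) (by omega)))
  have f3 := PT_fkg (p := p) (r := r) g1 g2 ((incr_HC _ _ _ _).inter (incr_HC _ _ _ _))
    ((incr_VC _ _ _ _).inter (incr_VC _ _ _ _))
  rw [circ_eq]
  have k1 : c * c ≤ _ := (mul_le_mul e1 e2 hc.le (hc.le.trans e1)).trans f1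
  have k2 : c * c ≤ _ := (mul_le_mul e3 e4 hc.le (hc.le.trans e3)).trans f2
  have k3 : (c * c) * (c * c) ≤ _ :=
    (mul_le_mul k1 k2 (mul_nonneg hc.le hc.le) ((mul_nonneg hc.le hc.le).trans k1)).trans f3
  calc c ^ 4 = (c * c) * (c * c) := by ring
    _ ≤ _ := k3

/-- A horizontal and a vertical crossing of rectangles which cross each other are connected. -/
theorem circ_hv {η : Config} {a b c d a' b' c' d' y y' x x' : ℤ} (ha : a ≤ a') (hab : a' ≤ b')
    (hb : b' ≤ b) (hc : c' ≤ c) (hcd : c ≤ d) (hd : d ≤ d')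
    (h1 : TConn η (TR a b c d) (a, y, false) (b, y', false))
    (h2 : TConn η (TR a' b' c' d') (x, c', false) (x', d', false)) :
    TConn η (TR a b c d ∪ TR a' b' c' d') (a, y, false) (x, c', false) := by
  obtain ⟨z, z', h3, h4, -⟩ := h1.cross_x (a := a') (b := b') (by simp only [fx_site]; omega)
    (by simp only [fx_site]; omega) hab
  rw [TR_inter_x ha hb] at h3
  obtain ⟨t, t', h5, h6, -⟩ := h2.cross_y (c := c) (d := d) (by simp only [fy_site]; omega)
    (by simp only [fy_site]; omega) hcd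
  rw [TR_inter_y hc hd] at h5
  have h7 := glue_hv h3 h5
  refine (h4.mono_set Set.subset_union_left).trans ((h7.mono_set ?_).trans
    (h6.symm.mono_set Set.subset_union_right))
  exact (TR_mono ha hb le_rfl le_rfl).trans Set.subset_union_left

/-- All paths which cross the annulus are connected to one vertex. -/
theorem circ_base {η : Config} {s : ℕ} (hs : 1 ≤ s) (h : η ∈ CircE s) : ∃ w : TV,
    ∀ (S : Set TV) (u v : TV), TConn η S u v → u ∈ TR (-s) s (-s) s →
      (fx v ≤ 2 * (-(2 * s)) ∨ 2 * (2 * s) ≤ fx v ∨ fy v ≤ 2 * (-(2 * s)) ∨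
        2 * (2 * s) ≤ fy v) →
      TConn η (S ∪ TR (-(2 * s)) (2 * s) (-(2 * s)) (2 * s)) u w := by
  obtain ⟨⟨yT, yT', hT⟩, ⟨yB, yB', hB⟩, ⟨xR, xR', hR⟩, ⟨xL, xL', hL⟩⟩ := h
  set Q : Set TV := TR (-(2 * s)) (2 * s) (-(2 * s)) (2 * s) with hQ
  have hs' : (1 : ℤ) ≤ s := by exact_mod_cast hs
  have sT : TR (-(2 * s)) (2 * s) s (2 * s) ⊆ Q := TR_mono le_rfl le_rfl (by omega) le_rfl
  have sB : TR (-(2 * s)) (2 * s) (-(2 * s)) (-s) ⊆ Q := TR_mono le_rfl le_rfl le_rfl (by omega)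
  have sR : TR s (2 * s) (-(2 * s)) (2 * s) ⊆ Q := TR_mono (by omega) le_rfl le_rfl le_rfl
  have sL : TR (-(2 * s)) (-s) (-(2 * s)) (2 * s) ⊆ Q := TR_mono le_rfl (by omega) le_rfl le_rfl
  have cTR : TConn η Q (-(2 * s), yT, false) (xR, -(2 * s), false) :=
    (circ_hv (by omega) (by omega) (by omega) (by omega) (by omega) (by omega) hT hR).mono_set
      (Set.union_subset sT sR)
  have cBR : TConn η Q (-(2 * s), yB, false) (xR, -(2 * s), false) :=
    (circ_hv (by omega) (by omega) (by omega) (by omega) (by omega) (by omega) hB hR).mono_set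
      (Set.union_subset sB sR)
  have cTL : TConn η Q (-(2 * s), yT, false) (xL, -(2 * s), false) :=
    (circ_hv (by omega) (by omega) (by omega) (by omega) (by omega) (by omega) hT hL).mono_set
      (Set.union_subset sT sL)
  have cLR : TConn η Q (xL, -(2 * s), false) (xR, -(2 * s), false) := cTL.symm.trans cTR
  refine ⟨(xR, -(2 * s), false), fun S u v huv hu hv => ?_⟩
  have hu' := hu
  rw [mem_TR] at hu'
  have hc2 : ((2 * s : ℕ) : ℤ) = 2 * s := by push_cast; ring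
  obtain ⟨z, hz, hz2⟩ := huv.to_sph (x := 0) (y := 0) (n := 2 * s)
    (by rw [mem_TR, hc2]; omega) (by rw [hc2]; simp only [zero_sub, zero_add]; exact hv)
  rw [hc2] at hz2
  simp only [zero_sub, zero_add] at hz2
  obtain ⟨hz3, hz4, hz5⟩ := hz
  rw [hc2] at hz5
  simp only [zero_sub, zero_add] at hz5
  have hfx := fx_even hz4
  have hfy := fy_even hz4
  have sub1 : S ∩ Q ⊆ S ∪ Q := Set.inter_subset_left.trans Set.subset_union_left
  rcases hz5 with h1 | h1 | h1 | h1
  · -- left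
    obtain ⟨y, y', h3, -, h5⟩ := hz2.symm.cross_x (a := -(2 * s)) (b := -s)
      (by rw [hfx]; omega) (by omega) (by omega)
    have h6 : TConn η (TR (-(2 * s)) (-s) (-(2 * s)) (2 * s)) (-(2 * s), y, false)
        (-s, y', false) := by
      refine h3.mono_set fun x hx => ?_
      obtain ⟨⟨_, hx1⟩, hx2⟩ := hx
      rw [mem_TR] at hx1 ⊢
      simp only [Set.mem_ofPred_eq] at hx2
      omega
    have h7 := glue_hv h6 hL
    have h8 : TConn η (S ∪ Q) (-s, y', false) (xL, -(2 * s), false) :=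
      (h6.symm.trans h7).mono_set (sL.trans Set.subset_union_right)
    exact (h5.symm.mono_set sub1).trans (h8.trans (cLR.mono_set Set.subset_union_right))
  · -- right
    obtain ⟨y, y', h3, h4, -⟩ := hz2.cross_x (a := s) (b := 2 * s)
      (by omega) (by rw [hfx]; omega) (by omega)
    have h6 : TConn η (TR s (2 * s) (-(2 * s)) (2 * s)) (s, y, false) (2 * s, y', false) := by
      refine h3.mono_set fun x hx => ?_
      obtain ⟨⟨_, hx1⟩, hx2⟩ := hx
      rw [mem_TR] at hx1 ⊢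
      simp only [Set.mem_ofPred_eq] at hx2
      omega
    have h7 := glue_hv h6 hR
    exact (h4.mono_set sub1).trans (h7.mono_set (sR.trans Set.subset_union_right))
  · -- bottom
    obtain ⟨x, x', h3, -, h5⟩ := hz2.symm.cross_y (c := -(2 * s)) (d := -s)
      (by rw [hfy]; omega) (by omega) (by omega)
    have h6 : TConn η (TR (-(2 * s)) (2 * s) (-(2 * s)) (-s)) (x, -(2 * s), false)
        (x', -s, false) := by
      refine h3.mono_set fun x hx => ?_
      obtain ⟨⟨_, hx1⟩, hx2⟩ := hx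
      rw [mem_TR] at hx1 ⊢
      simp only [Set.mem_ofPred_eq] at hx2
      omega
    have h7 := glue_hv hB h6
    have h8 : TConn η (S ∪ Q) (x', -s, false) (xR, -(2 * s), false) :=
      ((h6.symm.trans h7.symm).mono_set (sB.trans Set.subset_union_right)).trans
        (cBR.mono_set Set.subset_union_right)
    exact (h5.symm.mono_set sub1).trans h8
  · -- top
    obtain ⟨x, x', h3, h4, -⟩ := hz2.cross_y (c := s) (d := 2 * s)
      (by omega) (by rw [hfy]; omega) (by omega)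
    have h6 : TConn η (TR (-(2 * s)) (2 * s) s (2 * s)) (x, s, false) (x', 2 * s, false) := by
      refine h3.mono_set fun x hx => ?_
      obtain ⟨⟨_, hx1⟩, hx2⟩ := hx
      rw [mem_TR] at hx1 ⊢
      simp only [Set.mem_ofPred_eq] at hx2
      omega
    have h7 := glue_hv hT h6
    exact (h4.mono_set sub1).trans ((h7.symm.mono_set (sT.trans Set.subset_union_right)).trans
      (cTR.mono_set Set.subset_union_right))

/-- Two paths which cross the annulus are connected, if the four crossings exist. -/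
theorem circ_glue {η : Config} {s : ℕ} (hs : 1 ≤ s) (h : η ∈ CircE s) {S S' : Set TV}
    {u v u' v' : TV} (h1 : TConn η S u v) (hu : u ∈ TR (-s) s (-s) s)
    (hv : fx v ≤ 2 * (-(2 * s)) ∨ 2 * (2 * s) ≤ fx v ∨ fy v ≤ 2 * (-(2 * s)) ∨
      2 * (2 * s) ≤ fy v)
    (h2 : TConn η S' u' v') (hu' : u' ∈ TR (-s) s (-s) s)
    (hv' : fx v' ≤ 2 * (-(2 * s)) ∨ 2 * (2 * s) ≤ fx v' ∨ fy v' ≤ 2 * (-(2 * s)) ∨
      2 * (2 * s) ≤ fy v') :
    TConn η (S ∪ S' ∪ TR (-(2 * s)) (2 * s) (-(2 * s)) (2 * s)) u u' := by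
  obtain ⟨w, hw⟩ := circ_base hs h
  have a1 := hw S u v h1 hu hv
  have a2 := hw S' u' v' h2 hu' hv'
  refine (a1.mono_set ?_).trans (a2.symm.mono_set ?_)
  · exact Set.union_subset_union_left _ Set.subset_union_left
  · exact Set.union_subset_union_left _ Set.subset_union_right

/-- Gluing of arms. -/
theorem arm_glue {η : Config} {s k n : ℕ} (hs : 1 ≤ s) (hk : k ≤ s) (hsn : 2 * s ≤ n)
    (h : η ∈ CircE s) (h1 : η ∈ AB 0 0 k (2 * s)) (h2 : η ∈ AB 0 0 s n) : η ∈ AB 0 0 k n := by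
  obtain ⟨u, hu, w, hw, hc⟩ := h1
  obtain ⟨u', hu', w', hw', hc'⟩ := h2
  have hk' : (k : ℤ) ≤ s := by exact_mod_cast hk
  have hn' : 2 * (s : ℤ) ≤ n := by exact_mod_cast hsn
  have hc2 : ((2 * s : ℕ) : ℤ) = 2 * s := by push_cast; ring
  rw [hc2] at hc
  obtain ⟨hw1, hw2, hw3⟩ := hw
  rw [hc2] at hw3
  have e1 := fx_even hw2
  have e2 := fy_even hw2
  have hw'0 := hw'
  obtain ⟨hw1', hw2', hw3'⟩ := hw'0
  have e1' := fx_even hw2'
  have e2' := fy_even hw2'
  have hu1 : u ∈ TR (-s) s (-s) s := by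
    rw [mem_TR] at hu ⊢
    omega
  have hu1' : u' ∈ TR (-s) s (-s) s := by
    rw [mem_TR] at hu' ⊢
    omega
  have h3 := circ_glue hs h hc hu1 (by omega) hc' hu1' (by omega)
  refine ⟨u, hu, w', hw', (h3.mono_set ?_).trans hc'⟩
  refine Set.union_subset (Set.union_subset ?_ ?_) ?_
  · exact TR_mono (by omega) (by omega) (by omega) (by omega)
  · exact TR_mono (by omega) (by omega) (by omega) (by omega)
  · exact TR_mono (by omega) (by omega) (by omega) (by omega)

end Pool.Agent.H83.Site
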