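import Pool.Agent.H83.Site.ArmT

/-! # Finite size criterion with arms -/

set_option autoImplicit false

open MeasureTheory ProbabilityTheory unitInterval

namespace Pool.Agent.H83.Site

open Pool.Agent.H89.Perc

theorem fs_strong {p₀ : I} {r : Bool} (h : BXP p₀ r) : ∃ ε > (0 : ℝ), ∃ c > (0 : ℝ),
    ∀ p : I, p₀ ≤ p → ∀ m : ℕ, 1 ≤ m →
      1 - ε ≤ PT p r {η | HC η m (25 * m) (-m) (4 * m)} → c * ab p r 0 m ≤ thT p r := by
  obtain ⟨c₀, hc₀, hB⟩ := h 4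
  obtain ⟨c₁, hc₁, hA⟩ := arm_extT h
  refine ⟨1 / 242, by norm_num, c₀ ^ 4 * (1 / 2) * (c₁ * Real.sqrt (1 / 48)), by positivity, ?_⟩
  intro p hp m hm hHC
  set M : ℕ := 5 * m + 1 with hM
  have hM1 : 1 ≤ M := by omega
  -- the failure probability
  have hq : qc p r M ≤ 1 / 242 := by
    rw [qc_eq p r hM1]
    have h1 : PT p r {η | HC η m (25 * m) (-m) (4 * m)} ≤
        PT p r {η | HC η 0 (4 * (M : ℕ)) 1 (M : ℕ)} := by
      rw [← PT_HC_shf p r 0 (4 * (M : ℕ)) 1 (M : ℕ) m (-m - 1)]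
      refine PT_mono fun η hη => ?_
      simp only [Set.mem_ofPred_eq] at hη ⊢
      refine hη.mono (by omega) (by omega) (by rw [hM]; push_cast; omega) (by omega)
        (by rw [hM]; push_cast; omega)
    have h2 : PT p r {η | HC η 0 (4 * (M : ℕ)) 1 (M : ℕ)} = PT p r {η | HC η 0 (4 * M) 1 M} := rfl
    linarith
  -- connection to distance `N`
  refine le_thT (n₀ := 8 * M) ?_
  intro N hN
  have h1 : 1 / 2 ≤ ab p r (4 * M) N := fs_chain hM1 hq (by omega)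
  have h2 : c₀ ^ 4 ≤ PT p r (CircE (4 * M)) := circ_prob hc₀ hB hp (by omega)
  have h3 : c₁ * Real.sqrt ((m : ℝ) / (8 * M : ℕ)) * ab p r 0 m ≤ ab p r 0 (8 * M) :=
    hA p hp m (8 * M) hm (by omega)
  have h4 : Real.sqrt (1 / 48) ≤ Real.sqrt ((m : ℝ) / (8 * M : ℕ)) := by
    apply Real.sqrt_le_sqrt
    have hm0 : (1 : ℝ) ≤ m := by exact_mod_cast hm
    rw [div_le_div_iff₀ (by norm_num) (by positivity)]
    rw [hM]; push_cast; nlinarith
  have hloc1 := localOn_AB 0 0 0 (8 * M)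
  have hloc2 := localOn_CircE (4 * M)
  have hloc3 := localOn_AB 0 0 (4 * M) N
  have h5 : PT p r (AB 0 0 0 (8 * M)) * PT p r (CircE (4 * M)) ≤
      PT p r (AB 0 0 0 (8 * M) ∩ CircE (4 * M)) :=
    PT_fkg hloc1 hloc2 (incr_AB _ _ _ _) (incr_CircE _)
  have hloc12 : LocalOn (eRect (0 - (8 * M : ℕ)) (0 + (8 * M : ℕ)) (0 - (8 * M : ℕ))
      (0 + (8 * M : ℕ)) ∪ eRect (-(2 * (4 * M : ℕ))) (2 * (4 * M : ℕ)) (-(2 * (4 * M : ℕ)))
      (2 * (4 * M : ℕ))) (AB 0 0 0 (8 * M) ∩ CircE (4 * M)) := by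
    classical
    exact (hloc1.mono Finset.subset_union_left).inter (hloc2.mono Finset.subset_union_right)
  have h6 : PT p r (AB 0 0 0 (8 * M) ∩ CircE (4 * M)) * PT p r (AB 0 0 (4 * M) N) ≤
      PT p r ((AB 0 0 0 (8 * M) ∩ CircE (4 * M)) ∩ AB 0 0 (4 * M) N) :=
    PT_fkg hloc12 hloc3 ((incr_AB _ _ _ _).inter (incr_CircE _)) (incr_AB _ _ _ _)
  have h7 : PT p r ((AB 0 0 0 (8 * M) ∩ CircE (4 * M)) ∩ AB 0 0 (4 * M) N) ≤ ab p r 0 N := by
    refine PT_mono ?_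
    rintro η ⟨⟨ha, hb⟩, hc⟩
    refine arm_glue (s := 4 * M) (by omega) (by omega) (by omega) hb ?_ hc
    have : 2 * (4 * M) = 8 * M := by ring
    rw [this]; exact ha
  have hab0 : 0 ≤ ab p r 0 m := ab_nonneg
  have hab1 : 0 ≤ ab p r 0 (8 * M) := ab_nonneg
  have h8 : (c₁ * Real.sqrt (1 / 48)) * ab p r 0 m ≤ PT p r (AB 0 0 0 (8 * M)) := by
    refine le_trans ?_ h3
    gcongr
  have hx0 : 0 ≤ (c₁ * Real.sqrt (1 / 48)) * ab p r 0 m := by positivity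
  calc c₀ ^ 4 * (1 / 2) * (c₁ * Real.sqrt (1 / 48)) * ab p r 0 m
      = ((c₁ * Real.sqrt (1 / 48)) * ab p r 0 m) * c₀ ^ 4 * (1 / 2) := by ring
    _ ≤ PT p r (AB 0 0 0 (8 * M)) * PT p r (CircE (4 * M)) * PT p r (AB 0 0 (4 * M) N) := by
        have h9 : ((c₁ * Real.sqrt (1 / 48)) * ab p r 0 m) * c₀ ^ 4 ≤
            PT p r (AB 0 0 0 (8 * M)) * PT p r (CircE (4 * M)) :=
          mul_le_mul h8 h2 (by positivity) PT_nonneg
        exact mul_le_mul h9 h1 (by norm_num) (mul_nonneg PT_nonneg PT_nonneg)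
    _ ≤ PT p r (AB 0 0 0 (8 * M) ∩ CircE (4 * M)) * PT p r (AB 0 0 (4 * M) N) :=
        mul_le_mul_of_nonneg_right h5 PT_nonneg
    _ ≤ _ := h6.trans h7

end Pool.Agent.H83.Site
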