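import Pool.Agent.H83.Site.MainT
import Pool.Agent.H83.Site.FSstrong

/-! # The product inequality for the percolation probabilities -/

set_option autoImplicit false

open MeasureTheory ProbabilityTheory unitInterval

namespace Pool.Agent.H83.Site

open Pool.Agent.H89.Perc

/-- Abstract form of the final argument (first case: the second length is the smaller one). -/
theorem finalA_core {A B B₀ : ℕ → ℝ} {t₁ t₂ h κ e c₁ c₂ : ℝ} {G₁ G₂ : ℕ → Prop}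
    (hB : Antitone B) (hA0 : ∀ n, 0 ≤ A n)
    (hB00 : ∀ n, 0 ≤ B₀ n)
    (hBB : ∀ n, B₀ n ≤ B n)
    (ht₁ : 0 ≤ t₁) (ht₂ : 0 ≤ t₂)
    (hlA : ∀ (x : ℝ) (n₀ : ℕ), (∀ n, n₀ ≤ n → x ≤ A n) → x ≤ t₁)
    (hh0 : 0 ≤ h) (hh1 : h ≤ 1) (hκ : 0 < κ) (he : 0 < e) (he1 : e ≤ 1) (hc₁ : 0 < c₁)
    (hc₂ : 0 < c₂) (hc₁1 : c₁ ≤ 1)
    (hG1 : ∀ m, 1 ≤ m → G₁ m → c₁ * A m ≤ t₁) (hG2 : ∀ m, 1 ≤ m → G₂ m → c₂ * B m ≤ t₂)
    (hF1 : ∀ m, 1 ≤ m → ¬ G₁ m → κ * h ≤ A m * B₀ m)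
    (hxA : ∀ m, 1 ≤ m → e * A m ≤ A (m + 1)) (hxB : ∀ m, 1 ≤ m → e * B m ≤ B (m + 1))
    (hA1 : e ≤ A 1) (hB1 : e ≤ B 1)
    {m₂ : ℕ} (hm₂ : 1 ≤ m₂) (hg : G₂ m₂) (hlt : ∀ m, 1 ≤ m → m < m₂ → ¬ G₁ m) :
    c₁ * c₂ * e ^ 2 * min κ 1 * h ≤ t₁ * t₂ := by
  have hκ' : min κ 1 * h ≤ κ * h := mul_le_mul_of_nonneg_right (min_le_left _ _) hh0
  have hmin0 : 0 ≤ min κ 1 * h := mul_nonneg (le_min hκ.le zero_le_one) hh0
  by_cases hex : ∃ m, 1 ≤ m ∧ G₁ m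
  · classical
    set m₁ := Nat.find hex with hm₁
    obtain ⟨h1, h2⟩ := Nat.find_spec hex
    rw [← hm₁] at h1 h2
    have h12 : m₂ ≤ m₁ := by
      by_contra hcon
      exact hlt m₁ h1 (by omega) h2
    rcases Nat.lt_or_ge m₁ 2 with h3 | h3
    · have e1 : m₁ = 1 := by omega
      have e2 : m₂ = 1 := by omega
      rw [e1] at h2
      rw [e2] at hg
      have a1 := hG1 1 le_rfl h2
      have a2 := hG2 1 le_rfl hg
      have a3 : c₁ * e ≤ t₁ := (mul_le_mul_of_nonneg_left hA1 hc₁.le).trans a1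
      have a4 : c₂ * e ≤ t₂ := (mul_le_mul_of_nonneg_left hB1 hc₂.le).trans a2
      have a5 : (c₁ * e) * (c₂ * e) ≤ t₁ * t₂ :=
        mul_le_mul a3 a4 (by positivity) ht₁
      refine le_trans ?_ a5
      have a6 : min κ 1 * h ≤ 1 := by
        have : min κ 1 * h ≤ 1 * 1 :=
          mul_le_mul (min_le_right _ _) hh1 hh0 zero_le_one
        linarith
      calc c₁ * c₂ * e ^ 2 * min κ 1 * h = (c₁ * e) * (c₂ * e) * (min κ 1 * h) := by ring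
        _ ≤ (c₁ * e) * (c₂ * e) * 1 := mul_le_mul_of_nonneg_left a6 (by positivity)
        _ = _ := mul_one _
    · obtain ⟨m, hm⟩ : ∃ m, m₁ = m + 1 := ⟨m₁ - 1, by omega⟩
      have hm1 : 1 ≤ m := by omega
      have hnG : ¬ G₁ m := by
        intro hG
        exact Nat.find_min hex (m := m) (by omega) ⟨hm1, hG⟩
      have a1 := hF1 m hm1 hnG
      have a2 : c₁ * (e * A m) ≤ t₁ := by
        refine (mul_le_mul_of_nonneg_left (hxA m hm1) hc₁.le).trans ?_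
        rw [← hm]; exact hG1 m₁ h1 h2
      have a3 : c₂ * (e * B₀ m) ≤ t₂ := by
        have b1 : e * B₀ m ≤ e * B m := mul_le_mul_of_nonneg_left (hBB m) he.le
        have b2 : e * B m ≤ B m₂ := (hxB m hm1).trans (hB (by omega))
        exact (mul_le_mul_of_nonneg_left (b1.trans b2) hc₂.le).trans (hG2 m₂ hm₂ hg)
      have a4 : (c₁ * (e * A m)) * (c₂ * (e * B₀ m)) ≤ t₁ * t₂ :=
        mul_le_mul a2 a3 (mul_nonneg hc₂.le (mul_nonneg he.le (hB00 m))) ht₁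
      refine le_trans ?_ a4
      calc c₁ * c₂ * e ^ 2 * min κ 1 * h = (c₁ * c₂ * e ^ 2) * (min κ 1 * h) := by ring
        _ ≤ (c₁ * c₂ * e ^ 2) * (A m * B₀ m) :=
            mul_le_mul_of_nonneg_left (hκ'.trans a1) (by positivity)
        _ = _ := by ring
  · push Not at hex
    rcases hh0.eq_or_lt with h0 | hpos
    · rw [← h0, mul_zero]; exact mul_nonneg ht₁ ht₂
    have hb : ∀ n, m₂ ≤ n → κ * h ≤ A n * (t₂ / c₂) := by
      intro n hn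
      have b1 := hF1 n (hm₂.trans hn) (hex n (hm₂.trans hn))
      have b2 : B₀ n ≤ t₂ / c₂ := by
        rw [le_div_iff₀ hc₂, mul_comm]
        refine (mul_le_mul_of_nonneg_left ((hBB n).trans (hB hn)) hc₂.le).trans ?_
        exact hG2 m₂ hm₂ hg
      exact b1.trans (mul_le_mul_of_nonneg_left b2 (hA0 n))
    have ht₂' : 0 < t₂ := by
      rcases ht₂.eq_or_lt with h0 | h0
      · have := hb m₂ le_rfl
        rw [← h0, zero_div, mul_zero] at this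
        nlinarith
      · exact h0
    have key : κ * h * c₂ / t₂ ≤ t₁ := by
      refine hlA _ m₂ fun n hn => ?_
      rw [div_le_iff₀ ht₂']
      have := hb n hn
      calc κ * h * c₂ ≤ A n * (t₂ / c₂) * c₂ := mul_le_mul_of_nonneg_right this hc₂.le
        _ = A n * t₂ := by field_simp
    rw [div_le_iff₀ ht₂'] at key
    refine le_trans ?_ key
    have h1 : c₁ * e ^ 2 ≤ 1 := by
      have : e ^ 2 ≤ 1 := pow_le_one₀ he.le he1
      nlinarith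
    calc c₁ * c₂ * e ^ 2 * min κ 1 * h = (c₁ * e ^ 2) * (c₂ * (min κ 1 * h)) := by ring
      _ ≤ 1 * (c₂ * (min κ 1 * h)) :=
          mul_le_mul_of_nonneg_right h1 (mul_nonneg hc₂.le hmin0)
      _ ≤ 1 * (c₂ * (κ * h)) :=
          mul_le_mul_of_nonneg_left (mul_le_mul_of_nonneg_left hκ' hc₂.le) zero_le_one
      _ = κ * h * c₂ := by ring

/-- The one-arm probabilities are nonincreasing in the distance. -/
theorem finalA_antitone (p : I) (r : Bool) : Antitone (fun n => ab p r 0 n) :=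
  fun _ _ h => ab_mono le_rfl h (Nat.zero_le _)

/-- The constants for one colour. -/
theorem finalA_data {p₀ : I} {r : Bool} (h1 : BXP p₀ r) (h2 : BXP (σ p₀) (!r)) :
    ∃ ε > (0 : ℝ), ∃ c > (0 : ℝ), ∃ κ > (0 : ℝ), ∃ e > (0 : ℝ), c ≤ 1 ∧ e ≤ 1 ∧
      (∀ p : I, p₀ ≤ p → ∀ m : ℕ, 1 ≤ m →
        1 - ε ≤ PT p r {η | HC η m (25 * m) (-m) (4 * m)} → c * ab p r 0 m ≤ thT p r) ∧
      (∀ p : I, p₀ ≤ p → ∀ m : ℕ, 1 ≤ m →
        ¬ (1 - ε ≤ PT p r {η | HC η m (25 * m) (-m) (4 * m)}) →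
        κ * ((p : ℝ) - p₀) ≤ ab p r 0 m * ab (σ p₀) (!r) 0 m) ∧
      (∀ p : I, p₀ ≤ p → ∀ m : ℕ, 1 ≤ m → e * ab p r 0 m ≤ ab p r 0 (m + 1)) ∧
      (∀ p : I, p₀ ≤ p → e ≤ ab p r 0 1) := by
  obtain ⟨ε, hε, c, hc, H1⟩ := fs_strong h1
  obtain ⟨C₁, hC₁, H2⟩ := av_le h1
  obtain ⟨C₂, hC₂, H3⟩ := av_le h2
  obtain ⟨c₃, hc₃, H4⟩ := arm_extT h1
  obtain ⟨c₄, hc₄, H5⟩ := arm_one_lowerT h1
  obtain ⟨c₀, hc₀, H6⟩ := h1 7
  have hs : 0 < Real.sqrt (1 / 2) := by positivity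
  refine ⟨ε, hε, min c 1, by positivity, c₀ * ε / (C₁ * C₂), by positivity,
    min (c₃ * Real.sqrt (1 / 2)) (min c₄ 1), by positivity, min_le_right _ _,
    (min_le_right _ _).trans (min_le_right _ _), ?_, ?_, ?_, ?_⟩
  · intro p hp m hm h
    exact (mul_le_mul_of_nonneg_right (min_le_left _ _) ab_nonneg).trans (H1 p hp m hm h)
  · intro p hp m hm h
    push Not at h
    have hp' : (0 : ℝ) ≤ (p : ℝ) - p₀ := by
      have : (p₀ : ℝ) ≤ p := hp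
      linarith
    have g1 : c₀ ≤ PT p₀ r {η | HC η 0 (25 * m) 0 (4 * m)} := by
      refine (H6 (4 * m) (by omega)).trans (PT_mono ?_)
      intro η h
      have h' : HC η 0 (((7 : ℕ) : ℤ) * ((4 * m : ℕ) : ℤ)) 0 ((4 * m : ℕ) : ℤ) := h
      refine h'.mono le_rfl (by positivity) ?_ le_rfl ?_
      · push_cast; omega
      · push_cast; exact le_rfl
    have g2 := mainT hc₀ hp hm g1
    have g3 : c₀ * ((p : ℝ) - p₀) * ε ≤ av p r m * av (σ p₀) (!r) m := by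
      refine le_trans ?_ g2
      refine mul_le_mul_of_nonneg_left ?_ (mul_nonneg hc₀.le hp')
      linarith
    have g4 : av p r m * av (σ p₀) (!r) m ≤
        (C₁ * ab p r 0 m) * (C₂ * ab (σ p₀) (!r) 0 m) := by
      refine mul_le_mul (H2 p hp m hm) (H3 (σ p₀) le_rfl m hm) ?_
        (mul_nonneg hC₁.le ab_nonneg)
      exact div_nonneg (Finset.sum_nonneg fun k _ => na_nonneg _ _ _) (Nat.cast_nonneg m)
    rw [div_mul_eq_mul_div, div_le_iff₀ (by positivity)]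
    calc c₀ * ε * ((p : ℝ) - p₀) = c₀ * ((p : ℝ) - p₀) * ε := by ring
      _ ≤ _ := g3.trans g4
      _ = ab p r 0 m * ab (σ p₀) (!r) 0 m * (C₁ * C₂) := by ring
  · intro p hp m hm
    have g1 := H4 p hp m (m + 1) hm (by omega)
    have hm0 : (1 : ℝ) ≤ m := by exact_mod_cast hm
    have g2 : Real.sqrt (1 / 2) ≤ Real.sqrt ((m : ℝ) / ((m + 1 : ℕ) : ℝ)) := by
      apply Real.sqrt_le_sqrt
      push_cast
      rw [div_le_div_iff₀ (by norm_num) (by positivity)]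
      linarith
    refine le_trans ?_ g1
    refine mul_le_mul_of_nonneg_right ?_ ab_nonneg
    exact (min_le_left _ _).trans (mul_le_mul_of_nonneg_left g2 hc₃.le)
  · intro p hp
    exact ((min_le_right _ _).trans (min_le_left _ _)).trans (H5 p hp)

/-- General form: `p₁ = p₀ + h`, `p₂ = 1 - p₀ + h`. -/
theorem product_theta {p₀ : I} {r : Bool} (h1 : BXP p₀ r) (h2 : BXP (σ p₀) (!r)) :
    ∃ c > (0 : ℝ), ∀ p₁ p₂ : I, ∀ h : ℝ, 0 ≤ h → (p₁ : ℝ) = p₀ + h → (p₂ : ℝ) = 1 - p₀ + h →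
      c * h ≤ thT p₁ r * thT p₂ (!r) := by
  classical
  have h2' : BXP (σ (σ p₀)) (!!r) := by rw [σσ, Bool.not_not]; exact h1
  obtain ⟨ε₁, hε₁, c₁, hc₁, κ₁, hκ₁, e₁, he₁, hc₁1, he₁1, F1, F2, F3, F4⟩ := finalA_data h1 h2
  obtain ⟨ε₂, hε₂, c₂, hc₂, κ₂, hκ₂, e₂, he₂, hc₂1, he₂1, D1, D2, D3, D4⟩ := finalA_data h2 h2'
  rw [σσ, Bool.not_not] at D2
  set κ := min κ₁ κ₂ with hκ
  set e := min e₁ e₂ with he
  have hκ0 : 0 < κ := lt_min hκ₁ hκ₂
  have he0 : 0 < e := lt_min he₁ he₂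
  refine ⟨c₁ * c₂ * e ^ 2 * min κ 1, by positivity, fun p₁ p₂ h hh hp₁ hp₂ => ?_⟩
  have hle1 : p₀ ≤ p₁ := by
    change (p₀ : ℝ) ≤ p₁
    rw [hp₁]; linarith
  have hle2 : σ p₀ ≤ p₂ := by
    change (1 : ℝ) - p₀ ≤ p₂
    rw [hp₂]; linarith
  have hh1 : h ≤ 1 := by
    have := p₁.2.2
    have h0 := p₀.2.1
    linarith
  have hd2 : (p₂ : ℝ) - ((σ p₀ : I) : ℝ) = h := by
    have : ((σ p₀ : I) : ℝ) = 1 - p₀ := rfl
    rw [this, hp₂]; ring
  have hd1 : (p₁ : ℝ) - (p₀ : ℝ) = h := by rw [hp₁]; ring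
  set A : ℕ → ℝ := fun n => ab p₁ r 0 n with hA
  set B : ℕ → ℝ := fun n => ab p₂ (!r) 0 n with hB
  set A₀ : ℕ → ℝ := fun n => ab p₀ r 0 n with hA₀
  set B₀ : ℕ → ℝ := fun n => ab (σ p₀) (!r) 0 n with hB₀
  set G₁ : ℕ → Prop := fun m => 1 - ε₁ ≤ PT p₁ r {η | HC η m (25 * m) (-m) (4 * m)} with hG₁
  set G₂ : ℕ → Prop := fun m => 1 - ε₂ ≤ PT p₂ (!r) {η | HC η m (25 * m) (-m) (4 * m)} with hG₂
  have kA : Antitone A := finalA_antitone p₁ r
  have kB : Antitone B := finalA_antitone p₂ (!r)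
  have kA0 : ∀ n, 0 ≤ A n := fun n => ab_nonneg
  have kB0 : ∀ n, 0 ≤ B n := fun n => ab_nonneg
  have kA00 : ∀ n, 0 ≤ A₀ n := fun n => ab_nonneg
  have kB00 : ∀ n, 0 ≤ B₀ n := fun n => ab_nonneg
  have kAA : ∀ n, A₀ n ≤ A n := fun n => ab_mono_param r 0 n hle1
  have kBB : ∀ n, B₀ n ≤ B n := fun n => ab_mono_param (!r) 0 n hle2
  have kt₁ : 0 ≤ thT p₁ r := PT_nonneg
  have kt₂ : 0 ≤ thT p₂ (!r) := PT_nonneg
  have klA : ∀ (x : ℝ) (n₀ : ℕ), (∀ n, n₀ ≤ n → x ≤ A n) → x ≤ thT p₁ r :=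
    fun x n₀ hx => le_thT hx
  have klB : ∀ (x : ℝ) (n₀ : ℕ), (∀ n, n₀ ≤ n → x ≤ B n) → x ≤ thT p₂ (!r) :=
    fun x n₀ hx => le_thT hx
  have kF1 : ∀ m, 1 ≤ m → ¬ G₁ m → κ * h ≤ A m * B₀ m := by
    intro m hm hn
    have := F2 p₁ hle1 m hm hn
    rw [hd1] at this
    exact (mul_le_mul_of_nonneg_right (min_le_left _ _) hh).trans this
  have kF2 : ∀ m, 1 ≤ m → ¬ G₂ m → κ * h ≤ B m * A₀ m := by
    intro m hm hn
    have := D2 p₂ hle2 m hm hn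
    rw [hd2] at this
    exact (mul_le_mul_of_nonneg_right (min_le_right _ _) hh).trans this
  have kxA : ∀ m, 1 ≤ m → e * A m ≤ A (m + 1) := fun m hm =>
    (mul_le_mul_of_nonneg_right (min_le_left _ _) (kA0 m)).trans (F3 p₁ hle1 m hm)
  have kxB : ∀ m, 1 ≤ m → e * B m ≤ B (m + 1) := fun m hm =>
    (mul_le_mul_of_nonneg_right (min_le_right _ _) (kB0 m)).trans (D3 p₂ hle2 m hm)
  have kA1 : e ≤ A 1 := (min_le_left _ _).trans (F4 p₁ hle1)
  have kB1 : e ≤ B 1 := (min_le_right _ _).trans (D4 p₂ hle2)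
  have ke1 : e ≤ 1 := (min_le_left _ _).trans he₁1
  by_cases hex1 : ∃ m, 1 ≤ m ∧ G₁ m
  · by_cases hex2 : ∃ m, 1 ≤ m ∧ G₂ m
    · obtain ⟨a1, a2⟩ := Nat.find_spec hex1
      obtain ⟨b1, b2⟩ := Nat.find_spec hex2
      rcases le_total (Nat.find hex2) (Nat.find hex1) with hle | hle
      · exact finalA_core kB kA0 kB00 kBB kt₁ kt₂ klA hh hh1 hκ0 he0 ke1 hc₁ hc₂ hc₁1
          (fun m hm hG => F1 p₁ hle1 m hm hG) (fun m hm hG => D1 p₂ hle2 m hm hG) kF1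
          kxA kxB kA1 kB1 b1 b2
          (fun m hm hlt hG => Nat.find_min hex1 (lt_of_lt_of_le hlt hle) ⟨hm, hG⟩)
      · have := finalA_core kA kB0 kA00 kAA kt₂ kt₁ klB hh hh1 hκ0 he0 ke1 hc₂ hc₁
          hc₂1 (fun m hm hG => D1 p₂ hle2 m hm hG) (fun m hm hG => F1 p₁ hle1 m hm hG) kF2
          kxB kxA kB1 kA1 a1 a2
          (fun m hm hlt hG => Nat.find_min hex2 (lt_of_lt_of_le hlt hle) ⟨hm, hG⟩)
        rw [mul_comm (thT p₁ r)]
        refine le_trans (le_of_eq ?_) this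
        ring
    · push Not at hex2
      obtain ⟨a1, a2⟩ := Nat.find_spec hex1
      have := finalA_core kA kB0 kA00 kAA kt₂ kt₁ klB hh hh1 hκ0 he0 ke1 hc₂ hc₁
        hc₂1 (fun m hm hG => D1 p₂ hle2 m hm hG) (fun m hm hG => F1 p₁ hle1 m hm hG) kF2
        kxB kxA kB1 kA1 a1 a2 (fun m hm _ hG => hex2 m hm hG)
      rw [mul_comm (thT p₁ r)]
      refine le_trans (le_of_eq ?_) this
      ring
  · push Not at hex1
    by_cases hex2 : ∃ m, 1 ≤ m ∧ G₂ m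
    · obtain ⟨b1, b2⟩ := Nat.find_spec hex2
      exact finalA_core kB kA0 kB00 kBB kt₁ kt₂ klA hh hh1 hκ0 he0 ke1 hc₁ hc₂ hc₁1
        (fun m hm hG => F1 p₁ hle1 m hm hG) (fun m hm hG => D1 p₂ hle2 m hm hG) kF1
        kxA kxB kA1 kB1 b1 b2 (fun m hm _ hG => hex1 m hm hG)
    · push Not at hex2
      rcases hh.eq_or_lt with h0 | hpos
      · rw [← h0, mul_zero]; exact mul_nonneg kt₁ kt₂
      have hb : ∀ n k, 1 ≤ n → 1 ≤ k → κ * h ≤ A n * B k := by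
        intro n k hn hk
        have b1 := kF1 (max n k) (hn.trans (le_max_left _ _)) (hex1 _ (hn.trans (le_max_left _ _)))
        have b2 : A (max n k) * B₀ (max n k) ≤ A n * B k :=
          mul_le_mul (kA (le_max_left _ _)) ((kBB _).trans (kB (le_max_right _ _))) (kB00 _)
            (kA0 _)
        exact b1.trans b2
      have hκh : 0 < κ * h := by positivity
      have hBpos : ∀ k, 1 ≤ k → 0 < B k := by
        intro k hk
        rcases (kB0 k).eq_or_lt with h0 | h0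
        · have := hb 1 k le_rfl hk
          rw [← h0, mul_zero] at this
          linarith
        · exact h0
      have h3 : ∀ k, 1 ≤ k → κ * h / B k ≤ thT p₁ r := by
        intro k hk
        refine klA _ 1 fun n hn => ?_
        rw [div_le_iff₀ (hBpos k hk)]
        exact hb n k hn hk
      have ht₁' : 0 < thT p₁ r := lt_of_lt_of_le (by have := hBpos 1 le_rfl; positivity) (h3 1 le_rfl)
      have h4 : κ * h / thT p₁ r ≤ thT p₂ (!r) := by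
        refine klB _ 1 fun k hk => ?_
        rw [div_le_iff₀ ht₁', mul_comm (B k)]
        have := h3 k hk
        rwa [div_le_iff₀ (hBpos k hk)] at this
      rw [div_le_iff₀ ht₁', mul_comm (thT p₂ (!r))] at h4
      refine le_trans (mul_le_mul_of_nonneg_right ?_ hh) h4
      have h5 : c₁ * c₂ * e ^ 2 ≤ 1 := by
        have : e ^ 2 ≤ 1 := pow_le_one₀ he0.le ke1
        have h6 : c₁ * c₂ ≤ 1 := by nlinarith
        have h7 : 0 ≤ c₁ * c₂ := by positivity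
        nlinarith
      calc c₁ * c₂ * e ^ 2 * min κ 1 ≤ 1 * min κ 1 :=
            mul_le_mul_of_nonneg_right h5 (le_min hκ0.le zero_le_one)
        _ ≤ κ := by rw [one_mul]; exact min_le_left _ _

theorem product_theta_pc : ∃ c > (0 : ℝ), ∀ p₁ p₂ : I, ∀ h : ℝ, 0 ≤ h →
    (p₁ : ℝ) = pc + h → (p₂ : ℝ) = 1 - pc + h → c * h ≤ thT p₁ false * thT p₂ true := by
  obtain ⟨c, hc, H⟩ := product_theta bxp_pc.1 bxp_pc.2
  exact ⟨c, hc, H⟩

end Pool.Agent.H83.Site
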