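import Pool.Agent.H83.Site.TProb
import Pool.Agent.Perc.BK

/-! # Lower bound for arm probabilities by the van den Berg-Kesten inequality -/

set_option autoImplicit false

open MeasureTheory ProbabilityTheory unitInterval

namespace Pool.Agent.H83.Site

open Pool.Agent.H89.Perc

/-! ### Disjoint occurrence -/

/-- Disjoint occurrence of two events. -/
def ablower_two (r : Bool) (A B : Set Config) : Set Config :=
  {ω | ∃ ω₁ ω₂ : Config, (∀ e, ω₁ e = true → ω e = true) ∧ (∀ e, ω₂ e = true → ω e = true) ∧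
    (∀ e, ω₁ e = true → ω₂ e = false) ∧ full r ω₁ ∈ A ∧ full r ω₂ ∈ B}

/-- Restriction of a configuration to a finite set. -/
def ablower_res (F : Finset Edge) (ω : Config) : Config := fun e => ω e && decide (e ∈ F)

theorem ablower_res_true {F : Finset Edge} {ω : Config} {e : Edge} :
    ablower_res F ω e = true ↔ ω e = true ∧ e ∈ F := by
  simp [ablower_res]

theorem ablower_res_mem {r : Bool} {F : Finset Edge} {A : Set Config} (hA : LocalOn F A)
    {ω : Config} (h : full r ω ∈ A) : full r (ablower_res F ω) ∈ A := by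
  refine hA _ _ (fun e he => ?_) h
  simp only [full, ablower_res, he, decide_true, Bool.and_true]

theorem ablower_localOn_two {r : Bool} {F : Finset Edge} {A B : Set Config} (hA : LocalOn F A)
    (hB : LocalOn F B) : LocalOn F (ablower_two r A B) := by
  rintro ω ω' h ⟨ω₁, ω₂, h1, h2, h3, h4, h5⟩
  refine ⟨ablower_res F ω₁, ablower_res F ω₂, ?_, ?_, ?_, ablower_res_mem hA h4,
    ablower_res_mem hB h5⟩
  · intro e he
    rw [ablower_res_true] at he
    rw [← h e he.2]
    exact h1 e he.1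
  · intro e he
    rw [ablower_res_true] at he
    rw [← h e he.2]
    exact h2 e he.1
  · intro e he
    rw [ablower_res_true] at he
    rw [ablower_res, h3 e he.1, Bool.false_and]

theorem ablower_Pr_two (p : I) {r : Bool} {F : Finset Edge} {A B : Set Config}
    (hA : LocalOn F A) (hB : LocalOn F B) (iA : Incr A) (iB : Incr B) :
    Pr p (ablower_two r A B) ≤ PT p r A * PT p r B := by
  classical
  have hupA : Pool.Agent.Perc.UpOn F (fun S => ofS S ∈ {ω | full r ω ∈ A}) :=
    fun S T hST _ h => incr_full r iA _ _ (ofS_mono hST) h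
  have hupB : Pool.Agent.Perc.UpOn F (fun S => ofS S ∈ {ω | full r ω ∈ B}) :=
    fun S T hST _ h => incr_full r iB _ _ (ofS_mono hST) h
  have key := Pool.Agent.Perc.bk (p := (p : ℝ)) (F := F) p.2.1 p.2.2 hupA hupB
  unfold PT
  rw [Pr_eq_Ex (ablower_localOn_two hA hB), Pr_eq_Ex (localOn_full r hA),
    Pr_eq_Ex (localOn_full r hB)]
  refine le_trans ?_ key
  unfold Pool.Agent.Perc.Pr
  refine Pool.Agent.Perc.Ex_mono p.2.1 p.2.2 fun S _ => Pool.Agent.Perc.ind_le_ind ?_
  rintro ⟨ω₁, ω₂, h1, h2, h3, h4, h5⟩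
  have hof : ∀ ω' : Config, (∀ e, ω' e = true → ofS S e = true) →
      ofS (S.filter fun e => ω' e = true) = ω' := by
    intro ω' h
    funext e
    rw [Bool.eq_iff_iff, ofS_eq_true, Finset.mem_filter]
    exact ⟨fun h' => h'.2, fun h' => ⟨ofS_eq_true.1 (h e h'), h'⟩⟩
  refine ⟨S.filter fun e => ω₁ e = true, S.filter fun e => ω₂ e = true,
    Finset.filter_subset _ _, Finset.filter_subset _ _, ?_, ?_, ?_⟩
  · rw [Finset.disjoint_left]
    intro e he he'
    have h6 := h3 e (Finset.mem_filter.1 he).2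
    rw [(Finset.mem_filter.1 he').2] at h6
    exact absurd h6 (by decide)
  · rw [hof ω₁ h1]
    exact h4
  · rw [hof ω₂ h2]
    exact h5

/-! ### Splitting of a self-avoiding path -/

/-- The graph of the steps between open vertices of `S`. -/
def ablower_graph (η : Config) (S : Set TV) : SimpleGraph TV :=
  SimpleGraph.fromRel (TStep η S)

theorem ablower_adj {η : Config} {S : Set TV} {a b : TV} :
    (ablower_graph η S).Adj a b ↔ a ≠ b ∧ TStep η S a b := by
  rw [ablower_graph, SimpleGraph.fromRel_adj]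
  constructor
  · rintro ⟨h1, h2 | h2⟩
    · exact ⟨h1, h2⟩
    · exact ⟨h1, h2.symm⟩
  · rintro ⟨h1, h2⟩
    exact ⟨h1, Or.inl h2⟩

theorem ablower_walk {η : Config} {S : Set TV} {u v : TV} (h : TConn η S u v) :
    ∃ P : (ablower_graph η S).Walk u v, P.IsPath := by
  classical
  have h1 : (ablower_graph η S).Reachable u v := by
    obtain ⟨_, _, h2⟩ := h
    induction h2 with
    | refl => exact SimpleGraph.Reachable.refl _
    | @tail b c _ hbc ih =>
      by_cases hbc' : b = c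
      · rw [← hbc']; exact ih
      · exact ih.trans (SimpleGraph.Adj.reachable (ablower_adj.2 ⟨hbc', hbc⟩))
  obtain ⟨w⟩ := h1
  exact ⟨w.bypass, w.bypass_isPath⟩

theorem ablower_tconn {η : Config} {S : Set TV} {a b : TV} (Q : (ablower_graph η S).Walk a b)
    (ho : η a = true) :
    (∀ x ∈ Q.support, η x = true) ∧
      ∀ T : Set TV, (∀ x ∈ Q.support, x ∈ T) → TConn η T a b := by
  induction Q with
  | nil =>
    refine ⟨fun x hx => ?_, fun T hT => TConn.refl (hT _ (by simp)) ho⟩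
    rw [SimpleGraph.Walk.support_nil, List.mem_singleton] at hx
    rw [hx]; exact ho
  | @cons a c b h q ih =>
    have h1 := (ablower_adj.1 h).2
    obtain ⟨ih1, ih2⟩ := ih h1.2.2.2.2
    refine ⟨fun x hx => ?_, fun T hT => ?_⟩
    · rw [SimpleGraph.Walk.support_cons, List.mem_cons] at hx
      rcases hx with hx | hx
      · rw [hx]; exact ho
      · exact ih1 x hx
    · have hc : c ∈ T := hT c (by
        rw [SimpleGraph.Walk.support_cons]
        exact List.mem_cons_of_mem _ q.start_mem_support)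
      have ha : a ∈ T := hT a (by
        rw [SimpleGraph.Walk.support_cons]
        exact List.mem_cons_self)
      have h2 : TStep η T a c := ⟨ha, hc, h1.2.2⟩
      exact h2.conn.trans (ih2 T fun x hx => hT x (by
        rw [SimpleGraph.Walk.support_cons]
        exact List.mem_cons_of_mem _ hx))

/-- A horizontal crossing of a `2 : 1` rectangle contains two disjoint paths from two vertices
next to each other to the left and right sides. -/
theorem ablower_split {η : Config} {m : ℤ} (hm : 1 ≤ m) (h : HC η 0 (2 * m) 0 m) :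
    ∃ (y : ℤ) (S T : Set TV) (u v : TV) (a b : ℤ), 0 ≤ y ∧ y ≤ m ∧ -1 ≤ a ∧ a ≤ 1 ∧ -1 ≤ b ∧
      b ≤ 1 ∧ (∀ x ∈ S, x ∉ T) ∧ (∀ x ∈ S, η x = true) ∧ (∀ x ∈ T, η x = true) ∧
      TConn η S (m, y, false) u ∧ fx u = 0 ∧ TConn η T (m + a, y + b, false) v ∧
      fx v = 4 * m := by
  classical
  obtain ⟨y₁, y₂, hc⟩ := h
  obtain ⟨P, hP⟩ := ablower_walk hc
  obtain ⟨hPo, hPc⟩ := ablower_tconn P hc.open_left
  have h1 := hPc {x | x ∈ P.support ∧ x ∈ TR 0 (2 * m) 0 m} (by
    intro x hx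
    refine ⟨hx, ?_⟩
    have h2 : ∀ {a b : TV} (Q : (ablower_graph η (TR 0 (2 * m) 0 m)).Walk a b),
        a ∈ TR 0 (2 * m) 0 m → ∀ x ∈ Q.support, x ∈ TR 0 (2 * m) 0 m := by
      intro a b Q
      induction Q with
      | nil =>
        intro ha x hx
        rw [SimpleGraph.Walk.support_nil, List.mem_singleton] at hx
        rw [hx]; exact ha
      | @cons a c b h q ih =>
        intro ha x hx
        rw [SimpleGraph.Walk.support_cons, List.mem_cons] at hx
        rcases hx with hx | hx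
        · rw [hx]; exact ha
        · exact ih (ablower_adj.1 h).2.2.1 x hx
    exact h2 P hc.mem_left x hx)
  obtain ⟨y, y', h2, -, -⟩ := h1.cross_x (a := m) (b := m) (by simp only [fx_site]; omega)
    (by simp only [fx_site]; omega) le_rfl
  have hz := h2.mem_left.1
  have hzP : ((m, y, false) : TV) ∈ P.support := hz.1
  have hzR := mem_TR_site.1 hz.2
  obtain ⟨P1, hP1⟩ : ∃ P1, P1 = P.takeUntil _ hzP := ⟨_, rfl⟩
  obtain ⟨P2, hP2⟩ : ∃ P2, P2 = P.dropUntil _ hzP := ⟨_, rfl⟩
  have hspec : P1.append P2 = P := by rw [hP1, hP2]; exact P.take_spec hzP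
  have hnd : (P1.append P2).support.Nodup := by rw [hspec]; exact hP.support_nodup
  rw [SimpleGraph.Walk.support_append] at hnd
  have hdj := List.disjoint_of_nodup_append hnd
  obtain ⟨hP1o, hP1c⟩ := ablower_tconn P1 hc.open_left
  obtain ⟨w, hadj, q, rfl⟩ := SimpleGraph.Walk.exists_eq_cons_of_ne (by
    intro h3
    have h4 := congrArg Prod.fst h3
    simp only at h4
    omega) P2
  rw [SimpleGraph.Walk.support_cons, List.tail_cons] at hdj
  have hst := (ablower_adj.1 hadj).2
  obtain ⟨hqo, hqc⟩ := ablower_tconn q hst.2.2.2.2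
  have hdj' : ∀ x ∈ {x | x ∈ P1.support}, x ∉ {x | x ∈ q.support} := fun x h3 h4 => hdj h3 h4
  have hw1 : TConn η {x | x ∈ q.support} w (2 * m, y₂, false) := hqc _ fun x hx => hx
  have hTA := hst.2.2.1
  refine ⟨y, {x | x ∈ P1.support}, {x | x ∈ q.support}, (0, y₁, false), (2 * m, y₂, false), ?_⟩
  have hcom : (0 ≤ y ∧ y ≤ m) ∧ (∀ x ∈ {x | x ∈ P1.support}, x ∉ {x | x ∈ q.support}) ∧
      (∀ x ∈ {x | x ∈ P1.support}, η x = true) ∧ (∀ x ∈ {x | x ∈ q.support}, η x = true) ∧
      TConn η {x | x ∈ P1.support} (m, y, false) (0, y₁, false) :=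
    ⟨⟨hzR.2.2.1, hzR.2.2.2⟩, hdj', hP1o, hqo, (hP1c _ fun x hx => hx).symm⟩
  obtain ⟨⟨c1, c2⟩, c3, c4, c5, c6⟩ := hcom
  suffices hsuff : ∃ w' : TV, w'.2.2 = false ∧ -1 ≤ w'.1 - m ∧ w'.1 - m ≤ 1 ∧
      -1 ≤ w'.2.1 - y ∧ w'.2.1 - y ≤ 1 ∧
      TConn η {x | x ∈ q.support} w' (2 * m, y₂, false) by
    obtain ⟨w', d1, d2, d3, d4, d5, d6⟩ := hsuff
    refine ⟨w'.1 - m, w'.2.1 - y, c1, c2, d2, d3, d4, d5, c3, c4, c5, c6, by simp, ?_,
      by simp only [fx_site]; ring⟩
    have : ((m + (w'.1 - m), y + (w'.2.1 - y), false) : TV) = w' := by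
      ext
      · simp
      · simp
      · simp [d1]
    rw [this]
    exact d6
  unfold TAdj at hTA
  simp only [Bool.false_eq_true, false_and, or_false, true_and] at hTA
  by_cases hwc : w.2.2 = false
  · refine ⟨w, hwc, ?_, ?_, ?_, ?_, hw1⟩ <;>
      rcases hTA with ⟨_, h3⟩ | ⟨h3, _⟩
    all_goals first
      | (rw [hwc] at h3; exact absurd h3 (by decide))
      | omega
  · have hwt : w.2.2 = true := by simpa using hwc
    obtain ⟨e1, e2, e3⟩ := hw1
    rcases Relation.ReflTransGen.cases_head e3 with h3 | ⟨w', h3, h4⟩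
    · rw [h3] at hwc
      exact absurd rfl hwc
    · have hTA' := h3.2.2.1
      refine ⟨w', ?_, ?_, ?_, ?_, ?_, ⟨h3.2.1, h3.2.2.2.2, h4⟩⟩
      · unfold TAdj at hTA'
        rcases hTA' with ⟨h5, _⟩ | ⟨h5, _⟩ | ⟨_, h5, _⟩
        · exact absurd h5 hwc
        · exact absurd h5 hwc
        · exact h5
      all_goals
        unfold TAdj at hTA'
        rcases hTA' with ⟨h5, _⟩ | ⟨h5, _⟩ | ⟨_, h5, h6, h7⟩
        · exact absurd h5 hwc
        · exact absurd h5 hwc
        · rcases hTA with ⟨h8, _⟩ | ⟨_, h8, h9⟩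
          · exact absurd h8 hwc
          · omega

/-! ### The configuration of the sites of a set -/

open Classical in
/-- The configuration in which exactly the sites of `S` are open. -/
noncomputable def ablower_cfg (S : Set TV) : Config := fun e => !e.2.2 && decide (e ∈ S)

theorem ablower_cfg_true {S : Set TV} {e : TV} :
    ablower_cfg S e = true ↔ e.2.2 = false ∧ e ∈ S := by
  simp [ablower_cfg]

theorem ablower_conn {r : Bool} {ω : Config} {S : Set TV} {u v : TV}
    (h : TConn (full r ω) S u v) : TConn (full r (ablower_cfg S)) S u v := by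
  refine h.mono le_rfl fun x hx ho => ?_
  simp only [full] at ho ⊢
  split
  · rename_i h1
    rw [if_pos h1] at ho
    exact ho
  · rename_i h1
    exact ablower_cfg_true.2 ⟨by simpa using h1, hx⟩

theorem ablower_le {r : Bool} {ω : Config} {S : Set TV} (h : ∀ x ∈ S, full r ω x = true) :
    ∀ e, ablower_cfg S e = true → ω e = true := by
  intro e he
  rw [ablower_cfg_true] at he
  have := h e he.2
  simp only [full] at this
  rw [if_neg (by rw [he.1]; decide)] at this
  exact this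

theorem ablower_disj {S T : Set TV} (h : ∀ x ∈ S, x ∉ T) :
    ∀ e, ablower_cfg S e = true → ablower_cfg T e = false := by
  intro e he
  rw [ablower_cfg_true] at he
  rw [← Bool.not_eq_true, ablower_cfg_true]
  exact fun h1 => h e he.2 h1.2

theorem ab_lower {c : ℝ} (hc : 0 < c) : ∃ c' > (0 : ℝ), ∀ (p₀ : I) (r : Bool),
    (∀ m : ℕ, 1 ≤ m → c ≤ PT p₀ r {η | HC η 0 ((2 : ℕ) * m) 0 m}) →
    ∀ p : I, p₀ ≤ p → ∀ s n : ℕ, s ≤ n → 1 ≤ n →
      c' * Real.sqrt (((s : ℝ) + 1) / n) ≤ ab p r s n := by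
  refine ⟨Real.sqrt (c / 45), by positivity, fun p₀ r hHC p hp s n hs hn => ?_⟩
  refine le_trans ?_ (ab_mono_param r s n hp)
  set P := ab p₀ r s n with hP
  have hP0 : 0 ≤ P := ab_nonneg
  set M : ℤ := 2 * s + 1 with hM
  set N : ℤ := (n + 1 + s) / M with hN
  have hMpos : 0 < M := by omega
  have hN0 : 0 ≤ N := Int.ediv_nonneg (by omega) hMpos.le
  let G : Finset (ℤ × ℤ × ℤ) := Finset.Icc 0 N ×ˢ Finset.Icc (-1) 1 ×ˢ Finset.Icc (-1) 1
  let Ev : ℤ × ℤ × ℤ → Set Config := fun i =>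
    ablower_two r (AB (n + 1) (M * i.1) s n) (AB (n + 1 + i.2.1) (M * i.1 + i.2.2) s n)
  have hsub : {ω : Config | full r ω ∈ {η | HC η 0 ((2 : ℕ) * ((n + 1 : ℕ) : ℤ)) 0 ((n + 1 : ℕ) : ℤ)}} ⊆
      ⋃ i ∈ G, Ev i := by
    intro ω hω
    have hω' : HC (full r ω) 0 (2 * (n + 1 : ℤ)) 0 (n + 1 : ℤ) := by
      have h := hω
      simp only [Set.mem_ofPred_eq] at h
      push_cast at h
      exact h
    obtain ⟨y, S, T, u, v, a, b, h1, h2, h3, h4, h5, h6, h7, h8, h9, h10, h11, h12, h13⟩ :=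
      ablower_split (by omega) hω'
    set i : ℤ := (y + s) / M with hi
    have hi1 : M * i ≤ y + s := Int.mul_ediv_self_le hMpos.ne'
    have hi2 : y + s < M * i + M := by
      have := Int.lt_mul_ediv_self_add (x := y + s) hMpos
      exact this
    have hiN : ((i, a, b) : ℤ × ℤ × ℤ) ∈ G := by
      simp only [G, Finset.mem_product, Finset.mem_Icc]
      refine ⟨⟨Int.ediv_nonneg (by omega) hMpos.le, ?_⟩, ⟨h3, h4⟩, ⟨h5, h6⟩⟩
      rw [hi, hN]
      exact Int.ediv_le_ediv hMpos (by omega)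
    refine Set.mem_biUnion hiN ?_
    refine ⟨ablower_cfg S, ablower_cfg T, ablower_le h8, ablower_le h9, ablower_disj h7, ?_, ?_⟩
    · refine (ablower_conn h10).mem_AB hs ?_ (Or.inl (by rw [h11]; omega))
      rw [mem_TR_site]
      simp only
      omega
    · refine (ablower_conn h12).mem_AB hs ?_ (Or.inr (Or.inl (by
        rw [h13]
        simp only
        omega)))
      rw [mem_TR_site]
      simp only
      omega
  have hEv : ∀ i, Pr p₀ (Ev i) ≤ P ^ 2 := by
    intro i
    have h1 := ablower_Pr_two p₀ (r := r)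
      ((localOn_AB (n + 1) (M * i.1) s n).mono (Finset.subset_union_left
        (s₂ := eRect (n + 1 + i.2.1 - n) (n + 1 + i.2.1 + n) (M * i.1 + i.2.2 - n)
          (M * i.1 + i.2.2 + n))))
      ((localOn_AB (n + 1 + i.2.1) (M * i.1 + i.2.2) s n).mono Finset.subset_union_right)
      (incr_AB _ _ _ _) (incr_AB _ _ _ _)
    rw [PT_AB, PT_AB] at h1
    rw [sq]
    exact h1
  have hcard : (G.card : ℝ) = 9 * (N + 1) := by
    have h1 : G.card = (N + 1).toNat * (3 * 3) := by
      simp only [G, Finset.card_product, Int.card_Icc]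
      have e1 : (N + 1 - 0).toNat = (N + 1).toNat := by rw [sub_zero]
      rw [e1]
      rfl
    have h2 : ((N + 1).toNat : ℤ) = N + 1 := Int.toNat_of_nonneg (by omega)
    have h3 : (((N + 1).toNat : ℕ) : ℝ) = (N : ℝ) + 1 := by exact_mod_cast h2
    rw [h1]
    push_cast
    rw [h3]
    ring
  have hfin : c ≤ 9 * ((N : ℝ) + 1) * P ^ 2 := by
    calc c ≤ _ := hHC (n + 1) (by omega)
      _ ≤ Pr p₀ (⋃ i ∈ G, Ev i) := Pr_mono hsub
      _ ≤ ∑ i ∈ G, Pr p₀ (Ev i) := Pr_biUnion_le _ _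
      _ ≤ ∑ _i ∈ G, P ^ 2 := Finset.sum_le_sum (fun i _ => hEv i)
      _ = 9 * ((N : ℝ) + 1) * P ^ 2 := by
        rw [Finset.sum_const, nsmul_eq_mul, hcard]
  have hn' : (1 : ℝ) ≤ n := by exact_mod_cast hn
  have hs' : (s : ℝ) ≤ n := by exact_mod_cast hs
  have hs0 : (0 : ℝ) ≤ s := Nat.cast_nonneg s
  have hNb : ((N : ℝ) + 1) * (s + 1) ≤ 5 * n := by
    have h5 : M * N ≤ n + 1 + s := Int.mul_ediv_self_le hMpos.ne'
    have h6 : ((M : ℝ)) * N ≤ n + 1 + s := by exact_mod_cast h5
    have hN0' : (0 : ℝ) ≤ N := by exact_mod_cast hN0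
    have h7 : (M : ℝ) = 2 * s + 1 := by rw [hM]; push_cast; ring
    rw [h7] at h6
    nlinarith [mul_nonneg hs0 hN0']
  have hkey : c / 45 * ((s + 1) / (n : ℝ)) ≤ P ^ 2 := by
    have hnpos : (0 : ℝ) < n := by linarith
    have h1 : c * (s + 1) ≤ 45 * n * P ^ 2 := by
      calc c * (s + 1) ≤ 9 * ((N : ℝ) + 1) * P ^ 2 * (s + 1) :=
            mul_le_mul_of_nonneg_right hfin (by linarith)
        _ = 9 * (((N : ℝ) + 1) * (s + 1)) * P ^ 2 := by ring
        _ ≤ 9 * (5 * n) * P ^ 2 := by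
            refine mul_le_mul_of_nonneg_right ?_ (sq_nonneg P)
            exact mul_le_mul_of_nonneg_left hNb (by norm_num)
        _ = 45 * n * P ^ 2 := by ring
    rw [← mul_div_assoc, div_le_iff₀ hnpos]
    linarith
  rw [← Real.sqrt_mul (by positivity)]
  exact Real.sqrt_le_iff.2 ⟨hP0, hkey⟩

end Pool.Agent.H83.Site
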