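import Pool.Agent.H83.Site.ABLower
import Pool.Agent.H83.Site.Circ
import Pool.Agent.H83.Site.Crit

/-! # Extension of arms, averages -/

set_option autoImplicit false

open MeasureTheory ProbabilityTheory unitInterval

namespace Pool.Agent.H83.Site

open Pool.Agent.H89.Perc

/-- One-arm probabilities from the neighbourhood of a vertex; `1` at distance `0`. -/
noncomputable def na (p : I) (r : Bool) (k : ℕ) : ℝ := if k = 0 then 1 else ab p r 1 k

/-- Averages of the one-arm probabilities. -/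
noncomputable def av (p : I) (r : Bool) (m : ℕ) : ℝ := (∑ k ∈ Finset.range m, na p r k) / m

theorem na_antitone (p : I) (r : Bool) : Antitone (na p r) := by
  intro a b hab
  unfold na
  by_cases ha : a = 0
  · rw [if_pos ha]
    split
    · exact le_rfl
    · exact ab_le_one
  · have hb : b ≠ 0 := by omega
    rw [if_neg ha, if_neg hb]
    exact ab_mono le_rfl hab (by omega)

theorem na_nonneg (p : I) (r : Bool) (k : ℕ) : 0 ≤ na p r k := by
  unfold na
  split
  · exact zero_le_one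
  · exact ab_nonneg

theorem na_mono_param {p q : I} (r : Bool) (h : p ≤ q) (k : ℕ) : na p r k ≤ na q r k := by
  unfold na
  split
  · exact le_rfl
  · exact ab_mono_param r 1 k h

/-! ### Open sites -/

/-- The site `e` is open. -/
private def opn (e : TV) : Set Config := {η | η e = true}

private theorem armT_opn_local (e : TV) : LocalOn {e} (opn e) := by
  intro ω ω' h hE
  simp only [opn, Set.mem_ofPred_eq] at hE ⊢
  rw [← h e (Finset.mem_singleton_self e)]
  exact hE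

private theorem armT_opn_incr (e : TV) : Incr (opn e) := fun _ _ h hE => h e hE

private theorem armT_PT_opn (p : I) (r : Bool) (x y : ℤ) :
    PT p r (opn (x, y, false)) = p := by
  have h1 : {ω : Config | full r ω ∈ opn (x, y, false)} = opn (x, y, false) := by
    ext ω
    simp [opn, full]
  unfold PT
  rw [h1, Pr_eq_update (armT_opn_local (x, y, false)) (x, y, false)]
  have h2 : {ω : Config | Function.update ω (x, y, false) true ∈ opn (x, y, false)}
      = Set.univ := by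
    ext ω; simp [opn]
  have h3 : {ω : Config | Function.update ω (x, y, false) false ∈ opn (x, y, false)} = ∅ := by
    ext ω; simp [opn]
  rw [h2, h3, Pr_univ]
  simp [Pr]

/-- All sites of a finite set are open. -/
private def opnS (G : Finset (ℤ × ℤ)) : Set Config := {η | ∀ g ∈ G, η (g.1, g.2, false) = true}

private theorem armT_opnS_incr (G : Finset (ℤ × ℤ)) : Incr (opnS G) :=
  fun _ _ h hE g hg => h _ (hE g hg)

private theorem armT_opnS_local (G : Finset (ℤ × ℤ)) :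
    LocalOn (G.image fun g => ((g.1, g.2, false) : TV)) (opnS G) := by
  intro ω ω' h hE g hg
  rw [← h _ (Finset.mem_image_of_mem (fun g => ((g.1, g.2, false) : TV)) hg)]
  exact hE g hg

private theorem armT_PT_opnS (p : I) (r : Bool) (G : Finset (ℤ × ℤ)) :
    (p : ℝ) ^ G.card ≤ PT p r (opnS G) := by
  classical
  induction G using Finset.induction_on with
  | empty =>
    have : opnS ∅ = Set.univ := by
      ext η; simp [opnS]
    rw [this, PT_univ]
    simp
  | @insert g G hg ih =>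
    have h1 : opnS (insert g G) = opn (g.1, g.2, false) ∩ opnS G := by
      ext η
      simp [opnS, opn]
    rw [h1, Finset.card_insert_of_notMem hg, pow_succ']
    refine le_trans ?_ (PT_fkg (armT_opn_local _) (armT_opnS_local G) (armT_opn_incr _)
      (armT_opnS_incr G))
    rw [armT_PT_opn]
    exact mul_le_mul_of_nonneg_left ih p.2.1

/-- The box crossing property forces a positive density. -/
private theorem armT_pos {p₀ : I} {r : Bool} (h : BXP p₀ r) : 0 < (p₀ : ℝ) := by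
  obtain ⟨c, hc, H⟩ := h 1
  have h1 := H 1 le_rfl
  have h2 : {η : Config | HC η 0 (((1 : ℕ) : ℤ) * ((1 : ℕ) : ℤ)) 0 ((1 : ℕ) : ℤ)} ⊆
      opn (0, 0, false) ∪ opn (0, 1, false) := by
    rintro η ⟨y, y', hy⟩
    have h3 := hy.mem_left
    have h4 := hy.open_left
    rw [mem_TR_site] at h3
    have h5 : y = 0 ∨ y = 1 := by
      have := h3.2.2
      push_cast at this
      omega
    rcases h5 with rfl | rfl
    · exact Or.inl h4
    · exact Or.inr h4
  have h3 := h1.trans ((PT_mono h2).trans PT_union_le)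
  rw [armT_PT_opn, armT_PT_opn] at h3
  linarith

theorem arm_extT {p₀ : I} {r : Bool} (h : BXP p₀ r) : ∃ c > (0 : ℝ), ∀ p : I, p₀ ≤ p →
    ∀ m n : ℕ, 1 ≤ m → m ≤ n → c * Real.sqrt ((m : ℝ) / n) * ab p r 0 m ≤ ab p r 0 n := by
  obtain ⟨c4, hc4, H4⟩ := h 4
  obtain ⟨c2, hc2, H2⟩ := h 2
  obtain ⟨c', hc', HL⟩ := ab_lower hc2
  have HL' := HL p₀ r H2
  have hc41 : c4 ≤ 1 := (H4 1 le_rfl).trans PT_le_one
  have hc44 : c4 ^ 4 ≤ 1 := pow_le_one₀ hc4.le hc41
  refine ⟨c' * (c4 ^ 4 / 2), by positivity, fun p hp m n hm hmn => ?_⟩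
  have hn : 1 ≤ n := hm.trans hmn
  have hn0 : (0 : ℝ) < n := by exact_mod_cast hn
  have hm0 : (0 : ℝ) < m := by exact_mod_cast hm
  have hsq : 0 ≤ Real.sqrt ((m : ℝ) / n) := Real.sqrt_nonneg _
  by_cases hm1 : m = 1
  · subst hm1
    have h1 := HL' p hp 0 n (by omega) hn
    have h2 : Real.sqrt ((((0 : ℕ) : ℝ) + 1) / n) = Real.sqrt (((1 : ℕ) : ℝ) / n) := by
      norm_num
    rw [h2] at h1
    refine le_trans ?_ h1
    have h3 : ab p r 0 1 ≤ 1 := ab_le_one
    have h4 : 0 ≤ ab p r 0 1 := ab_nonneg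
    calc c' * (c4 ^ 4 / 2) * Real.sqrt (((1 : ℕ) : ℝ) / n) * ab p r 0 1
        ≤ c' * (c4 ^ 4 / 2) * Real.sqrt (((1 : ℕ) : ℝ) / n) * 1 :=
          mul_le_mul_of_nonneg_left h3 (by positivity)
      _ ≤ c' * 1 * Real.sqrt (((1 : ℕ) : ℝ) / n) * 1 := by
          refine mul_le_mul_of_nonneg_right (mul_le_mul_of_nonneg_right
            (mul_le_mul_of_nonneg_left ?_ hc'.le) hsq) zero_le_one
          linarith
      _ = c' * Real.sqrt (((1 : ℕ) : ℝ) / n) := by ring
  · have hm2 : 2 ≤ m := by omega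
    set s : ℕ := m / 2 with hs
    have hs1 : 1 ≤ s := by omega
    have h2s : 2 * s ≤ m := by omega
    have hms : m ≤ 2 * (s + 1) := by omega
    have e1 : ab p r 0 m ≤ ab p r 0 (2 * s) := ab_mono le_rfl h2s (by omega)
    have e2 : c4 ^ 4 ≤ PT p r (CircE s) := circ_prob hc4 H4 hp hs1
    have e3 : c' * Real.sqrt (((s : ℝ) + 1) / n) ≤ ab p r s n := HL' p hp s n (by omega) hn
    have e4 : Real.sqrt ((m : ℝ) / n) / 2 ≤ Real.sqrt (((s : ℝ) + 1) / n) := by
      have h1 : Real.sqrt ((m : ℝ) / n) / 2 = Real.sqrt ((m : ℝ) / n / 4) := by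
        rw [Real.sqrt_div (by positivity) (4 : ℝ)]
        congr 1
        rw [show (4 : ℝ) = 2 ^ 2 by norm_num, Real.sqrt_sq (by norm_num)]
      rw [h1]
      apply Real.sqrt_le_sqrt
      rw [div_div, div_le_div_iff₀ (by positivity) hn0]
      have : (m : ℝ) ≤ 2 * (s + 1) := by exact_mod_cast hms
      nlinarith
    have f1 : ab p r 0 (2 * s) * PT p r (CircE s) ≤ PT p r (AB 0 0 0 (2 * s) ∩ CircE s) :=
      PT_fkg (localOn_AB 0 0 0 (2 * s)) (localOn_CircE s) (incr_AB 0 0 0 (2 * s))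
        (incr_CircE s)
    have f2 : PT p r (AB 0 0 0 (2 * s) ∩ CircE s) * ab p r s n ≤
        PT p r ((AB 0 0 0 (2 * s) ∩ CircE s) ∩ AB 0 0 s n) :=
      PT_fkg ((localOn_AB 0 0 0 (2 * s)).inter' (localOn_CircE s)) (localOn_AB 0 0 s n)
        ((incr_AB 0 0 0 (2 * s)).inter (incr_CircE s)) (incr_AB 0 0 s n)
    have f3 : PT p r ((AB 0 0 0 (2 * s) ∩ CircE s) ∩ AB 0 0 s n) ≤ ab p r 0 n := by
      refine PT_mono ?_
      rintro η ⟨⟨g1, g2⟩, g3⟩
      exact arm_glue hs1 (Nat.zero_le _) (by omega) g2 g1 g3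
    have g0 : 0 ≤ ab p r 0 m := ab_nonneg
    have g1 : 0 ≤ ab p r 0 (2 * s) := ab_nonneg
    have g2 : 0 ≤ ab p r s n := ab_nonneg
    have g3 : 0 ≤ PT p r (AB 0 0 0 (2 * s) ∩ CircE s) := PT_nonneg
    calc c' * (c4 ^ 4 / 2) * Real.sqrt ((m : ℝ) / n) * ab p r 0 m
        = (ab p r 0 m * c4 ^ 4) * (c' * (Real.sqrt ((m : ℝ) / n) / 2)) := by ring
      _ ≤ (ab p r 0 (2 * s) * PT p r (CircE s)) * ab p r s n := by
          refine mul_le_mul (mul_le_mul e1 e2 (by positivity) g1) ?_ (by positivity)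
            (mul_nonneg g1 PT_nonneg)
          exact (mul_le_mul_of_nonneg_left e4 hc'.le).trans e3
      _ ≤ PT p r (AB 0 0 0 (2 * s) ∩ CircE s) * ab p r s n :=
          mul_le_mul_of_nonneg_right f1 g2
      _ ≤ _ := f2.trans f3

/-- If the nine sites around the origin are open, every open vertex of the square of half side
one is joined to the origin. -/
private theorem armT_join {η : Config} {S : Set TV} (hS : TR (-1) 1 (-1) 1 ⊆ S)
    (h9 : η ∈ opnS (Finset.Icc (-1) 1 ×ˢ Finset.Icc (-1) 1)) {u : TV}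
    (hu : u ∈ TR (-1) 1 (-1) 1) (ho : η u = true) : TConn η S (0, 0, false) u := by
  have hop : ∀ x y : ℤ, -1 ≤ x → x ≤ 1 → -1 ≤ y → y ≤ 1 → η (x, y, false) = true := by
    intro x y h1 h2 h3 h4
    exact h9 (x, y) (by simp only [Finset.mem_product, Finset.mem_Icc]; omega)
  have hin : ∀ x y : ℤ, -1 ≤ x → x ≤ 1 → -1 ≤ y → y ≤ 1 → ((x, y, false) : TV) ∈ S := by
    intro x y h1 h2 h3 h4
    exact hS (mem_TR_site.2 ⟨h1, h2, h3, h4⟩)
  have h00 : TConn η S (0, 0, false) (0, 0, false) :=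
    TConn.refl (hin 0 0 (by norm_num) (by norm_num) (by norm_num) (by norm_num))
      (hop 0 0 (by norm_num) (by norm_num) (by norm_num) (by norm_num))
  obtain ⟨x, y, b⟩ := u
  cases b
  · rw [mem_TR_site] at hu
    -- first move horizontally, then vertically
    have hx0 : TConn η S (0, 0, false) (x, 0, false) := by
      have hx : x = 0 ∨ x = 1 ∨ x = -1 := by omega
      rcases hx with rfl | hx
      · exact h00
      · refine h00.tail ⟨h00.mem_right, hin x 0 hu.1 hu.2.1 (by norm_num) (by norm_num), ?_,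
          h00.open_right, hop x 0 hu.1 hu.2.1 (by norm_num) (by norm_num)⟩
        refine Or.inl ⟨rfl, rfl, Or.inr ⟨rfl, ?_⟩⟩
        simp only
        omega
    have hy : y = 0 ∨ y = 1 ∨ y = -1 := by omega
    rcases hy with rfl | hy
    · exact hx0
    · refine hx0.tail ⟨hx0.mem_right, hS (mem_TR_site.2 hu), ?_, hx0.open_right, ho⟩
      refine Or.inl ⟨rfl, rfl, Or.inl ⟨rfl, ?_⟩⟩
      simp only
      omega
  · have hu' := hu
    rw [mem_TR_cen] at hu
    refine h00.tail ⟨h00.mem_right, hS hu', ?_, h00.open_right, ho⟩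
    refine Or.inr (Or.inl ⟨rfl, rfl, ?_, ?_⟩)
    · simp only
      omega
    · simp only
      omega

theorem ab_one_le {p₀ : I} {r : Bool} (h : BXP p₀ r) : ∃ C > (0 : ℝ), ∀ p : I, p₀ ≤ p →
    ∀ n : ℕ, 1 ≤ n → ab p r 1 n ≤ C * ab p r 0 n := by
  have h0 := armT_pos h
  refine ⟨1 / (p₀ : ℝ) ^ 9, by positivity, fun p hp n hn => ?_⟩
  set G : Finset (ℤ × ℤ) := Finset.Icc (-1) 1 ×ˢ Finset.Icc (-1) 1 with hG
  have hcard : G.card = 9 := by rw [hG]; decide
  have h1 : (p : ℝ) ^ 9 ≤ PT p r (opnS G) := by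
    have := armT_PT_opnS p r G
    rwa [hcard] at this
  have h2 : (p₀ : ℝ) ^ 9 ≤ (p : ℝ) ^ 9 := pow_le_pow_left₀ h0.le hp 9
  have h3 : ab p r 1 n * PT p r (opnS G) ≤ PT p r (AB 0 0 1 n ∩ opnS G) :=
    PT_fkg (localOn_AB 0 0 1 n) (armT_opnS_local G) (incr_AB 0 0 1 n) (armT_opnS_incr G)
  have h4 : PT p r (AB 0 0 1 n ∩ opnS G) ≤ ab p r 0 n := by
    refine PT_mono ?_
    rintro η ⟨⟨u, hu, w, hw, hc⟩, h9⟩
    have hu' : u ∈ TR (-1) 1 (-1) 1 := by
      simpa using hu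
    have hS : TR (-1) 1 (-1) 1 ⊆ TR ((0 : ℤ) - n) (0 + n) (0 - n) (0 + n) :=
      TR_mono (by omega) (by omega) (by omega) (by omega)
    refine ⟨(0, 0, false), ?_, w, hw, (armT_join hS h9 hu' hc.open_left).trans hc⟩
    rw [mem_TR_site]
    simp
  have h5 : (p₀ : ℝ) ^ 9 * ab p r 1 n ≤ ab p r 0 n := by
    refine le_trans ?_ (h3.trans h4)
    rw [mul_comm]
    exact mul_le_mul_of_nonneg_left (h2.trans h1) ab_nonneg
  rw [one_div, ← div_eq_inv_mul, le_div_iff₀ (by positivity)]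
  linarith

theorem arm_one_lowerT {p₀ : I} {r : Bool} (h : BXP p₀ r) : ∃ c > (0 : ℝ), ∀ p : I, p₀ ≤ p →
    c ≤ ab p r 0 1 := by
  obtain ⟨c2, hc2, H2⟩ := h 2
  obtain ⟨c', hc', HL⟩ := ab_lower hc2
  refine ⟨c', hc', fun p hp => ?_⟩
  have h1 := HL p₀ r H2 p hp 0 1 (by omega) le_rfl
  have h2 : Real.sqrt ((((0 : ℕ) : ℝ) + 1) / ((1 : ℕ) : ℝ)) = 1 := by norm_num
  rwa [h2, mul_one] at h1

private theorem armT_sum_inv_sqrt (n : ℕ) :
    ∑ k ∈ Finset.range n, 1 / Real.sqrt ((k : ℝ) + 1) ≤ 2 * Real.sqrt n := by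
  induction n with
  | zero => simp
  | succ n ih =>
    rw [Finset.sum_range_succ]
    have h0 : 0 ≤ Real.sqrt (n : ℝ) := Real.sqrt_nonneg _
    have h1 : 0 < Real.sqrt ((n : ℝ) + 1) := Real.sqrt_pos.2 (by positivity)
    have h2 : Real.sqrt ((n : ℝ) + 1) ^ 2 = n + 1 := Real.sq_sqrt (by positivity)
    have h3 : Real.sqrt (n : ℝ) ^ 2 = n := Real.sq_sqrt (by positivity)
    have h4 : 1 / Real.sqrt ((n : ℝ) + 1) ≤
        2 * (Real.sqrt ((n : ℝ) + 1) - Real.sqrt (n : ℝ)) := by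
      rw [div_le_iff₀ h1]
      nlinarith [sq_nonneg (Real.sqrt ((n : ℝ) + 1) - Real.sqrt (n : ℝ))]
    push_cast
    linarith

theorem av_le {p₀ : I} {r : Bool} (h : BXP p₀ r) : ∃ C > (0 : ℝ), ∀ p : I, p₀ ≤ p →
    ∀ m : ℕ, 1 ≤ m → av p r m ≤ C * ab p r 0 m := by
  obtain ⟨c, hc, H⟩ := arm_extT h
  obtain ⟨c1, hc1, H1⟩ := arm_one_lowerT h
  obtain ⟨C2, hC2, H2⟩ := ab_one_le h
  refine ⟨(1 / c1 + 2 * C2) / c, by positivity, fun p hp m hm => ?_⟩
  have hm0 : (0 : ℝ) < m := by exact_mod_cast hm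
  have hsm : 0 < Real.sqrt (m : ℝ) := Real.sqrt_pos.2 hm0
  have hsm2 : Real.sqrt (m : ℝ) ^ 2 = m := Real.sq_sqrt hm0.le
  have hsm1 : 1 ≤ Real.sqrt (m : ℝ) := by
    rw [show (1 : ℝ) = Real.sqrt 1 by simp]
    exact Real.sqrt_le_sqrt (by exact_mod_cast hm)
  -- single terms
  have hk0 : ∀ k : ℕ, 1 ≤ k → k ≤ m →
      ab p r 0 k ≤ (ab p r 0 m / c) * (Real.sqrt m * (1 / Real.sqrt k)) := by
    intro k hk hkm
    have h1 := H p hp k m hk hkm
    have hk0 : (0 : ℝ) < k := by exact_mod_cast hk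
    have hsk : 0 < Real.sqrt (k : ℝ) := Real.sqrt_pos.2 hk0
    rw [Real.sqrt_div hk0.le] at h1
    have : (ab p r 0 m / c) * (Real.sqrt m * (1 / Real.sqrt k)) =
        ab p r 0 m / (c * (Real.sqrt k / Real.sqrt m)) := by
      field_simp
    rw [this, le_div_iff₀ (by positivity)]
    linarith
  have hk : ∀ k : ℕ, 1 ≤ k → k ≤ m →
      na p r k ≤ (C2 * (ab p r 0 m / c)) * (Real.sqrt m * (1 / Real.sqrt k)) := by
    intro k hk hkm
    have h1 : na p r k = ab p r 1 k := by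
      unfold na
      rw [if_neg (by omega)]
    rw [h1, mul_assoc]
    exact (H2 p hp k hk).trans (mul_le_mul_of_nonneg_left (hk0 k hk hkm) hC2.le)
  have h0 : na p r 0 ≤ (1 / c1) * ((ab p r 0 m / c) * Real.sqrt m) := by
    have h1 := hk0 1 le_rfl hm
    simp only [Nat.cast_one, Real.sqrt_one, div_one, mul_one] at h1
    have h3 : na p r 0 = 1 := by simp [na]
    rw [h3]
    have h2 := H1 p hp
    rw [one_div, ← div_eq_inv_mul, le_div_iff₀ hc1, one_mul]
    linarith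
  have hsum : ∑ k ∈ Finset.range m, na p r k ≤ (1 / c1 + 2 * C2) * (ab p r 0 m / c) * m := by
    obtain ⟨n, rfl⟩ : ∃ n, m = n + 1 := ⟨m - 1, by omega⟩
    rw [Finset.sum_range_succ']
    have h1 : ∑ k ∈ Finset.range n, na p r (k + 1) ≤
        ∑ k ∈ Finset.range n, (C2 * (ab p r 0 (n + 1) / c)) *
          (Real.sqrt ((n + 1 : ℕ) : ℝ) * (1 / Real.sqrt ((k : ℝ) + 1))) := by
      refine Finset.sum_le_sum fun k hk' => ?_
      have := hk (k + 1) (by omega) (by have := Finset.mem_range.1 hk'; omega)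
      simpa using this
    rw [← Finset.mul_sum, ← Finset.mul_sum] at h1
    have h2 := armT_sum_inv_sqrt n
    have h3 : Real.sqrt (n : ℝ) ≤ Real.sqrt ((n + 1 : ℕ) : ℝ) :=
      Real.sqrt_le_sqrt (by push_cast; linarith)
    have ha : 0 ≤ ab p r 0 (n + 1) / c := div_nonneg ab_nonneg hc.le
    have ha2 : 0 ≤ C2 * (ab p r 0 (n + 1) / c) := mul_nonneg hC2.le ha
    set S := Real.sqrt ((n + 1 : ℕ) : ℝ) with hS
    have h4 : (C2 * (ab p r 0 (n + 1) / c)) *
        (S * ∑ k ∈ Finset.range n, 1 / Real.sqrt ((k : ℝ) + 1)) ≤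
        (C2 * (ab p r 0 (n + 1) / c)) * (2 * ((n + 1 : ℕ) : ℝ)) := by
      refine mul_le_mul_of_nonneg_left ?_ ha2
      rw [← hsm2]
      nlinarith
    have h5 : (1 / c1) * ((ab p r 0 (n + 1) / c) * S) ≤
        (1 / c1) * ((ab p r 0 (n + 1) / c) * ((n + 1 : ℕ) : ℝ)) := by
      refine mul_le_mul_of_nonneg_left (mul_le_mul_of_nonneg_left ?_ ha) (by positivity)
      rw [← hsm2]
      nlinarith
    linarith
  have hav : av p r m = (∑ k ∈ Finset.range m, na p r k) / m := rfl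
  rw [hav, div_le_iff₀ hm0]
  refine hsum.trans (le_of_eq ?_)
  ring

end Pool.Agent.H83.Site
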