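import Pool.Agent.H83.Site.Defs

/-!
# Probability of events of site percolation on the centred lattice
-/

set_option autoImplicit false

open MeasureTheory ProbabilityTheory unitInterval

namespace Pool.Agent.H83.Site

open Pool.Agent.H89.Perc

variable {p q : I} {r : Bool} {E F : Set Config} {s t : Finset Edge}

/-! ### Local and increasing events -/

theorem localOn_full (r : Bool) (h : LocalOn s E) : LocalOn s {ω | full r ω ∈ E} := by
  intro ω ω' hω hE
  refine h _ _ (fun e he => ?_) hE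
  simp only [full]
  split
  · rfl
  · exact hω e he

theorem incr_full (r : Bool) (h : Incr E) : Incr {ω | full r ω ∈ E} := by
  intro ω ω' hω hE
  refine h _ _ (fun e he => ?_) hE
  simp only [full] at he ⊢
  split
  · rename_i h1; rw [if_pos h1] at he; exact he
  · rename_i h1; rw [if_neg h1] at he; exact hω e he

theorem TR_subset_eRect {a b c d : ℤ} {v : TV} (h : v ∈ TR a b c d) : v ∈ eRect a b c d := by
  rw [mem_eRect]
  obtain ⟨x, y, t⟩ := v
  cases t
  · rw [mem_TR_site] at h; exact h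
  · rw [mem_TR_cen] at h
    exact ⟨h.1, by simp only [src]; omega, h.2.2.1, by simp only [src]; omega⟩

theorem localOn_tconn (a b c d : ℤ) (u v : TV) :
    LocalOn (eRect a b c d) {η | TConn η (TR a b c d) u v} := by
  intro η η' h hc
  exact hc.congr fun x hx => h x (TR_subset_eRect hx)

theorem incr_tconn (S : Set TV) (u v : TV) : Incr {η | TConn η S u v} :=
  fun _ _ h hc => hc.mono le_rfl fun x _ => h x

theorem localOn_HC (a b c d : ℤ) : LocalOn (eRect a b c d) {η | HC η a b c d} := by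
  rintro η η' h ⟨y, y', hc⟩
  exact ⟨y, y', localOn_tconn a b c d _ _ η η' h hc⟩

theorem localOn_VC (a b c d : ℤ) : LocalOn (eRect a b c d) {η | VC η a b c d} := by
  rintro η η' h ⟨y, y', hc⟩
  exact ⟨y, y', localOn_tconn a b c d _ _ η η' h hc⟩

theorem incr_HC (a b c d : ℤ) : Incr {η | HC η a b c d} := by
  rintro η η' h ⟨y, y', hc⟩
  exact ⟨y, y', hc.mono le_rfl fun x _ => h x⟩

theorem incr_VC (a b c d : ℤ) : Incr {η | VC η a b c d} := by
  rintro η η' h ⟨y, y', hc⟩
  exact ⟨y, y', hc.mono le_rfl fun x _ => h x⟩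

theorem localOn_AB (x y : ℤ) (k n : ℕ) :
    LocalOn (eRect (x - n) (x + n) (y - n) (y + n)) (AB x y k n) := by
  rintro η η' h ⟨u, hu, w, hw, hc⟩
  exact ⟨u, hu, w, hw, localOn_tconn _ _ _ _ _ _ η η' h hc⟩

theorem incr_AB (x y : ℤ) (k n : ℕ) : Incr (AB x y k n) := by
  rintro η η' h ⟨u, hu, w, hw, hc⟩
  exact ⟨u, hu, w, hw, hc.mono le_rfl fun x _ => h x⟩

theorem LocalOn.neg (h : LocalOn s E) : LocalOn s {η | neg η ∈ E} := by
  intro ω ω' hω hE
  exact h _ _ (fun e he => by simp only [Site.neg]; rw [hω e he]) hE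

theorem Incr.neg_compl (h : Incr E) : Incr {η | neg η ∈ E}ᶜ := by
  intro ω ω' hω hE hE'
  refine hE (h _ _ (fun e he => ?_) hE')
  simp only [neg, Bool.not_eq_true'] at he ⊢
  by_contra hc
  rw [Bool.not_eq_false] at hc
  rw [hω _ hc] at he
  exact absurd he (by decide)

theorem eRect_disjoint_x {a b c d a' b' c' d' : ℤ} (h : b < a' ∨ b' < a ∨ d < c' ∨ d' < c) :
    Disjoint (eRect a b c d) (eRect a' b' c' d') := by
  rw [Finset.disjoint_left]
  intro v h1 h2
  rw [mem_eRect] at h1 h2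
  simp only [rect, Set.mem_ofPred_eq] at h1 h2
  omega

/-! ### Elementary properties of `PT` -/

theorem PT_nonneg : 0 ≤ PT p r E := Pr_nonneg

theorem PT_le_one : PT p r E ≤ 1 := Pr_le_one

theorem PT_mono (h : E ⊆ F) : PT p r E ≤ PT p r F := Pr_mono fun _ hω => h hω

theorem PT_union_le : PT p r (E ∪ F) ≤ PT p r E + PT p r F := by
  have := Pr_union_le (p := p) (A := {ω | full r ω ∈ E}) (B := {ω | full r ω ∈ F})
  exact this

theorem PT_univ : PT p r Set.univ = 1 := by
  unfold PT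
  simp only [Set.mem_univ, Set.ofPred_true]
  exact Pr_univ

theorem PT_compl (h : LocalOn s E) : PT p r Eᶜ = 1 - PT p r E := by
  have := Pr_compl (p := p) (localOn_full r h)
  exact this

theorem PT_biUnion_le {ι : Type*} (G : Finset ι) (A : ι → Set Config) :
    PT p r (⋃ i ∈ G, A i) ≤ ∑ i ∈ G, PT p r (A i) := by
  have h := Pr_biUnion_le (p := p) G (fun i => {ω | full r ω ∈ A i})
  refine le_trans (Pr_mono ?_) h
  intro ω hω
  simpa using hω

theorem PT_fkg (hE : LocalOn s E) (hF : LocalOn t F) (iE : Incr E) (iF : Incr F) :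
    PT p r E * PT p r F ≤ PT p r (E ∩ F) := by
  have := fkg (p := p) (localOn_full r hE) (localOn_full r hF) (incr_full r iE) (incr_full r iF)
  exact this

theorem PT_fkg_decr (hE : LocalOn s E) (hF : LocalOn t F) (iE : Incr Eᶜ) (iF : Incr Fᶜ) :
    PT p r E * PT p r F ≤ PT p r (E ∩ F) := by
  have := fkg_decr (p := p) (localOn_full r hE) (localOn_full r hF) (incr_full r iE)
    (incr_full r iF)
  exact this

theorem PT_fkg_mixed (hE : LocalOn s E) (hF : LocalOn t F) (iE : Incr E) (iF : Incr Fᶜ) :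
    PT p r (E ∩ F) ≤ PT p r E * PT p r F := by
  have := fkg_mixed (p := p) (localOn_full r hE) (localOn_full r hF) (incr_full r iE)
    (incr_full r iF)
  exact this

theorem PT_indep (hE : LocalOn s E) (hF : LocalOn t F) (hst : Disjoint s t) :
    PT p r (E ∩ F) = PT p r E * PT p r F := by
  have := Pr_inter_of_disjoint (p := p) (localOn_full r hE) (localOn_full r hF) hst
  exact this

theorem PT_mono_param (hE : LocalOn s E) (iE : Incr E) (hpq : p ≤ q) : PT p r E ≤ PT q r E :=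
  Pr_mono_param (localOn_full r hE) (incr_full r iE) hpq

/-- Probabilities of local events are continuous functions of the density. -/
theorem PT_continuous (hE : LocalOn s E) (r : Bool) : Continuous (fun p : I => PT p r E) := by
  have h : ∀ p : I, PT p r E = PrR s {ω | full r ω ∈ E} (p : ℝ) := fun p =>
    Pr_eq_PrR (localOn_full r hE) p
  simp only [h]
  exact (Pool.Agent.Perc.continuous_Ex s _).comp continuous_subtype_val

/-- Relabelling of the vertices. -/
theorem PT_comp (hE : LocalOn s E) {φ : TV → TV} (hφ : Set.InjOn φ s)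
    (ht : ∀ v, (φ v).2.2 = v.2.2) : PT p r {η | (fun v => η (φ v)) ∈ E} = PT p r E := by
  unfold PT
  rw [← Pr_comp (localOn_full r hE) hφ]
  congr 1
  ext ω
  simp only [Set.mem_ofPred_eq]
  have : (fun v => full r ω (φ v)) = full r (fun e => ω (φ e)) := by
    funext v
    simp only [full, ht]
  rw [this]

/-- Relabelling of the vertices and exchange of open and closed. -/
theorem PT_comp_not (hE : LocalOn s E) {φ : TV → TV} (hφ : Set.InjOn φ s)
    (ht : ∀ v, (φ v).2.2 = v.2.2) :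
    PT p r {η | (fun v => !η (φ v)) ∈ E} = PT (σ p) (!r) E := by
  unfold PT
  rw [← Pr_comp_not (localOn_full (!r) hE) hφ]
  congr 1
  ext ω
  simp only [Set.mem_ofPred_eq]
  have : (fun v => !full r ω (φ v)) = full (!r) (fun e => !ω (φ e)) := by
    funext v
    simp only [full, ht]
    split <;> rfl
  rw [this]

theorem PT_neg (hE : LocalOn s E) : PT p r {η | neg η ∈ E} = PT (σ p) (!r) E :=
  PT_comp_not hE (φ := id) (fun _ _ _ _ h => h) (fun _ => rfl)

theorem σσ (p : I) : σ (σ p) = p := unitInterval.symm_symm p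

/-! ### Symmetries -/

/-- Translation. -/
def shf (x y : ℤ) (v : TV) : TV := (v.1 + x, v.2.1 + y, v.2.2)

/-- Reflection `x ↦ z - x`. -/
def rfx (z : ℤ) (v : TV) : TV := (z - v.1 - (if v.2.2 then 1 else 0), v.2.1, v.2.2)

/-- Reflection `y ↦ z - y`. -/
def rfy (z : ℤ) (v : TV) : TV := (v.1, z - v.2.1 - (if v.2.2 then 1 else 0), v.2.2)

/-- Reflection in the diagonal. -/
def swp (v : TV) : TV := (v.2.1, v.1, v.2.2)

theorem fx_shf (x y : ℤ) (v : TV) : fx (shf x y v) = fx v + 2 * x := by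
  obtain ⟨a, b, c⟩ := v
  cases c <;> simp [shf] <;> ring
theorem fy_shf (x y : ℤ) (v : TV) : fy (shf x y v) = fy v + 2 * y := by
  obtain ⟨a, b, c⟩ := v
  cases c <;> simp [shf] <;> ring
theorem fx_rfx (z : ℤ) (v : TV) : fx (rfx z v) = 2 * z - fx v := by
  obtain ⟨x, y, b⟩ := v
  cases b <;> simp [rfx] <;> omega
theorem fy_rfx (z : ℤ) (v : TV) : fy (rfx z v) = fy v := by
  obtain ⟨x, y, b⟩ := v
  cases b <;> simp [rfx]
theorem fx_rfy (z : ℤ) (v : TV) : fx (rfy z v) = fx v := by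
  obtain ⟨x, y, b⟩ := v
  cases b <;> simp [rfy]
theorem fy_rfy (z : ℤ) (v : TV) : fy (rfy z v) = 2 * z - fy v := by
  obtain ⟨x, y, b⟩ := v
  cases b <;> simp [rfy] <;> omega
theorem fx_swp (v : TV) : fx (swp v) = fy v := rfl
theorem fy_swp (v : TV) : fy (swp v) = fx v := rfl

theorem shf_shf (x y : ℤ) (v : TV) : shf x y (shf (-x) (-y) v) = v := by
  obtain ⟨a, b, c⟩ := v; simp [shf]
theorem shf_shf' (x y : ℤ) (v : TV) : shf (-x) (-y) (shf x y v) = v := by
  obtain ⟨a, b, c⟩ := v; simp [shf]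
theorem rfx_rfx (z : ℤ) (v : TV) : rfx z (rfx z v) = v := by
  obtain ⟨a, b, c⟩ := v
  cases c
  · simp [rfx]
  · simp only [rfx, if_true]; ext <;> simp <;> ring
theorem rfy_rfy (z : ℤ) (v : TV) : rfy z (rfy z v) = v := by
  obtain ⟨a, b, c⟩ := v
  cases c
  · simp [rfy]
  · simp only [rfy, if_true]; ext <;> simp <;> ring
theorem swp_swp (v : TV) : swp (swp v) = v := rfl

theorem TAdj.shf {u v : TV} (h : TAdj u v) (x y : ℤ) : TAdj (shf x y u) (shf x y v) := by
  unfold TAdj Site.shf at *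
  simp only
  rcases h with ⟨h1, h2, h3⟩ | ⟨h1, h2, h3⟩ | ⟨h1, h2, h3⟩
  · exact Or.inl ⟨h1, h2, by omega⟩
  · exact Or.inr (Or.inl ⟨h1, h2, by omega⟩)
  · exact Or.inr (Or.inr ⟨h1, h2, by omega⟩)

theorem TAdj.rfx {u v : TV} (h : TAdj u v) (z : ℤ) : TAdj (rfx z u) (rfx z v) := by
  unfold TAdj Site.rfx at *
  simp only
  rcases h with ⟨h1, h2, h3⟩ | ⟨h1, h2, h3⟩ | ⟨h1, h2, h3⟩
  · refine Or.inl ⟨h1, h2, ?_⟩; rw [h1, h2]; simp only [Bool.false_eq_true, if_false]; omega
  · refine Or.inr (Or.inl ⟨h1, h2, ?_⟩); rw [h1, h2]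
    simp only [Bool.false_eq_true, if_false, if_true]; omega
  · refine Or.inr (Or.inr ⟨h1, h2, ?_⟩); rw [h1, h2]
    simp only [Bool.false_eq_true, if_false, if_true]; omega

theorem TAdj.rfy {u v : TV} (h : TAdj u v) (z : ℤ) : TAdj (rfy z u) (rfy z v) := by
  unfold TAdj Site.rfy at *
  simp only
  rcases h with ⟨h1, h2, h3⟩ | ⟨h1, h2, h3⟩ | ⟨h1, h2, h3⟩
  · refine Or.inl ⟨h1, h2, ?_⟩; rw [h1, h2]; simp only [Bool.false_eq_true, if_false]; omega
  · refine Or.inr (Or.inl ⟨h1, h2, ?_⟩); rw [h1, h2]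
    simp only [Bool.false_eq_true, if_false, if_true]; omega
  · refine Or.inr (Or.inr ⟨h1, h2, ?_⟩); rw [h1, h2]
    simp only [Bool.false_eq_true, if_false, if_true]; omega

theorem TAdj.swp {u v : TV} (h : TAdj u v) : TAdj (swp u) (swp v) := by
  unfold TAdj Site.swp at *
  simp only
  rcases h with ⟨h1, h2, h3⟩ | ⟨h1, h2, h3⟩ | ⟨h1, h2, h3⟩
  · exact Or.inl ⟨h1, h2, h3.symm⟩
  · exact Or.inr (Or.inl ⟨h1, h2, h3.symm⟩)
  · exact Or.inr (Or.inr ⟨h1, h2, h3.symm⟩)

/-- Behaviour of connections under an automorphism `φ` of the lattice with inverse `ψ`. -/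
theorem tconn_comp {φ ψ : TV → TV} (h1 : ∀ v, φ (ψ v) = v) (h2 : ∀ v, ψ (φ v) = v)
    (hφ : ∀ u v, TAdj u v → TAdj (φ u) (φ v)) (hψ : ∀ u v, TAdj u v → TAdj (ψ u) (ψ v))
    {η : Config} {S : Set TV} {u v : TV} :
    TConn (fun v => η (φ v)) S u v ↔ TConn η {w | ψ w ∈ S} (φ u) (φ v) := by
  constructor
  · intro h
    exact h.map φ (fun x hx => by simpa [h2] using hx) (fun x _ hx => hx)
      (fun a b _ _ hab => Or.inl (hφ a b hab))
  · intro h
    have := h.map (η' := fun v => η (φ v)) (T := S) ψ (fun x hx => hx)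
      (fun x _ hx => by simp only [h1]; exact hx) (fun a b _ _ hab => Or.inl (hψ a b hab))
    rwa [h2, h2] at this

theorem TR_shf (a b c d x y : ℤ) :
    {w : TV | shf (-x) (-y) w ∈ TR a b c d} = TR (a + x) (b + x) (c + y) (d + y) := by
  ext w
  simp only [Set.mem_ofPred_eq, mem_TR, fx_shf, fy_shf]
  omega

theorem TR_rfx (a b c d z : ℤ) : {w : TV | rfx z w ∈ TR a b c d} = TR (z - b) (z - a) c d := by
  ext w
  simp only [Set.mem_ofPred_eq, mem_TR, fx_rfx, fy_rfx]
  omega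

theorem TR_rfy (a b c d z : ℤ) : {w : TV | rfy z w ∈ TR a b c d} = TR a b (z - d) (z - c) := by
  ext w
  simp only [Set.mem_ofPred_eq, mem_TR, fx_rfy, fy_rfy]
  omega

theorem TR_swp (a b c d : ℤ) : {w : TV | swp w ∈ TR a b c d} = TR c d a b := by
  ext w
  simp only [Set.mem_ofPred_eq, mem_TR, fx_swp, fy_swp]
  omega

theorem tconn_shf {η : Config} {a b c d x y : ℤ} {u v : TV} :
    TConn (fun v => η (shf x y v)) (TR a b c d) u v ↔
      TConn η (TR (a + x) (b + x) (c + y) (d + y)) (shf x y u) (shf x y v) := by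
  rw [tconn_comp (shf_shf x y) (shf_shf' x y) (fun _ _ h => h.shf x y)
    (fun _ _ h => h.shf (-x) (-y)), TR_shf]

theorem tconn_rfx {η : Config} {a b c d z : ℤ} {u v : TV} :
    TConn (fun v => η (rfx z v)) (TR a b c d) u v ↔
      TConn η (TR (z - b) (z - a) c d) (rfx z u) (rfx z v) := by
  rw [tconn_comp (rfx_rfx z) (rfx_rfx z) (fun _ _ h => h.rfx z) (fun _ _ h => h.rfx z), TR_rfx]

theorem tconn_rfy {η : Config} {a b c d z : ℤ} {u v : TV} :
    TConn (fun v => η (rfy z v)) (TR a b c d) u v ↔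
      TConn η (TR a b (z - d) (z - c)) (rfy z u) (rfy z v) := by
  rw [tconn_comp (rfy_rfy z) (rfy_rfy z) (fun _ _ h => h.rfy z) (fun _ _ h => h.rfy z), TR_rfy]

theorem tconn_swp {η : Config} {a b c d : ℤ} {u v : TV} :
    TConn (fun v => η (swp v)) (TR a b c d) u v ↔
      TConn η (TR c d a b) (swp u) (swp v) := by
  rw [tconn_comp swp_swp swp_swp (fun _ _ h => h.swp) (fun _ _ h => h.swp), TR_swp]

theorem HC_shf {η : Config} {a b c d x y : ℤ} :
    HC (fun v => η (shf x y v)) a b c d ↔ HC η (a + x) (b + x) (c + y) (d + y) := by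
  constructor
  · rintro ⟨z, z', h⟩
    rw [tconn_shf] at h
    exact ⟨z + y, z' + y, h⟩
  · rintro ⟨z, z', h⟩
    refine ⟨z - y, z' - y, ?_⟩
    rw [tconn_shf]
    simpa [shf] using h

theorem VC_shf {η : Config} {a b c d x y : ℤ} :
    VC (fun v => η (shf x y v)) a b c d ↔ VC η (a + x) (b + x) (c + y) (d + y) := by
  constructor
  · rintro ⟨z, z', h⟩
    rw [tconn_shf] at h
    exact ⟨z + x, z' + x, h⟩
  · rintro ⟨z, z', h⟩
    refine ⟨z - x, z' - x, ?_⟩
    rw [tconn_shf]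
    simpa [shf] using h

theorem HC_rfx {η : Config} {a b c d z : ℤ} :
    HC (fun v => η (rfx z v)) a b c d ↔ HC η (z - b) (z - a) c d := by
  constructor
  · rintro ⟨y, y', h⟩
    rw [tconn_rfx] at h
    refine ⟨y', y, ?_⟩
    simpa [rfx] using h.symm
  · rintro ⟨y, y', h⟩
    refine ⟨y', y, ?_⟩
    rw [tconn_rfx]
    simpa [rfx] using h.symm

theorem HC_rfy {η : Config} {a b c d z : ℤ} :
    HC (fun v => η (rfy z v)) a b c d ↔ HC η a b (z - d) (z - c) := by
  constructor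
  · rintro ⟨y, y', h⟩
    rw [tconn_rfy] at h
    exact ⟨z - y, z - y', by simpa [rfy] using h⟩
  · rintro ⟨y, y', h⟩
    refine ⟨z - y, z - y', ?_⟩
    rw [tconn_rfy]
    simpa [rfy] using h

theorem VC_rfx {η : Config} {a b c d z : ℤ} :
    VC (fun v => η (rfx z v)) a b c d ↔ VC η (z - b) (z - a) c d := by
  constructor
  · rintro ⟨y, y', h⟩
    rw [tconn_rfx] at h
    exact ⟨z - y, z - y', by simpa [rfx] using h⟩
  · rintro ⟨y, y', h⟩
    refine ⟨z - y, z - y', ?_⟩
    rw [tconn_rfx]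
    simpa [rfx] using h

theorem VC_rfy {η : Config} {a b c d z : ℤ} :
    VC (fun v => η (rfy z v)) a b c d ↔ VC η a b (z - d) (z - c) := by
  constructor
  · rintro ⟨y, y', h⟩
    rw [tconn_rfy] at h
    refine ⟨y', y, ?_⟩
    simpa [rfy] using h.symm
  · rintro ⟨y, y', h⟩
    refine ⟨y', y, ?_⟩
    rw [tconn_rfy]
    simpa [rfy] using h.symm

theorem HC_swp {η : Config} {a b c d : ℤ} :
    HC (fun v => η (swp v)) a b c d ↔ VC η c d a b := by
  constructor
  · rintro ⟨y, y', h⟩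
    rw [tconn_swp] at h
    exact ⟨y, y', h⟩
  · rintro ⟨y, y', h⟩
    exact ⟨y, y', tconn_swp.2 h⟩

theorem shf_injective (x y : ℤ) : Function.Injective (shf x y) := fun u v h => by
  rw [← shf_shf' x y u, h, shf_shf']

theorem rfx_injective (z : ℤ) : Function.Injective (rfx z) := fun u v h => by
  rw [← rfx_rfx z u, h, rfx_rfx]

theorem rfy_injective (z : ℤ) : Function.Injective (rfy z) := fun u v h => by
  rw [← rfy_rfy z u, h, rfy_rfy]

theorem swp_injective : Function.Injective swp := fun u v h => by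
  rw [← swp_swp u, h, swp_swp]

/-- Translation invariance of crossing probabilities. -/
theorem PT_HC_shf (p : I) (r : Bool) (a b c d x y : ℤ) :
    PT p r {η | HC η (a + x) (b + x) (c + y) (d + y)} = PT p r {η | HC η a b c d} := by
  rw [← PT_comp (p := p) (r := r) (localOn_HC a b c d) (shf_injective x y).injOn (fun _ => rfl)]
  congr 1
  ext η
  exact HC_shf.symm

theorem PT_VC_shf (p : I) (r : Bool) (a b c d x y : ℤ) :
    PT p r {η | VC η (a + x) (b + x) (c + y) (d + y)} = PT p r {η | VC η a b c d} := by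
  rw [← PT_comp (p := p) (r := r) (localOn_VC a b c d) (shf_injective x y).injOn (fun _ => rfl)]
  congr 1
  ext η
  exact VC_shf.symm

/-- Reflection in the diagonal. -/
theorem PT_VC_eq_HC (p : I) (r : Bool) (a b c d : ℤ) :
    PT p r {η | VC η a b c d} = PT p r {η | HC η c d a b} := by
  rw [← PT_comp (p := p) (r := r) (localOn_HC c d a b) swp_injective.injOn (fun _ => rfl)]
  congr 1
  ext η
  exact HC_swp.symm

theorem AB_shf (x y : ℤ) (k n : ℕ) :
    {η : Config | (fun v => η (shf x y v)) ∈ AB 0 0 k n} = AB x y k n := by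
  ext η
  simp only [AB, Set.mem_ofPred_eq]
  constructor
  · rintro ⟨u, hu, w, hw, hc⟩
    rw [tconn_shf] at hc
    refine ⟨shf x y u, ?_, shf x y w, ?_, ?_⟩
    · rw [mem_TR] at hu ⊢; rw [fx_shf, fy_shf]; omega
    · obtain ⟨h1, h2, h3⟩ := hw
      refine ⟨?_, h2, ?_⟩
      · rw [mem_TR] at h1 ⊢; rw [fx_shf, fy_shf]; omega
      · simp only [shf]; omega
    · have e1 : (0 : ℤ) - n + x = x - n := by ring
      have e2 : (0 : ℤ) + n + x = x + n := by ring
      have e3 : (0 : ℤ) - n + y = y - n := by ring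
      have e4 : (0 : ℤ) + n + y = y + n := by ring
      rwa [e1, e2, e3, e4] at hc
  · rintro ⟨u, hu, w, hw, hc⟩
    refine ⟨shf (-x) (-y) u, ?_, shf (-x) (-y) w, ?_, ?_⟩
    · rw [mem_TR] at hu ⊢; rw [fx_shf, fy_shf]; omega
    · obtain ⟨h1, h2, h3⟩ := hw
      refine ⟨?_, h2, ?_⟩
      · rw [mem_TR] at h1 ⊢; rw [fx_shf, fy_shf]; omega
      · simp only [shf]; omega
    · rw [tconn_shf, shf_shf, shf_shf]
      have e1 : (0 : ℤ) - n + x = x - n := by ring
      have e2 : (0 : ℤ) + n + x = x + n := by ring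
      have e3 : (0 : ℤ) - n + y = y - n := by ring
      have e4 : (0 : ℤ) + n + y = y + n := by ring
      rw [e1, e2, e3, e4]
      exact hc

/-- Translation invariance of the arm probabilities. -/
theorem PT_AB (p : I) (r : Bool) (x y : ℤ) (k n : ℕ) : PT p r (AB x y k n) = ab p r k n := by
  rw [← AB_shf x y k n, PT_comp (localOn_AB 0 0 k n) (shf_injective x y).injOn (fun _ => rfl), ab]

theorem ab_nonneg {k n : ℕ} : 0 ≤ ab p r k n := PT_nonneg

theorem ab_le_one {k n : ℕ} : ab p r k n ≤ 1 := PT_le_one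

theorem ab_mono_param (r : Bool) (k n : ℕ) (h : p ≤ q) : ab p r k n ≤ ab q r k n :=
  PT_mono_param (localOn_AB 0 0 k n) (incr_AB 0 0 k n) h

/-! ### Paths and squares -/

/-- A path from the square of half side `n` to a vertex outside or on the boundary contains a path
inside the square to the boundary. -/
theorem TConn.to_sph {η : Config} {S : Set TV} {u w : TV} {x y : ℤ} {n : ℕ}
    (h : TConn η S u w) (hu : u ∈ TR (x - n) (x + n) (y - n) (y + n))
    (hw : fx w ≤ 2 * (x - n) ∨ 2 * (x + n) ≤ fx w ∨ fy w ≤ 2 * (y - n) ∨ 2 * (y + n) ≤ fy w) :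
    ∃ z ∈ sph x y n, TConn η (S ∩ TR (x - n) (x + n) (y - n) (y + n)) u z := by
  set T : Set TV := {v | 2 * (x - n) < fx v ∧ fx v < 2 * (x + n) ∧ 2 * (y - n) < fy v ∧
    fy v < 2 * (y + n)} with hT
  have hwT : w ∉ T := by
    rw [hT]; simp only [Set.mem_ofPred_eq]; omega
  have hsph : ∀ v : TV, v ∈ TR (x - n) (x + n) (y - n) (y + n) → v ∉ T → v ∈ sph x y n := by
    intro v hv hvT
    refine ⟨hv, ?_⟩
    rw [mem_TR] at hv
    rw [hT] at hvT
    simp only [Set.mem_ofPred_eq] at hvT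
    have : fx v = 2 * (x - n) ∨ fx v = 2 * (x + n) ∨ fy v = 2 * (y - n) ∨ fy v = 2 * (y + n) := by
      omega
    rcases this with h | h | h | h
    · exact ⟨(site_of_fx h).1, Or.inl (site_of_fx h).2⟩
    · exact ⟨(site_of_fx h).1, Or.inr (Or.inl (site_of_fx h).2)⟩
    · exact ⟨(site_of_fy h).1, Or.inr (Or.inr (Or.inl (site_of_fy h).2))⟩
    · exact ⟨(site_of_fy h).1, Or.inr (Or.inr (Or.inr (site_of_fy h).2))⟩
  by_cases huT : u ∈ T
  · obtain ⟨a, b, h1, h2, h3, -⟩ := h.exists_exit huT hwT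
    have ha := h1.mem_right.2
    rw [hT] at ha
    simp only [Set.mem_ofPred_eq] at ha
    have hb : b ∈ TR (x - n) (x + n) (y - n) (y + n) := by
      rw [mem_TR]
      exact ⟨h2.2.2.1.le_fx ha.1, h2.2.2.1.fx_le ha.2.1, h2.2.2.1.le_fy ha.2.2.1,
        h2.2.2.1.fy_le ha.2.2.2⟩
    refine ⟨b, hsph b hb h3, ?_⟩
    have h4 : TConn η (S ∩ TR (x - n) (x + n) (y - n) (y + n)) u a :=
      h1.mono_set fun v hv => ⟨hv.1, by
        have := hv.2; rw [hT] at this; simp only [Set.mem_ofPred_eq] at this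
        rw [mem_TR]; omega⟩
    exact h4.tail ⟨h4.mem_right, ⟨h2.2.1, hb⟩, h2.2.2⟩
  · exact ⟨u, hsph u hu huT, TConn.refl ⟨h.mem_left, hu⟩ h.open_left⟩

/-- A far connection gives an arm event. -/
theorem TConn.mem_AB {η : Config} {S : Set TV} {u w : TV} {x y : ℤ} {k n : ℕ}
    (h : TConn η S u w) (hk : k ≤ n) (hu : u ∈ TR (x - k) (x + k) (y - k) (y + k))
    (hw : fx w ≤ 2 * (x - n) ∨ 2 * (x + n) ≤ fx w ∨ fy w ≤ 2 * (y - n) ∨ 2 * (y + n) ≤ fy w) :
    η ∈ AB x y k n := by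
  obtain ⟨z, hz, hc⟩ := h.to_sph (x := x) (y := y) (n := n)
    (TR_mono (by omega) (by omega) (by omega) (by omega) hu) hw
  exact ⟨u, hu, z, hz, hc.mono_set Set.inter_subset_right⟩

theorem AB_mono {x y : ℤ} {k k' n n' : ℕ} (hk : k ≤ k') (hn : n' ≤ n) (hkn : k' ≤ n') :
    AB x y k n ⊆ AB x y k' n' := by
  rintro η ⟨u, hu, w, hw, hc⟩
  refine hc.mem_AB hkn (TR_mono (by omega) (by omega) (by omega) (by omega) hu) ?_
  obtain ⟨h1, h2, h3⟩ := hw
  rw [fx_even h2, fy_even h2]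
  omega

theorem ab_mono {k k' n n' : ℕ} (hk : k ≤ k') (hn : n' ≤ n) (hkn : k' ≤ n') :
    ab p r k n ≤ ab p r k' n' := PT_mono (AB_mono hk hn hkn)

/-! ### Square root trick -/

theorem PT_sqrt_trick (hE : LocalOn s E) (hF : LocalOn t F) (iE : Incr E) (iF : Incr F)
    (h : PT p r F = PT p r E) : 1 - Real.sqrt (1 - PT p r (E ∪ F)) ≤ PT p r E := by
  classical
  have hc : PT p r Eᶜ * PT p r Fᶜ ≤ PT p r (Eᶜ ∩ Fᶜ) :=
    PT_fkg_decr hE.compl hF.compl (by rwa [compl_compl]) (by rwa [compl_compl])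
  have hU : LocalOn (s ∪ t) (E ∪ F) :=
    (hE.mono Finset.subset_union_left).union (hF.mono Finset.subset_union_right)
  have h2 : PT p r (Eᶜ ∩ Fᶜ) = 1 - PT p r (E ∪ F) := by
    rw [← PT_compl hU, Set.compl_union]
  rw [h2, PT_compl hE, PT_compl hF, h] at hc
  have h3 : 0 ≤ 1 - PT p r E := by linarith [PT_le_one (p := p) (r := r) (E := E)]
  have h4 : 1 - PT p r E ≤ Real.sqrt (1 - PT p r (E ∪ F)) := by
    apply Real.le_sqrt_of_sq_le
    rw [sq]; exact hc
  linarith

end Pool.Agent.H83.Site
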