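import Pool.Agent.H83.Site.DualN
import Pool.Agent.H83.Site.TProb

/-! # Paths which cross a rectangle in different directions meet -/

set_option autoImplicit false

namespace Pool.Agent.H83.Site

open Pool.Agent.H89.Perc

/-! ### Indicator of a cluster -/

open Classical in
/-- The indicator of the open cluster of `u` in `S`. -/
noncomputable def glueClu (η : Config) (S : Set TV) (u : TV) : Config :=
  fun v => if TConn η S u v then true else false

theorem glueClu_eq_true {η : Config} {S : Set TV} {u v : TV} :
    glueClu η S u v = true ↔ TConn η S u v := by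
  unfold glueClu
  split <;> simp_all

theorem neg_glueClu_eq_true {η : Config} {S : Set TV} {u v : TV} :
    neg (glueClu η S u) v = true ↔ ¬ TConn η S u v := by
  unfold neg
  rw [← glueClu_eq_true (η := η) (S := S) (u := u) (v := v)]
  simp

theorem glue_in_clu {η : Config} {S : Set TV} {u v : TV} (h : TConn η S u v) :
    TConn (glueClu η S u) S u v := by
  refine h.induction_right (P := fun v => TConn (glueClu η S u) S u v)
    (TConn.refl h.mem_left (glueClu_eq_true.2 (TConn.refl h.mem_left h.open_left))) ?_
  intro a b hua hab ih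
  exact ih.tail ⟨hab.1, hab.2.1, hab.2.2.1, glueClu_eq_true.2 hua,
    glueClu_eq_true.2 (hua.tail hab)⟩

theorem glue_avoid {η : Config} {S : Set TV} {u x x' : TV} (h : TConn η S x x')
    (hx : ¬ TConn η S u x) : TConn (neg (glueClu η S u)) S x x' := by
  refine h.induction_right (P := fun v => TConn (neg (glueClu η S u)) S x v)
    (TConn.refl h.mem_left (neg_glueClu_eq_true.2 hx)) ?_
  intro a b hxa hab ih
  exact ih.tail ⟨hab.1, hab.2.1, hab.2.2.1, neg_glueClu_eq_true.2 fun hh => hx (hh.trans hxa.symm),
    neg_glueClu_eq_true.2 fun hh => hx (hh.trans (hxa.tail hab).symm)⟩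

theorem glue_closed {η : Config} {S : Set TV} {u x x' : TV} (h : TConn (neg η) S x x') :
    TConn (neg (glueClu η S u)) S x x' := by
  refine h.mono le_rfl fun v _ hv => neg_glueClu_eq_true.2 fun hh => ?_
  have := hh.open_right
  unfold neg at hv
  rw [this] at hv
  simp at hv

/-! ### The extension by one column -/

/-- `η` extended by the column `x = a - 1`, where exactly the sites with `y < t` are open. -/
def glueExt (η : Config) (a t : ℤ) : Config :=
  fun v => if 2 * a ≤ fx v then η v else if v.2.1 < t then true else false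

theorem glueExt_conn {η : Config} {a b c d t : ℤ} {u v : TV} (h : TConn η (TR a b c d) u v) :
    TConn (glueExt η a t) (TR (a - 1) b c d) u v := by
  refine h.mono (TR_mono (by omega) le_rfl le_rfl le_rfl) fun x hx ho => ?_
  unfold glueExt
  rw [if_pos (mem_TR.1 hx).1]
  exact ho

theorem glueExt_neg_conn {η : Config} {a b c d t : ℤ} {u v : TV}
    (h : TConn (neg η) (TR a b c d) u v) :
    TConn (neg (glueExt η a t)) (TR (a - 1) b c d) u v := by
  refine h.mono (TR_mono (by omega) le_rfl le_rfl le_rfl) fun x hx ho => ?_
  unfold neg glueExt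
  unfold neg at ho
  rw [if_pos (mem_TR.1 hx).1]
  exact ho

theorem glueExt_site {η : Config} {a t y : ℤ} :
    glueExt η a t (a - 1, y, false) = if y < t then true else false := by
  unfold glueExt
  rw [if_neg (by rw [fx_site]; omega)]

/-- The column of new open sites. -/
theorem glueExt_col_open {η : Config} {a b c d t : ℤ} (hab : a ≤ b) (y : ℤ) (hy : y < t)
    (hc : c ≤ y) (hd : y ≤ d) (n : ℕ) (hn : c ≤ y - n) :
    TConn (glueExt η a t) (TR (a - 1) b c d) (a - 1, y, false) (a - 1, y - n, false) := by
  induction n with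
  | zero =>
    simp only [Nat.cast_zero, sub_zero]
    refine TConn.refl ?_ ?_
    · rw [mem_TR_site]; omega
    · rw [glueExt_site, if_pos hy]
  | succ n ih =>
    have hn' : c ≤ y - n := by push_cast at hn; omega
    refine (ih hn').tail ⟨?_, ?_, ?_, ?_, ?_⟩
    · rw [mem_TR_site]; omega
    · rw [mem_TR_site]; push_cast at hn ⊢; omega
    · left
      refine ⟨rfl, rfl, Or.inl ⟨rfl, Or.inl ?_⟩⟩
      push_cast; ring
    · rw [glueExt_site, if_pos (by omega)]
    · rw [glueExt_site, if_pos (by push_cast; omega)]

/-- The column of new closed sites. -/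
theorem glueExt_col_closed {η : Config} {a b c d t : ℤ} (hab : a ≤ b) (y : ℤ) (hy : t ≤ y)
    (hc : c ≤ y) (hd : y ≤ d) (n : ℕ) (hn : y + n ≤ d) :
    TConn (neg (glueExt η a t)) (TR (a - 1) b c d) (a - 1, y, false) (a - 1, y + n, false) := by
  have hval : ∀ z : ℤ, t ≤ z → neg (glueExt η a t) (a - 1, z, false) = true := by
    intro z hz
    unfold neg
    rw [glueExt_site, if_neg (by omega)]
    rfl
  induction n with
  | zero =>
    simp only [Nat.cast_zero, add_zero]
    refine TConn.refl ?_ (hval y hy)
    rw [mem_TR_site]; omega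
  | succ n ih =>
    have hn' : y + n ≤ d := by push_cast at hn; omega
    refine (ih hn').tail ⟨?_, ?_, ?_, hval _ (by omega), hval _ (by push_cast; omega)⟩
    · rw [mem_TR_site]; omega
    · rw [mem_TR_site]; push_cast at hn ⊢; omega
    · left
      refine ⟨rfl, rfl, Or.inl ⟨rfl, Or.inr ?_⟩⟩
      push_cast; ring

theorem glue_adj_left (a y : ℤ) : TAdj (a - 1, y, false) (a, y, false) := by
  left
  refine ⟨rfl, rfl, Or.inr ⟨rfl, Or.inr ?_⟩⟩
  ring

/-- A horizontal and a vertical open crossing are connected. -/
theorem glue_hv {η : Config} {a b c d y y' x x' : ℤ}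
    (h1 : TConn η (TR a b c d) (a, y, false) (b, y', false))
    (h2 : TConn η (TR a b c d) (x, c, false) (x', d, false)) :
    TConn η (TR a b c d) (a, y, false) (x, c, false) := by
  by_contra hcon
  exact not_hc_and_vc ⟨y, y', glue_in_clu h1⟩ ⟨x, x', glue_avoid h2 hcon⟩

/-- An open path from the lower point `(a, y₁)` of the left side to the right side and a closed path
from the upper point `(a, y₂)` of the left side to the bottom do not coexist. -/
theorem no_left_bottom {η : Config} {a b c d y₁ y₂ y₃ x : ℤ} (hy : y₁ < y₂)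
    (h1 : TConn η (TR a b c d) (a, y₁, false) (b, y₃, false))
    (h2 : TConn (neg η) (TR a b c d) (a, y₂, false) (x, c, false)) : False := by
  have m1 := mem_TR_site.1 h1.mem_left
  have m2 := mem_TR_site.1 h2.mem_left
  have hab : a ≤ b := by omega
  have e1 := glueExt_conn (t := y₂) h1
  have e2 := glueExt_neg_conn (t := y₂) h2
  have H : HC (glueExt η a y₂) (a - 1) b c d := by
    refine ⟨y₁, y₃, TConn.trans (TStep.conn ⟨?_, e1.mem_left, glue_adj_left a y₁, ?_,
      e1.open_left⟩) e1⟩
    · rw [mem_TR_site]; omega
    · rw [glueExt_site, if_pos hy]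
  have V : VC (neg (glueExt η a y₂)) (a - 1) b c d := by
    have hcol := glueExt_col_closed (η := η) (b := b) (c := c) (d := d) (t := y₂) hab y₂ le_rfl
      (by omega) (by omega) (d - y₂).toNat (by omega)
    have hd : y₂ + ((d - y₂).toNat : ℤ) = d := by omega
    rw [hd] at hcol
    exact ⟨x, a - 1, (e2.symm.tail ⟨e2.mem_left, hcol.mem_left, (glue_adj_left a y₂).symm,
      e2.open_left, hcol.open_left⟩).trans hcol⟩
  exact not_hc_and_vc H V

/-- An open path from the lower point `(a, y₁)` of the left side to the top and a closed path from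
the upper point `(a, y₂)` of the left side to the right side do not coexist. -/
theorem no_left_top {η : Config} {a b c d y₁ y₂ y₃ x : ℤ} (hy : y₁ < y₂)
    (h1 : TConn η (TR a b c d) (a, y₁, false) (x, d, false))
    (h2 : TConn (neg η) (TR a b c d) (a, y₂, false) (b, y₃, false)) : False := by
  have m1 := mem_TR_site.1 h1.mem_left
  have m2 := mem_TR_site.1 h2.mem_left
  have hab : a ≤ b := by omega
  have e1 := glueExt_conn (t := y₂) h1
  have e2 := glueExt_neg_conn (t := y₂) h2
  have H : HC (neg (glueExt η a y₂)) (a - 1) b c d := by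
    refine ⟨y₂, y₃, TConn.trans (TStep.conn ⟨?_, e2.mem_left, glue_adj_left a y₂, ?_,
      e2.open_left⟩) e2⟩
    · rw [mem_TR_site]; omega
    · unfold neg
      rw [glueExt_site, if_neg (by omega)]
      rfl
  have V : VC (neg (neg (glueExt η a y₂))) (a - 1) b c d := by
    rw [neg_neg']
    have hcol := glueExt_col_open (η := η) (b := b) (c := c) (d := d) (t := y₂) hab y₁ hy
      (by omega) (by omega) (y₁ - c).toNat (by omega)
    have hc : y₁ - ((y₁ - c).toNat : ℤ) = c := by omega
    rw [hc] at hcol
    exact ⟨a - 1, x, (hcol.symm.tail ⟨hcol.mem_left, e1.mem_left, glue_adj_left a y₁,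
      hcol.open_left, e1.open_left⟩).trans e1⟩
  exact not_hc_and_vc H V

/-! ### The mirror image -/

theorem glue_mirror {η : Config} {a b c d x y x' y' : ℤ}
    (h : TConn η (TR a b c d) (x, y, false) (x', y', false)) :
    TConn (fun v => η (rfx (a + b) v)) (TR a b c d) (a + b - x, y, false)
      (a + b - x', y', false) := by
  rw [tconn_rfx]
  have e1 : a + b - b = a := by ring
  have e2 : a + b - a = b := by ring
  have e3 : rfx (a + b) (a + b - x, y, false) = (x, y, false) := by
    simp [rfx]
  have e4 : rfx (a + b) (a + b - x', y', false) = (x', y', false) := by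
    simp [rfx]
  rw [e1, e2, e3, e4]
  exact h

theorem glue_unmirror {η : Config} {a b c d x y x' y' : ℤ}
    (h : TConn (fun v => η (rfx (a + b) v)) (TR a b c d) (a + b - x, y, false)
      (a + b - x', y', false)) :
    TConn η (TR a b c d) (x, y, false) (x', y', false) := by
  rw [tconn_rfx] at h
  have e1 : a + b - b = a := by ring
  have e2 : a + b - a = b := by ring
  have e3 : rfx (a + b) (a + b - x, y, false) = (x, y, false) := by
    simp [rfx]
  have e4 : rfx (a + b) (a + b - x', y', false) = (x', y', false) := by
    simp [rfx]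
  rw [e1, e2, e3, e4] at h
  exact h

theorem no_right_bottom {η : Config} {a b c d y₁ y₂ y₃ x : ℤ} (hy : y₁ < y₂)
    (h1 : TConn η (TR a b c d) (b, y₁, false) (a, y₃, false))
    (h2 : TConn (neg η) (TR a b c d) (b, y₂, false) (x, c, false)) : False := by
  have e1 := glue_mirror h1
  have e2 := glue_mirror h2
  have ha : a + b - b = a := by ring
  have hb : a + b - a = b := by ring
  rw [ha, hb] at e1
  rw [ha] at e2
  exact no_left_bottom hy e1 e2

theorem no_right_top {η : Config} {a b c d y₁ y₂ y₃ x : ℤ} (hy : y₁ < y₂)
    (h1 : TConn η (TR a b c d) (b, y₁, false) (x, d, false))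
    (h2 : TConn (neg η) (TR a b c d) (b, y₂, false) (a, y₃, false)) : False := by
  have e1 := glue_mirror h1
  have e2 := glue_mirror h2
  have ha : a + b - b = a := by ring
  have hb : a + b - a = b := by ring
  rw [ha] at e1
  rw [ha, hb] at e2
  exact no_left_top hy e1 e2

/-- Open path from a lower point of the left side to the top, open path from an upper point of the
left side to the right side: they are connected. -/
theorem glue_left {η : Config} {a b c d y₁ y₂ y₃ x : ℤ} (hy : y₁ ≤ y₂)
    (h1 : TConn η (TR a b c d) (a, y₁, false) (x, d, false))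
    (h2 : TConn η (TR a b c d) (a, y₂, false) (b, y₃, false)) :
    TConn η (TR a b c d) (a, y₁, false) (a, y₂, false) := by
  rcases hy.eq_or_lt with rfl | hlt
  · exact TConn.refl h1.mem_left h1.open_left
  · by_contra hcon
    exact no_left_top hlt (glue_in_clu h1) (glue_avoid h2 hcon)

theorem glue_right {η : Config} {a b c d y₁ y₂ y₃ x : ℤ} (hy : y₁ ≤ y₂)
    (h1 : TConn η (TR a b c d) (b, y₁, false) (x, d, false))
    (h2 : TConn η (TR a b c d) (b, y₂, false) (a, y₃, false)) :
    TConn η (TR a b c d) (b, y₁, false) (b, y₂, false) := by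
  rcases hy.eq_or_lt with rfl | hlt
  · exact TConn.refl h1.mem_left h1.open_left
  · by_contra hcon
    exact no_right_top hlt (glue_in_clu h1) (glue_avoid h2 hcon)

/-- Open crossing starting at `(a, y₀)`; the open site `(a, y)` above it is adjacent to a closed
vertex `w` which is joined to the bottom by a closed path. Then the crossing is connected to
`(a, y)`. -/
theorem glue_low_left {η : Config} {a b c d y₀ y₁ y x : ℤ} {w : TV} (hy : y₀ < y)
    (ho : η (a, y, false) = true) (hm : (a, y, false) ∈ TR a b c d)
    (h1 : TConn η (TR a b c d) (a, y₀, false) (b, y₁, false))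
    (h2 : TConn (neg η) (TR a b c d) (x, c, false) w) (hw : TAdj w (a, y, false)) :
    TConn η (TR a b c d) (a, y₀, false) (a, y, false) := by
  by_contra hcon
  have hcl := glue_closed (u := (a, y₀, false)) h2
  exact no_left_bottom hy (glue_in_clu h1) (hcl.tail ⟨hcl.mem_right, hm, hw, hcl.open_right,
    neg_glueClu_eq_true.2 hcon⟩).symm

theorem glue_low_right {η : Config} {a b c d y₀ y₁ y x : ℤ} {w : TV} (hy : y₁ < y)
    (ho : η (b, y, false) = true) (hm : (b, y, false) ∈ TR a b c d)
    (h1 : TConn η (TR a b c d) (a, y₀, false) (b, y₁, false))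
    (h2 : TConn (neg η) (TR a b c d) (x, c, false) w) (hw : TAdj w (b, y, false)) :
    TConn η (TR a b c d) (b, y₁, false) (b, y, false) := by
  by_contra hcon
  have hcl := glue_closed (u := (b, y₁, false)) h2
  exact no_right_bottom hy (glue_in_clu h1.symm) (hcl.tail ⟨hcl.mem_right, hm, hw, hcl.open_right,
    neg_glueClu_eq_true.2 hcon⟩).symm

end Pool.Agent.H83.Site
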