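import Pool.Agent.H83.Site.Renorm
import Pool.Agent.H83.Site.Glue

/-! # Finite size criterion: connections to infinity, absence of percolation -/

set_option autoImplicit false

open MeasureTheory ProbabilityTheory unitInterval

namespace Pool.Agent.H83.Site

open Pool.Agent.H89.Perc

/-- One step of the chain, from a horizontal to a vertical crossing. -/
private theorem chain_hv {η : Config} {u : TV} {n : ℤ} (hn : 1 ≤ n)
    (h1 : ∃ y y' : ℤ, TConn η (TR 0 (4 * n) 1 n) (0, y, false) (4 * n, y', false) ∧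
      TConn η Set.univ u (0, y, false))
    (h2 : VC η 1 (2 * n) 0 (4 * (2 * n))) :
    ∃ x x' : ℤ, TConn η (TR 1 (2 * n) 0 (4 * (2 * n))) (x, 0, false) (x', 4 * (2 * n), false) ∧
      TConn η Set.univ u (x, 0, false) := by
  obtain ⟨y, y', hc, hu⟩ := h1
  obtain ⟨x, x', hv⟩ := h2
  refine ⟨x, x', hv, ?_⟩
  obtain ⟨z, z', h3, h4, -⟩ := hc.cross_x (a := 1) (b := 2 * n)
    (by simp only [fx_site]; omega) (by simp only [fx_site]; omega) (by omega)
  rw [TR_inter_x (by omega) (by omega)] at h3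
  have h5 : TConn η (TR 1 (2 * n) 0 (4 * (2 * n))) (1, z, false) (2 * n, z', false) :=
    h3.mono_set (TR_mono le_rfl le_rfl (by omega) (by omega))
  have h6 := glue_hv h5 hv
  exact (hu.trans (h4.mono_set (Set.subset_univ _))).trans (h6.mono_set (Set.subset_univ _))

/-- One step of the chain, from a vertical to a horizontal crossing. -/
private theorem chain_vh {η : Config} {u : TV} {n : ℤ} (hn : 1 ≤ n)
    (h1 : ∃ x x' : ℤ, TConn η (TR 1 n 0 (4 * n)) (x, 0, false) (x', 4 * n, false) ∧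
      TConn η Set.univ u (x, 0, false))
    (h2 : HC η 0 (4 * (2 * n)) 1 (2 * n)) :
    ∃ y y' : ℤ, TConn η (TR 0 (4 * (2 * n)) 1 (2 * n)) (0, y, false) (4 * (2 * n), y', false) ∧
      TConn η Set.univ u (0, y, false) := by
  obtain ⟨x, x', hc, hu⟩ := h1
  obtain ⟨y, y', hv⟩ := h2
  refine ⟨y, y', hv, ?_⟩
  obtain ⟨z, z', h3, h4, -⟩ := hc.cross_y (c := 1) (d := 2 * n)
    (by simp only [fy_site]; omega) (by simp only [fy_site]; omega) (by omega)
  rw [TR_inter_y (by omega) (by omega)] at h3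
  have h5 : TConn η (TR 0 (4 * (2 * n)) 1 (2 * n)) (z, 1, false) (z', 2 * n, false) :=
    h3.mono_set (TR_mono (by omega) (by omega) le_rfl le_rfl)
  have h6 := (glue_hv hv h5).symm
  exact (hu.trans (h4.mono_set (Set.subset_univ _))).trans (h6.mono_set (Set.subset_univ _))

/-- The events of the chain. -/
private def chainE (m k : ℕ) : Set Config :=
  if k % 2 = 0 then {η | HC η 0 (4 * ((2 ^ k * m : ℕ) : ℤ)) 1 ((2 ^ k * m : ℕ) : ℤ)}
  else {η | VC η 1 ((2 ^ k * m : ℕ) : ℤ) 0 (4 * ((2 ^ k * m : ℕ) : ℤ))}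

private theorem chain_det {η : Config} {m : ℕ} (hm : 1 ≤ m) (J : ℕ)
    (h : ∀ k ≤ 2 * J, η ∈ chainE m k) :
    ∃ u ∈ TR (0 - ((4 * m : ℕ) : ℤ)) (0 + ((4 * m : ℕ) : ℤ)) (0 - ((4 * m : ℕ) : ℤ))
        (0 + ((4 * m : ℕ) : ℤ)),
      ∃ y y' : ℤ, TConn η (TR 0 (4 * ((2 ^ (2 * J) * m : ℕ) : ℤ)) 1 ((2 ^ (2 * J) * m : ℕ) : ℤ))
        (0, y, false) (4 * ((2 ^ (2 * J) * m : ℕ) : ℤ), y', false) ∧
        TConn η Set.univ u (0, y, false) := by
  induction J with
  | zero =>
    have h0 := h 0 le_rfl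
    rw [chainE, if_pos (by norm_num)] at h0
    obtain ⟨y, y', hc⟩ := h0
    refine ⟨(0, y, false), ?_, y, y', ?_, ?_⟩
    · have := hc.mem_left
      rw [mem_TR_site] at this ⊢
      simp only [pow_zero, one_mul] at this
      push_cast
      omega
    · simpa using hc
    · exact TConn.refl (Set.mem_univ _) hc.open_left
  | succ J ih =>
    obtain ⟨u, hu, h1⟩ := ih (fun k hk => h k (by omega))
    refine ⟨u, hu, ?_⟩
    have hB := h (2 * J + 1) (by omega)
    have hA := h (2 * (J + 1)) le_rfl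
    rw [chainE, if_neg (by omega)] at hB
    rw [chainE, if_pos (by omega)] at hA
    have hn : (1 : ℤ) ≤ ((2 ^ (2 * J) * m : ℕ) : ℤ) := by
      have : 1 ≤ 2 ^ (2 * J) * m := Nat.one_le_iff_ne_zero.2 (by positivity)
      exact_mod_cast this
    have e1 : ((2 ^ (2 * J + 1) * m : ℕ) : ℤ) = 2 * ((2 ^ (2 * J) * m : ℕ) : ℤ) := by
      push_cast; ring
    have e2 : ((2 ^ (2 * (J + 1)) * m : ℕ) : ℤ) = 2 * (2 * ((2 ^ (2 * J) * m : ℕ) : ℤ)) := by
      push_cast; ring
    rw [e1] at hB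
    rw [e2] at hA ⊢
    have h2 := chain_hv hn h1 hB
    exact chain_vh (by omega) h2 hA

private theorem chain_prob {p : I} {r : Bool} {m : ℕ} (hm : 1 ≤ m) (h : qc p r m ≤ 1 / 242)
    (k : ℕ) : PT p r (chainE m k)ᶜ ≤ 1 / 121 * (1 / 2) ^ (2 ^ k) := by
  have hn : 1 ≤ 2 ^ k * m := Nat.one_le_iff_ne_zero.2 (by positivity)
  have h1 := qc_iter hm h k
  rw [qc_eq p r hn] at h1
  unfold chainE
  split_ifs
  · rw [PT_compl (localOn_HC _ _ _ _)]
    exact h1
  · rw [PT_compl (localOn_VC _ _ _ _), PT_VC_eq_HC]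
    exact h1

private theorem sum_sq_le (K : ℕ) :
    ∑ k ∈ Finset.range K, (1 / 121 : ℝ) * (1 / 2) ^ (2 ^ k) ≤ 1 / 2 := by
  have h1 : ∀ k : ℕ, (1 / 2 : ℝ) ^ (2 ^ k) ≤ (1 / 2) ^ k := by
    intro k
    exact pow_le_pow_of_le_one (by norm_num) (by norm_num) (Nat.lt_two_pow_self).le
  have h2 : ∑ k ∈ Finset.range K, (1 / 2 : ℝ) ^ k ≤ 2 := by
    have := geom_sum_eq (x := (1 / 2 : ℝ)) (by norm_num) K
    rw [this]
    have h3 : (0 : ℝ) ≤ (1 / 2) ^ K := by positivity
    rw [div_le_iff_of_neg (by norm_num)]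
    linarith
  rw [← Finset.mul_sum]
  have h3 : ∑ k ∈ Finset.range K, (1 / 2 : ℝ) ^ (2 ^ k) ≤ 2 :=
    (Finset.sum_le_sum fun k _ => h1 k).trans h2
  linarith

/-- A chain of crossings of larger and larger rectangles. -/
theorem fs_chain {p : I} {r : Bool} {m : ℕ} (hm : 1 ≤ m) (h : qc p r m ≤ 1 / 242) {N : ℕ}
    (hN : 4 * m ≤ N) : 1 / 2 ≤ ab p r (4 * m) N := by
  have hsub : (AB 0 0 (4 * m) N)ᶜ ⊆ ⋃ k ∈ Finset.range (2 * N + 1), (chainE m k)ᶜ := by
    intro η hη
    by_contra hc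
    apply hη
    simp only [Set.mem_iUnion, Set.mem_compl_iff, not_exists, not_not, Finset.mem_range] at hc
    obtain ⟨u, hu, y, y', h1, h2⟩ := chain_det (η := η) hm N (fun k hk => hc k (by omega))
    have h3 := h2.trans (h1.mono_set (Set.subset_univ _))
    refine h3.mem_AB hN hu ?_
    right; left
    simp only [fx_site]
    have h4 : N ≤ 4 * (2 ^ (2 * N) * m) := by
      have h5 : N < 2 ^ (2 * N) := lt_of_lt_of_le Nat.lt_two_pow_self
        (Nat.pow_le_pow_right (by norm_num) (by omega))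
      nlinarith
    have h6 : (N : ℤ) ≤ 4 * ((2 ^ (2 * N) * m : ℕ) : ℤ) := by exact_mod_cast h4
    linarith
  have h1 : PT p r (AB 0 0 (4 * m) N)ᶜ ≤ 1 / 2 := by
    refine (PT_mono hsub).trans ((PT_biUnion_le _ _).trans ?_)
    exact (Finset.sum_le_sum fun k _ => chain_prob hm h k).trans (sum_sq_le _)
  rw [PT_compl (localOn_AB 0 0 (4 * m) N)] at h1
  unfold ab
  linarith

private theorem chain_thT_antitone (r : Bool) :
    Antitone (fun n : ℕ => {ω : Config | full r ω ∈ AB 0 0 0 n}) := by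
  intro n n' hn ω hω
  exact AB_mono (x := 0) (y := 0) le_rfl hn (Nat.zero_le _) hω

private theorem chain_thT_set (r : Bool) :
    {ω : Config | full r ω ∈ {η | ∀ n, η ∈ AB 0 0 0 n}} =
      ⋂ n : ℕ, {ω : Config | full r ω ∈ AB 0 0 0 n} := by
  ext ω
  simp

open Filter Topology in
private theorem chain_tendsto (p : I) (r : Bool) :
    Tendsto (fun n => ab p r 0 n) atTop (𝓝 (thT p r)) := by
  have h : Tendsto (fun n : ℕ => μ p {ω : Config | full r ω ∈ AB 0 0 0 n}) atTop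
      (𝓝 (μ p (⋂ n : ℕ, {ω : Config | full r ω ∈ AB 0 0 0 n}))) :=
    tendsto_measure_iInter_atTop
      (fun n => ((localOn_full r (localOn_AB 0 0 0 n)).measurableSet).nullMeasurableSet)
      (chain_thT_antitone r) ⟨0, measure_ne_top _ _⟩
  have h2 := (ENNReal.tendsto_toReal
    (measure_ne_top (μ p) (⋂ n : ℕ, {ω : Config | full r ω ∈ AB 0 0 0 n}))).comp h
  rw [thT, PT, chain_thT_set]
  exact h2

/-- Continuity of the measure. -/
theorem le_thT {p : I} {r : Bool} {x : ℝ} {n₀ : ℕ} (h : ∀ n, n₀ ≤ n → x ≤ ab p r 0 n) :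
    x ≤ thT p r := by
  refine ge_of_tendsto (chain_tendsto p r) ?_
  filter_upwards [Filter.eventually_ge_atTop n₀] with n hn using h n hn

theorem thT_le_ab (p : I) (r : Bool) (n : ℕ) : thT p r ≤ ab p r 0 n :=
  PT_mono fun _ h => h n

/-- Percolation when the crossing probability of one long rectangle is close to one. -/
theorem fs_plus {p : I} {r : Bool} {m : ℕ} (hm : 1 ≤ m) (h : qc p r m ≤ 1 / 242) :
    0 < thT p r := by
  classical
  set s : ℕ := 4 * m with hs
  set Q : Finset (ℤ × ℤ) := Finset.Icc (-(s : ℤ)) s ×ˢ Finset.Icc (-(s : ℤ)) s with hQ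
  have hQpos : (0 : ℝ) < Q.card := by
    have : 0 < Q.card := Finset.card_pos.2 ⟨(0, 0), by
      rw [hQ, Finset.mem_product, Finset.mem_Icc]; simp⟩
    exact_mod_cast this
  have hsub : ∀ n : ℕ, AB 0 0 s (n + s) ⊆ ⋃ v ∈ Q, AB v.1 v.2 0 n := by
    rintro n η ⟨u, hu, w, hw, hc⟩
    -- a site `v` of the square which is joined to `w`
    have key : ∃ a b : ℤ, -(s : ℤ) ≤ a ∧ a ≤ s ∧ -(s : ℤ) ≤ b ∧ b ≤ s ∧
        TConn η (TR (0 - ((n + s : ℕ) : ℤ)) (0 + ((n + s : ℕ) : ℤ)) (0 - ((n + s : ℕ) : ℤ))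
          (0 + ((n + s : ℕ) : ℤ))) (a, b, false) w := by
      obtain ⟨a, b, t⟩ := u
      cases t
      · rw [mem_TR_site] at hu
        exact ⟨a, b, by omega, by omega, by omega, by omega, hc⟩
      · rw [mem_TR_cen] at hu
        obtain ⟨h1, h2, h3⟩ := hc
        rcases Relation.ReflTransGen.cases_head h3 with h4 | ⟨v, h4, h5⟩
        · exfalso
          have := hw.2.1
          rw [← h4] at this
          simp at this
        · obtain ⟨a', b', t'⟩ := v
          have hadj := h4.2.2.1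
          unfold TAdj at hadj
          simp only [Bool.true_eq_false, false_and, false_or, true_and] at hadj
          obtain ⟨ht, h6, h7⟩ := hadj
          subst ht
          refine ⟨a', b', by omega, by omega, by omega, by omega, h4.2.1, h4.2.2.2.2, h5⟩
    obtain ⟨a, b, ha1, ha2, hb1, hb2, hc'⟩ := key
    simp only [Set.mem_iUnion]
    refine ⟨(a, b), ?_, ?_⟩
    · rw [hQ, Finset.mem_product, Finset.mem_Icc, Finset.mem_Icc]
      exact ⟨⟨ha1, ha2⟩, hb1, hb2⟩
    · refine hc'.mem_AB (Nat.zero_le _) ?_ ?_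
      · rw [mem_TR_site]; simp
      · obtain ⟨h1, h2, h3⟩ := hw
        rw [fx_even h2, fy_even h2]
        push_cast at h3
        simp only
        omega
  have hlow : ∀ n : ℕ, 1 / 2 / (Q.card : ℝ) ≤ ab p r 0 n := by
    intro n
    have h1 : 1 / 2 ≤ ab p r s (n + s) := fs_chain hm h (by omega)
    have h2 : ab p r s (n + s) ≤ ∑ v ∈ Q, ab p r 0 n := by
      refine (PT_mono (hsub n)).trans ((PT_biUnion_le _ _).trans ?_)
      exact Finset.sum_le_sum fun v _ => (PT_AB p r v.1 v.2 0 n).le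
    rw [Finset.sum_const, nsmul_eq_mul] at h2
    rw [div_le_iff₀ hQpos]
    linarith
  have := le_thT (p := p) (r := r) (n₀ := 0) (fun n _ => hlow n)
  refine lt_of_lt_of_le ?_ this
  positivity

/-- The arm to distance `M` crosses one of four rectangles. -/
private theorem chain_arm_sub {M : ℕ} (hM : 1 ≤ M) :
    AB 0 0 0 M ⊆ (({η | VC η (-M) M 1 M} ∪ {η | VC η (-M) M (-M) (-1)}) ∪
      {η | HC η 1 M (-M) M}) ∪ {η | HC η (-M) (-1) (-M) M} := by
  rintro η ⟨u, hu, w, hw, hc⟩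
  obtain ⟨h1, h2, h3⟩ := hw
  rw [mem_TR] at hu
  simp only [Nat.cast_zero, sub_zero, add_zero, mul_zero, zero_sub, zero_add] at hu h3 hc h1
  have hMz : (1 : ℤ) ≤ M := by exact_mod_cast hM
  rcases h3 with h3 | h3 | h3 | h3
  · right
    obtain ⟨y, y', h4, -, -⟩ := hc.symm.cross_x (a := -M) (b := -1)
      (by rw [fx_even h2]; omega) (by omega) (by omega)
    rw [TR_inter_x (by omega) (by omega)] at h4
    exact ⟨y, y', h4⟩
  · left; right
    obtain ⟨y, y', h4, -, -⟩ := hc.cross_x (a := 1) (b := M)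
      (by omega) (by rw [fx_even h2]; omega) (by omega)
    rw [TR_inter_x (by omega) (by omega)] at h4
    exact ⟨y, y', h4⟩
  · left; left; right
    obtain ⟨y, y', h4, -, -⟩ := hc.symm.cross_y (c := -M) (d := -1)
      (by rw [fy_even h2]; omega) (by omega) (by omega)
    rw [TR_inter_y (by omega) (by omega)] at h4
    exact ⟨y, y', h4⟩
  · left; left; left
    obtain ⟨y, y', h4, -, -⟩ := hc.cross_y (c := 1) (d := M)
      (by omega) (by rw [fy_even h2]; omega) (by omega)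
    rw [TR_inter_y (by omega) (by omega)] at h4
    exact ⟨y, y', h4⟩

private theorem chain_arm_le {p : I} {r : Bool} {M : ℕ} (hM : 1 ≤ M) :
    ab p r 0 M ≤ 4 * qc (σ p) (!r) M := by
  have hq : qc (σ p) (!r) M = PT p r {η | VC η 0 (4 * M) 1 M} := by
    unfold qc
    have := PT_neg (p := σ p) (r := !r) (localOn_VC 0 (4 * (M : ℤ)) 1 M)
    rw [σσ, Bool.not_not] at this
    exact this
  have hMz : (1 : ℤ) ≤ M := by exact_mod_cast hM
  have hv : ∀ a c : ℤ, PT p r {η | VC η a (a + 2 * M) c (c + (M - 1))} ≤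
      PT p r {η | VC η 0 (4 * M) 1 M} := by
    intro a c
    have h1 := PT_VC_shf p r 0 (2 * M) 1 M a (c - 1)
    have e1 : (0 : ℤ) + a = a := by ring
    have e2 : 2 * (M : ℤ) + a = a + 2 * M := by ring
    have e3 : 1 + (c - 1) = c := by ring
    have e4 : (M : ℤ) + (c - 1) = c + (M - 1) := by ring
    rw [e1, e2, e3, e4] at h1
    rw [h1]
    exact PT_mono fun η hη => VC.mono hη le_rfl (by omega) le_rfl hMz le_rfl
  have h1 : PT p r {η | VC η (-M) M 1 M} ≤ PT p r {η | VC η 0 (4 * M) 1 M} := by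
    have := hv (-M) 1
    have e1 : -(M : ℤ) + 2 * M = M := by ring
    have e2 : 1 + ((M : ℤ) - 1) = M := by ring
    rwa [e1, e2] at this
  have h2 : PT p r {η | VC η (-M) M (-M) (-1)} ≤ PT p r {η | VC η 0 (4 * M) 1 M} := by
    have := hv (-M) (-M)
    have e1 : -(M : ℤ) + 2 * M = M := by ring
    have e2 : -(M : ℤ) + (M - 1) = -1 := by ring
    rwa [e1, e2] at this
  have h3 : PT p r {η | HC η 1 M (-M) M} ≤ PT p r {η | VC η 0 (4 * M) 1 M} := by
    rw [← PT_VC_eq_HC]; exact h1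
  have h4 : PT p r {η | HC η (-M) (-1) (-M) M} ≤ PT p r {η | VC η 0 (4 * M) 1 M} := by
    rw [← PT_VC_eq_HC]; exact h2
  have h5 : ab p r 0 M ≤ ((PT p r {η | VC η (-M) M 1 M} + PT p r {η | VC η (-M) M (-M) (-1)}) +
      PT p r {η | HC η 1 M (-M) M}) + PT p r {η | HC η (-M) (-1) (-M) M} := by
    refine (PT_mono (chain_arm_sub hM)).trans ?_
    refine PT_union_le.trans (add_le_add ?_ le_rfl)
    refine PT_union_le.trans (add_le_add ?_ le_rfl)
    exact PT_union_le
  rw [hq]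
  linarith

open Filter Topology in
/-- No percolation when the crossing probability of one long rectangle for the matching lattice
is close to one. -/
theorem fs_minus {p : I} {r : Bool} {m : ℕ} (hm : 1 ≤ m) (h : qc (σ p) (!r) m ≤ 1 / 242) :
    thT p r = 0 := by
  have h1 : ∀ k : ℕ, thT p r ≤ (1 / 2 : ℝ) ^ k := by
    intro k
    have hn : 1 ≤ 2 ^ k * m := Nat.one_le_iff_ne_zero.2 (by positivity)
    have h2 := (thT_le_ab p r (2 ^ k * m)).trans (chain_arm_le hn)
    have h3 := qc_iter hm h k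
    have h4 : (1 / 2 : ℝ) ^ (2 ^ k) ≤ (1 / 2) ^ k :=
      pow_le_pow_of_le_one (by norm_num) (by norm_num) (Nat.lt_two_pow_self).le
    have h5 : (0 : ℝ) ≤ (1 / 2 : ℝ) ^ (2 ^ k) := by positivity
    linarith
  have h2 : Tendsto (fun k : ℕ => (1 / 2 : ℝ) ^ k) atTop (𝓝 0) :=
    tendsto_pow_atTop_nhds_zero_of_lt_one (by norm_num) (by norm_num)
  have h3 : thT p r ≤ 0 := ge_of_tendsto h2 (Filter.Eventually.of_forall h1)
  exact le_antisymm h3 PT_nonneg

end Pool.Agent.H83.Site
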