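import Pool.Agent.H89.Perc.FKG
import Pool.Agent.H89.Perc.Russo

/-!
# Site percolation on the centred square lattice

The vertices of the centred lattice `T` are the sites `(x, y, false)` of `ℤ²` and the centres
`(x, y, true)` of the unit squares `[x, x + 1] × [y, y + 1]`. Sites are adjacent to their four
nearest neighbours and every centre is adjacent to the four corners of its square. This is a
triangulation of the plane. A configuration is a function `Edge → Bool` (`Edge = ℤ × ℤ × Bool`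
is used here as the set of vertices of `T`); `full r ω` is the configuration in which all centres
have the state `r`. Open paths of `full false ω` are nearest neighbour paths of open sites, open
paths of `full true ω` are paths of open sites with diagonal steps.
-/

set_option autoImplicit false

open MeasureTheory ProbabilityTheory unitInterval

namespace Pool.Agent.H83.Site

open Pool.Agent.H89.Perc

/-- Vertices of the centred lattice. -/
abbrev TV := Edge

/-- Twice the first coordinate of the position of a vertex. -/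
def fx (v : TV) : ℤ := 2 * v.1 + (if v.2.2 then 1 else 0)

/-- Twice the second coordinate of the position of a vertex. -/
def fy (v : TV) : ℤ := 2 * v.2.1 + (if v.2.2 then 1 else 0)

/-- Adjacency of the centred lattice. -/
def TAdj (u v : TV) : Prop :=
  (u.2.2 = false ∧ v.2.2 = false ∧
    ((u.1 = v.1 ∧ (u.2.1 = v.2.1 + 1 ∨ v.2.1 = u.2.1 + 1)) ∨
      (u.2.1 = v.2.1 ∧ (u.1 = v.1 + 1 ∨ v.1 = u.1 + 1)))) ∨
  (u.2.2 = false ∧ v.2.2 = true ∧ (u.1 = v.1 ∨ u.1 = v.1 + 1) ∧
    (u.2.1 = v.2.1 ∨ u.2.1 = v.2.1 + 1)) ∨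
  (u.2.2 = true ∧ v.2.2 = false ∧ (v.1 = u.1 ∨ v.1 = u.1 + 1) ∧
    (v.2.1 = u.2.1 ∨ v.2.1 = u.2.1 + 1))

/-- The vertices of `T` in the rectangle `[a, b] × [c, d]`. -/
def TR (a b c d : ℤ) : Set TV := {v | 2 * a ≤ fx v ∧ fx v ≤ 2 * b ∧ 2 * c ≤ fy v ∧ fy v ≤ 2 * d}

/-- One step between open vertices of `S`. -/
def TStep (η : Config) (S : Set TV) (u v : TV) : Prop :=
  u ∈ S ∧ v ∈ S ∧ TAdj u v ∧ η u = true ∧ η v = true

/-- `u` and `v` are joined by a path of open vertices of `S`. -/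
def TConn (η : Config) (S : Set TV) (u v : TV) : Prop :=
  u ∈ S ∧ η u = true ∧ Relation.ReflTransGen (TStep η S) u v

/-- The configuration with open and closed exchanged. -/
def neg (η : Config) : Config := fun v => !η v

/-- The configuration in which the centres have the state `r`. -/
def full (r : Bool) (ω : Config) : Config := fun v => if v.2.2 then r else ω v

/-- Open horizontal crossing of `[a, b] × [c, d]`. -/
def HC (η : Config) (a b c d : ℤ) : Prop :=
  ∃ y y' : ℤ, TConn η (TR a b c d) (a, y, false) (b, y', false)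

/-- Open vertical crossing of `[a, b] × [c, d]`. -/
def VC (η : Config) (a b c d : ℤ) : Prop :=
  ∃ x x' : ℤ, TConn η (TR a b c d) (x, c, false) (x', d, false)

/-- The probability of an event for the configuration `full r ω`, when the sites are open with
probability `p`. -/
noncomputable def PT (p : I) (r : Bool) (E : Set Config) : ℝ := Pr p {ω | full r ω ∈ E}

/-- The sites of the boundary of the square with centre `(x, y)` and half side `n`. -/
def sph (x y : ℤ) (n : ℕ) : Set TV :=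
  {v | v ∈ TR (x - n) (x + n) (y - n) (y + n) ∧ v.2.2 = false ∧
    (v.1 = x - n ∨ v.1 = x + n ∨ v.2.1 = y - n ∨ v.2.1 = y + n)}

/-- The square with centre `(x, y)` and half side `s` is joined to the boundary of the square with
half side `n`, inside the latter. -/
def AB (x y : ℤ) (s n : ℕ) : Set Config :=
  {η | ∃ u ∈ TR (x - s) (x + s) (y - s) (y + s), ∃ w ∈ sph x y n,
    TConn η (TR (x - n) (x + n) (y - n) (y + n)) u w}

/-- The probability that the square with half side `s` is joined to distance `n`. -/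
noncomputable def ab (p : I) (r : Bool) (s n : ℕ) : ℝ := PT p r (AB 0 0 s n)

/-- The probability that the origin is joined to all distances. -/
noncomputable def thT (p : I) (r : Bool) : ℝ := PT p r {η | ∀ n, η ∈ AB 0 0 0 n}

/-! ### Geometry -/

@[simp] theorem fx_site (x y : ℤ) : fx (x, y, false) = 2 * x := by simp [fx]
@[simp] theorem fy_site (x y : ℤ) : fy (x, y, false) = 2 * y := by simp [fy]
@[simp] theorem fx_cen (x y : ℤ) : fx (x, y, true) = 2 * x + 1 := by simp [fx]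
@[simp] theorem fy_cen (x y : ℤ) : fy (x, y, true) = 2 * y + 1 := by simp [fy]

theorem mem_TR {a b c d : ℤ} {v : TV} :
    v ∈ TR a b c d ↔ 2 * a ≤ fx v ∧ fx v ≤ 2 * b ∧ 2 * c ≤ fy v ∧ fy v ≤ 2 * d := Iff.rfl

theorem mem_TR_site {a b c d x y : ℤ} :
    (x, y, false) ∈ TR a b c d ↔ a ≤ x ∧ x ≤ b ∧ c ≤ y ∧ y ≤ d := by
  simp only [mem_TR, fx_site, fy_site]
  omega

theorem mem_TR_cen {a b c d x y : ℤ} :
    (x, y, true) ∈ TR a b c d ↔ a ≤ x ∧ x + 1 ≤ b ∧ c ≤ y ∧ y + 1 ≤ d := by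
  simp only [mem_TR, fx_cen, fy_cen]
  omega

theorem TR_mono {a b c d a' b' c' d' : ℤ} (h1 : a' ≤ a) (h2 : b ≤ b') (h3 : c' ≤ c)
    (h4 : d ≤ d') : TR a b c d ⊆ TR a' b' c' d' := by
  intro v hv
  rw [mem_TR] at hv ⊢
  omega

theorem fx_even {v : TV} (h : v.2.2 = false) : fx v = 2 * v.1 := by simp [fx, h]
theorem fy_even {v : TV} (h : v.2.2 = false) : fy v = 2 * v.2.1 := by simp [fy, h]
theorem fx_odd {v : TV} (h : v.2.2 = true) : fx v = 2 * v.1 + 1 := by simp [fx, h]
theorem fy_odd {v : TV} (h : v.2.2 = true) : fy v = 2 * v.2.1 + 1 := by simp [fy, h]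

theorem TAdj.symm {u v : TV} (h : TAdj u v) : TAdj v u := by
  unfold TAdj at h ⊢
  rcases h with ⟨h1, h2, h3⟩ | ⟨h1, h2, h3⟩ | ⟨h1, h2, h3⟩
  · left; refine ⟨h2, h1, ?_⟩; omega
  · right; right; exact ⟨h2, h1, h3⟩
  · right; left; exact ⟨h2, h1, h3⟩

/-- A step changes the coordinates by at most one (two in doubled coordinates), and it does not
jump over a line of sites. -/
theorem TAdj.fx_le {u v : TV} (h : TAdj u v) {a : ℤ} (hu : fx u < 2 * a) : fx v ≤ 2 * a := by
  unfold TAdj at h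
  rcases h with ⟨h1, h2, h3⟩ | ⟨h1, h2, h3⟩ | ⟨h1, h2, h3⟩
  · rw [fx_even h1] at hu; rw [fx_even h2]; omega
  · rw [fx_even h1] at hu; rw [fx_odd h2]; omega
  · rw [fx_odd h1] at hu; rw [fx_even h2]; omega

theorem TAdj.le_fx {u v : TV} (h : TAdj u v) {a : ℤ} (hu : 2 * a < fx u) : 2 * a ≤ fx v := by
  unfold TAdj at h
  rcases h with ⟨h1, h2, h3⟩ | ⟨h1, h2, h3⟩ | ⟨h1, h2, h3⟩
  · rw [fx_even h1] at hu; rw [fx_even h2]; omega
  · rw [fx_even h1] at hu; rw [fx_odd h2]; omega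
  · rw [fx_odd h1] at hu; rw [fx_even h2]; omega

theorem TAdj.fy_le {u v : TV} (h : TAdj u v) {a : ℤ} (hu : fy u < 2 * a) : fy v ≤ 2 * a := by
  unfold TAdj at h
  rcases h with ⟨h1, h2, h3⟩ | ⟨h1, h2, h3⟩ | ⟨h1, h2, h3⟩
  · rw [fy_even h1] at hu; rw [fy_even h2]; omega
  · rw [fy_even h1] at hu; rw [fy_odd h2]; omega
  · rw [fy_odd h1] at hu; rw [fy_even h2]; omega

theorem TAdj.le_fy {u v : TV} (h : TAdj u v) {a : ℤ} (hu : 2 * a < fy u) : 2 * a ≤ fy v := by
  unfold TAdj at h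
  rcases h with ⟨h1, h2, h3⟩ | ⟨h1, h2, h3⟩ | ⟨h1, h2, h3⟩
  · rw [fy_even h1] at hu; rw [fy_even h2]; omega
  · rw [fy_even h1] at hu; rw [fy_odd h2]; omega
  · rw [fy_odd h1] at hu; rw [fy_even h2]; omega

/-- A vertex with even doubled coordinate is a site. -/
theorem site_of_fx {v : TV} {a : ℤ} (h : fx v = 2 * a) : v.2.2 = false ∧ v.1 = a := by
  obtain ⟨x, y, b⟩ := v
  cases b
  · simp only [fx_site] at h; exact ⟨rfl, by simp only; omega⟩
  · simp only [fx_cen] at h; omega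

theorem site_of_fy {v : TV} {a : ℤ} (h : fy v = 2 * a) : v.2.2 = false ∧ v.2.1 = a := by
  obtain ⟨x, y, b⟩ := v
  cases b
  · simp only [fy_site] at h; exact ⟨rfl, by simp only; omega⟩
  · simp only [fy_cen] at h; omega

/-! ### Paths -/

variable {η η' : Config} {S T : Set TV} {u v w : TV}

theorem TStep.symm (h : TStep η S u v) : TStep η S v u :=
  ⟨h.2.1, h.1, h.2.2.1.symm, h.2.2.2.2, h.2.2.2.1⟩

theorem TStep.mono (hST : S ⊆ T) (hη : ∀ x ∈ S, η x = true → η' x = true) (h : TStep η S u v) :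
    TStep η' T u v :=
  ⟨hST h.1, hST h.2.1, h.2.2.1, hη _ h.1 h.2.2.2.1, hη _ h.2.1 h.2.2.2.2⟩

theorem TConn.refl (h : u ∈ S) (ho : η u = true) : TConn η S u u :=
  ⟨h, ho, Relation.ReflTransGen.refl⟩

theorem TConn.mem_left (h : TConn η S u v) : u ∈ S := h.1

theorem TConn.open_left (h : TConn η S u v) : η u = true := h.2.1

theorem TStep.conn (h : TStep η S u v) : TConn η S u v :=
  ⟨h.1, h.2.2.2.1, Relation.ReflTransGen.single h⟩

theorem TConn.mem_right (h : TConn η S u v) : v ∈ S := by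
  obtain ⟨h1, _, h2⟩ := h
  rcases Relation.ReflTransGen.cases_tail h2 with h3 | ⟨c, _, h3⟩
  · rw [h3]; exact h1
  · exact h3.2.1

theorem TConn.open_right (h : TConn η S u v) : η v = true := by
  obtain ⟨_, h1, h2⟩ := h
  rcases Relation.ReflTransGen.cases_tail h2 with h3 | ⟨c, _, h3⟩
  · rw [h3]; exact h1
  · exact h3.2.2.2.2

theorem TConn.trans (h1 : TConn η S u v) (h2 : TConn η S v w) : TConn η S u w :=
  ⟨h1.1, h1.2.1, h1.2.2.trans h2.2.2⟩

theorem TConn.tail (h1 : TConn η S u v) (h2 : TStep η S v w) : TConn η S u w := h1.trans h2.conn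

theorem TConn.symm (h : TConn η S u v) : TConn η S v u := by
  refine ⟨h.mem_right, h.open_right, ?_⟩
  obtain ⟨_, _, h2⟩ := h
  induction h2 with
  | refl => exact Relation.ReflTransGen.refl
  | tail _ hbc ih => exact Relation.ReflTransGen.head hbc.symm ih

theorem TConn.mono (hST : S ⊆ T) (hη : ∀ x ∈ S, η x = true → η' x = true) (h : TConn η S u v) :
    TConn η' T u v :=
  ⟨hST h.1, hη _ h.1 h.2.1, Relation.ReflTransGen.mono (fun _ _ hab => hab.mono hST hη) _ _ h.2.2⟩

theorem TConn.mono_set (hST : S ⊆ T) (h : TConn η S u v) : TConn η T u v :=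
  h.mono hST fun _ _ => id

/-- `TConn η S` only depends on the vertices of `S`. -/
theorem TConn.congr (h : ∀ x ∈ S, η x = η' x) (hc : TConn η S u v) : TConn η' S u v :=
  hc.mono le_rfl fun x hx ho => by rw [← h x hx]; exact ho

/-- Induction along a path. -/
theorem TConn.induction_right {P : TV → Prop} (h : TConn η S u v) (h0 : P u)
    (hs : ∀ a b, TConn η S u a → TStep η S a b → P a → P b) : P v := by
  obtain ⟨h1, h2, h3⟩ := h
  induction h3 with
  | refl => exact h0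
  | @tail b c hab hbc ih => exact hs b c ⟨h1, h2, hab⟩ hbc ih

/-- First exit from `T`. -/
theorem TConn.exists_exit (h : TConn η S u v) (hu : u ∈ T) (hv : v ∉ T) :
    ∃ w w', TConn η (S ∩ T) u w ∧ TStep η S w w' ∧ w' ∉ T ∧ TConn η S w' v := by
  obtain ⟨h1, h0, h2⟩ := h
  induction h2 using Relation.ReflTransGen.head_induction_on with
  | refl => exact absurd hu hv
  | @head a c hac hcv ih =>
    by_cases hc : c ∈ T
    · obtain ⟨w, w', h3, h4, h5, h6⟩ := ih hc hac.2.1 hac.2.2.2.2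
      refine ⟨w, w', ?_, h4, h5, h6⟩
      have : TStep η (S ∩ T) a c := ⟨⟨hac.1, hu⟩, ⟨hac.2.1, hc⟩, hac.2.2⟩
      exact this.conn.trans h3
    · exact ⟨a, c, TConn.refl ⟨h1, hu⟩ h0, hac, hc, ⟨hac.2.1, hac.2.2.2.2, hcv⟩⟩

/-- Last visit of `T`. -/
theorem TConn.exists_last (h : TConn η S u v) (hu : u ∈ T) (hv : v ∉ T) :
    ∃ w w', w ∈ T ∧ TConn η S u w ∧ TStep η S w w' ∧ TConn η (S \ T) w' v := by
  obtain ⟨w, w', h1, h2, h3, h4⟩ :=
    h.symm.exists_exit (T := Tᶜ) (by simpa using hv) (by simpa using hu)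
  refine ⟨w', w, by simpa using h3, h4.symm, h2.symm, ?_⟩
  have := h1.symm
  rwa [← Set.sdiff_eq] at this

/-- First hitting of `T`, when the path does not start in `T`. -/
theorem TConn.exists_hit (h : TConn η S u v) (hu : u ∉ T) (hv : v ∈ T) :
    ∃ w w', TConn η (S \ T) u w ∧ TStep η S w w' ∧ w' ∈ T ∧ TConn η S w' v := by
  obtain ⟨w, w', h1, h2, h3, h4⟩ :=
    h.exists_exit (T := Tᶜ) (by simpa using hu) (by simpa using hv)
  exact ⟨w, w', by rwa [Set.sdiff_eq], h2, by simpa using h3, h4⟩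

/-- Image of a path under a map of vertices. -/
theorem TConn.map (f : TV → TV) (hf : ∀ x ∈ S, f x ∈ T)
    (ho : ∀ x ∈ S, η x = true → η' (f x) = true)
    (hstep : ∀ a b, a ∈ S → b ∈ S → TAdj a b → TAdj (f a) (f b) ∨ f a = f b)
    (h : TConn η S u v) : TConn η' T (f u) (f v) := by
  refine h.induction_right (P := fun v => TConn η' T (f u) (f v))
    (TConn.refl (hf _ h.mem_left) (ho _ h.mem_left h.open_left)) ?_
  intro a b _ hab ih
  rcases hstep a b hab.1 hab.2.1 hab.2.2.1 with h1 | h1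
  · exact ih.tail ⟨hf _ hab.1, hf _ hab.2.1, h1, ho _ hab.1 hab.2.2.2.1,
      ho _ hab.2.1 hab.2.2.2.2⟩
  · rw [← h1]; exact ih

/-- Extraction of a horizontal crossing of the strip `a ≤ x ≤ b`. -/
theorem TConn.cross_x {a b : ℤ} (h : TConn η S u v) (hu : fx u ≤ 2 * a) (hv : 2 * b ≤ fx v)
    (hab : a ≤ b) : ∃ y y' : ℤ,
      TConn η (S ∩ {w | 2 * a ≤ fx w ∧ fx w ≤ 2 * b}) (a, y, false) (b, y', false) ∧
      TConn η S u (a, y, false) ∧ TConn η S (b, y', false) v := by
  have h1 : ∃ v' : TV, fx v' = 2 * b ∧ TConn η (S ∩ {w | fx w ≤ 2 * b}) u v' ∧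
      TConn η S v' v := by
    by_cases hub : fx u = 2 * b
    · exact ⟨u, hub, TConn.refl ⟨h.mem_left, by simp [hub]⟩ h.open_left, h⟩
    have hub' : fx u < 2 * b := lt_of_le_of_ne (hu.trans (by omega)) hub
    obtain ⟨w, w', h1, h2, h3, h4⟩ := h.exists_hit (T := {w | 2 * b ≤ fx w}) (by simpa using hub')
      (by simpa using hv)
    have h5 := h1.mem_right.2
    simp only [Set.mem_ofPred_eq, not_le] at h3 h5
    have h6 := h2.2.2.1.fx_le h5
    have h7 : fx w' = 2 * b := le_antisymm h6 h3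
    refine ⟨w', h7, ?_, h4⟩
    have h8 : TConn η (S ∩ {w | fx w ≤ 2 * b}) u w :=
      h1.mono_set fun x hx => ⟨hx.1, by
        have := hx.2; simp only [Set.mem_ofPred_eq, not_le] at this ⊢; omega⟩
    exact h8.tail ⟨h8.mem_right, ⟨h2.2.1, by simp [h7]⟩, h2.2.2⟩
  obtain ⟨v', hv', hc, hv'v⟩ := h1
  have hvs : v' = (b, v'.2.1, false) := by
    obtain ⟨h1, h2⟩ := site_of_fx hv'
    ext <;> simp [h1, h2]
  by_cases hab' : a = b
  · subst hab'
    refine ⟨v'.2.1, v'.2.1, ?_, ?_, ?_⟩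
    · rw [← hvs]; exact TConn.refl ⟨hc.mem_right.1, by simp [hv']⟩ hc.open_right
    · rw [← hvs]; exact hc.mono_set (fun x hx => hx.1)
    · rw [← hvs]; exact hv'v
  have hlt : a < b := lt_of_le_of_ne hab hab'
  obtain ⟨w, w', h1, h2, h3, h4⟩ := hc.exists_last (T := {w | fx w ≤ 2 * a}) (by simpa using hu)
    (by simp [hv']; omega)
  have h5 := h4.mem_left.2
  simp only [Set.mem_ofPred_eq, not_le] at h1 h5
  have h6 := h3.2.2.1.symm.le_fx h5
  have h7 : fx w = 2 * a := le_antisymm h1 h6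
  have hws : w = (a, w.2.1, false) := by
    obtain ⟨h1, h2⟩ := site_of_fx h7
    ext <;> simp [h1, h2]
  refine ⟨w.2.1, v'.2.1, ?_, ?_, ?_⟩
  · rw [← hws, ← hvs]
    have h8 : TConn η (S ∩ {w | 2 * a ≤ fx w ∧ fx w ≤ 2 * b}) w' v' :=
      h4.mono_set fun x hx => ⟨hx.1.1, by
        have := hx.2; have h9 := hx.1.2
        simp only [Set.mem_ofPred_eq, not_le] at this h9 ⊢; omega⟩
    have h9 : TStep η (S ∩ {w | 2 * a ≤ fx w ∧ fx w ≤ 2 * b}) w w' :=
      ⟨⟨h3.1.1, by simp only [Set.mem_ofPred_eq]; omega⟩, h8.mem_left, h3.2.2⟩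
    exact h9.conn.trans h8
  · rw [← hws]; exact h2.mono_set (fun x hx => hx.1)
  · rw [← hvs]; exact hv'v

/-- Extraction of a vertical crossing of the strip `c ≤ y ≤ d`. -/
theorem TConn.cross_y {c d : ℤ} (h : TConn η S u v) (hu : fy u ≤ 2 * c) (hv : 2 * d ≤ fy v)
    (hcd : c ≤ d) : ∃ x x' : ℤ,
      TConn η (S ∩ {w | 2 * c ≤ fy w ∧ fy w ≤ 2 * d}) (x, c, false) (x', d, false) ∧
      TConn η S u (x, c, false) ∧ TConn η S (x', d, false) v := by
  have h1 : ∃ v' : TV, fy v' = 2 * d ∧ TConn η (S ∩ {w | fy w ≤ 2 * d}) u v' ∧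
      TConn η S v' v := by
    by_cases hub : fy u = 2 * d
    · exact ⟨u, hub, TConn.refl ⟨h.mem_left, by simp [hub]⟩ h.open_left, h⟩
    have hub' : fy u < 2 * d := lt_of_le_of_ne (hu.trans (by omega)) hub
    obtain ⟨w, w', h1, h2, h3, h4⟩ := h.exists_hit (T := {w | 2 * d ≤ fy w}) (by simpa using hub')
      (by simpa using hv)
    have h5 := h1.mem_right.2
    simp only [Set.mem_ofPred_eq, not_le] at h3 h5
    have h6 := h2.2.2.1.fy_le h5
    have h7 : fy w' = 2 * d := le_antisymm h6 h3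
    refine ⟨w', h7, ?_, h4⟩
    have h8 : TConn η (S ∩ {w | fy w ≤ 2 * d}) u w :=
      h1.mono_set fun x hx => ⟨hx.1, by
        have := hx.2; simp only [Set.mem_ofPred_eq, not_le] at this ⊢; omega⟩
    exact h8.tail ⟨h8.mem_right, ⟨h2.2.1, by simp [h7]⟩, h2.2.2⟩
  obtain ⟨v', hv', hc, hv'v⟩ := h1
  have hvs : v' = (v'.1, d, false) := by
    obtain ⟨h1, h2⟩ := site_of_fy hv'
    ext <;> simp [h1, h2]
  by_cases hab' : c = d
  · subst hab'
    refine ⟨v'.1, v'.1, ?_, ?_, ?_⟩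
    · rw [← hvs]; exact TConn.refl ⟨hc.mem_right.1, by simp [hv']⟩ hc.open_right
    · rw [← hvs]; exact hc.mono_set (fun x hx => hx.1)
    · rw [← hvs]; exact hv'v
  have hlt : c < d := lt_of_le_of_ne hcd hab'
  obtain ⟨w, w', h1, h2, h3, h4⟩ := hc.exists_last (T := {w | fy w ≤ 2 * c}) (by simpa using hu)
    (by simp [hv']; omega)
  have h5 := h4.mem_left.2
  simp only [Set.mem_ofPred_eq, not_le] at h1 h5
  have h6 := h3.2.2.1.symm.le_fy h5
  have h7 : fy w = 2 * c := le_antisymm h1 h6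
  have hws : w = (w.1, c, false) := by
    obtain ⟨h1, h2⟩ := site_of_fy h7
    ext <;> simp [h1, h2]
  refine ⟨w.1, v'.1, ?_, ?_, ?_⟩
  · rw [← hws, ← hvs]
    have h8 : TConn η (S ∩ {w | 2 * c ≤ fy w ∧ fy w ≤ 2 * d}) w' v' :=
      h4.mono_set fun x hx => ⟨hx.1.1, by
        have := hx.2; have h9 := hx.1.2
        simp only [Set.mem_ofPred_eq, not_le] at this h9 ⊢; omega⟩
    have h9 : TStep η (S ∩ {w | 2 * c ≤ fy w ∧ fy w ≤ 2 * d}) w w' :=
      ⟨⟨h3.1.1, by simp only [Set.mem_ofPred_eq]; omega⟩, h8.mem_left, h3.2.2⟩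
    exact h9.conn.trans h8
  · rw [← hws]; exact h2.mono_set (fun x hx => hx.1)
  · rw [← hvs]; exact hv'v

theorem TR_inter_x {a b c d a' b' : ℤ} (ha : a ≤ a') (hb : b' ≤ b) :
    TR a b c d ∩ {w | 2 * a' ≤ fx w ∧ fx w ≤ 2 * b'} = TR a' b' c d := by
  ext w
  simp only [Set.mem_inter_iff, mem_TR, Set.mem_ofPred_eq]
  omega

theorem TR_inter_y {a b c d c' d' : ℤ} (hc : c ≤ c') (hd : d' ≤ d) :
    TR a b c d ∩ {w | 2 * c' ≤ fy w ∧ fy w ≤ 2 * d'} = TR a b c' d' := by
  ext w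
  simp only [Set.mem_inter_iff, mem_TR, Set.mem_ofPred_eq]
  omega

/-- A horizontal crossing contains a horizontal crossing of a shorter and higher rectangle. -/
theorem HC.mono {η : Config} {a b c d a' b' c' d' : ℤ} (h : HC η a b c d) (ha : a ≤ a')
    (hab : a' ≤ b') (hb : b' ≤ b) (hc : c' ≤ c) (hd : d ≤ d') : HC η a' b' c' d' := by
  obtain ⟨y, y', h⟩ := h
  obtain ⟨z, z', h1, -, -⟩ := h.cross_x (a := a') (b := b') (by simp only [fx_site]; omega)
    (by simp only [fx_site]; omega) hab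
  rw [TR_inter_x ha hb] at h1
  exact ⟨z, z', h1.mono_set (TR_mono le_rfl le_rfl hc hd)⟩

theorem VC.mono {η : Config} {a b c d a' b' c' d' : ℤ} (h : VC η a b c d) (ha : a' ≤ a)
    (hb : b ≤ b') (hc : c ≤ c') (hcd : c' ≤ d') (hd : d' ≤ d) : VC η a' b' c' d' := by
  obtain ⟨x, x', h⟩ := h
  obtain ⟨z, z', h1, -, -⟩ := h.cross_y (c := c') (d := d') (by simp only [fy_site]; omega)
    (by simp only [fy_site]; omega) hcd
  rw [TR_inter_y hc hd] at h1
  exact ⟨z, z', h1.mono_set (TR_mono ha hb le_rfl le_rfl)⟩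

theorem neg_neg' (η : Config) : neg (neg η) = η := by funext v; simp [neg]

theorem neg_full (r : Bool) (ω : Config) : neg (full r ω) = full (!r) (neg ω) := by
  funext v
  simp only [neg, full]
  split <;> rfl

end Pool.Agent.H83.Site
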