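import Pool.Agent.H83.Site.Defs
import Pool.Agent.H89.Perc.Z2

/-! # Duality: an open horizontal or a closed vertical crossing exists -/

set_option autoImplicit false

namespace Pool.Agent.H83.Site

open Pool.Agent.H89.Perc

private lemma dualE_conn {η η' : Config} {S T : Set TV} {u v : TV}
    (h : ∀ x ∈ S, η x = true → x ∈ T ∧ η' x = true) (hc : TConn η S u v) : TConn η' T u v := by
  have h0 := h _ hc.mem_left hc.open_left
  refine hc.induction_right (P := fun v => TConn η' T u v) (TConn.refl h0.1 h0.2) ?_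
  intro a b _ hs ih
  have h1 := h _ hs.1 hs.2.2.2.1
  have h2 := h _ hs.2.1 hs.2.2.2.2
  exact ih.tail ⟨h1.1, h2.1, hs.2.2.1, h1.2, h2.2⟩

/-- The configuration extended by an open column on the left and closed rows at the bottom and at
the top. -/
private def dualEExt (η : Config) (a b c d : ℤ) : Config := fun v =>
  if 2 * a ≤ fx v ∧ fx v ≤ 2 * b ∧ 2 * c ≤ fy v ∧ fy v ≤ 2 * d then η v
  else decide (fx v < 2 * a ∧ 2 * c ≤ fy v ∧ fy v ≤ 2 * d)

open Classical in
private noncomputable def dualEInd (A : Set TV) (v : TV) : ZMod 2 := if v ∈ A then 1 else 0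

private noncomputable def dualEK (A B : Set TV) (u v : TV) : ZMod 2 :=
  dualEInd A u * dualEInd B v + dualEInd B u * dualEInd A v

private lemma dualE_tri {A B R : Set TV} (hAB : ∀ v, v ∈ A → v ∉ B)
    (hcl : ∀ u v w, w ∈ R → TAdj u w → TAdj v w → u ∈ A → v ∈ B → w ∈ A ∨ w ∈ B)
    {u v w : TV} (hu : u ∈ R) (hv : v ∈ R) (hw : w ∈ R) (huv : TAdj u v) (hvw : TAdj v w)
    (huw : TAdj u w) : dualEK A B u v + dualEK A B v w + dualEK A B u w = 0 := by
  have h1 := hcl u v w hw huw hvw
  have h2 := hcl v u w hw hvw huw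
  have h3 := hcl u w v hv huv hvw.symm
  have h4 := hcl w u v hv hvw.symm huv
  have h5 := hcl v w u hu huv.symm huw.symm
  have h6 := hcl w v u hu huw.symm huv.symm
  have h7 := hAB u
  have h8 := hAB v
  have h9 := hAB w
  have two : (1 : ZMod 2) + 1 = 0 := by decide
  unfold dualEK dualEInd
  by_cases a1 : u ∈ A <;> by_cases a2 : v ∈ A <;> by_cases a3 : w ∈ A <;>
    by_cases b1 : u ∈ B <;> by_cases b2 : v ∈ B <;> by_cases b3 : w ∈ B <;>
    simp only [a1, a2, a3, b1, b2, b3, not_true_eq_false, not_false_eq_true, if_true, if_false,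
      forall_true_left, or_false, or_true, mul_one, mul_zero, add_zero, zero_add, two] at *

theorem hc_or_vc {a b c d : ℤ} (hab : a ≤ b) (hcd : c ≤ d) (η : Config) :
    HC η a b c d ∨ VC (neg η) a b c d := by
  by_contra hcon
  push Not at hcon
  obtain ⟨hH, hV⟩ := hcon
  set R : Set TV := TR (a - 1) b (c - 1) (d + 1) with hR
  set η' : Config := dualEExt η a b c d with hη'
  set A : Set TV := {v | ∃ y, c ≤ y ∧ y ≤ d ∧ TConn η' R (a - 1, y, false) v} with hA
  set B : Set TV := {v | ∃ x, a - 1 ≤ x ∧ x ≤ b ∧ TConn (neg η') R (x, c - 1, false) v} with hB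
  have hAo : ∀ v ∈ A, η' v = true := by
    rintro v ⟨y, _, _, h⟩
    exact h.open_right
  have hBc : ∀ v ∈ B, η' v = false := by
    rintro v ⟨x, _, _, h⟩
    have := h.open_right
    simpa [neg] using this
  have hdis : ∀ v, v ∈ A → v ∉ B := by
    intro v h1 h2
    have h3 := hAo v h1
    rw [hBc v h2] at h3
    exact absurd h3 (by decide)
  have hcl : ∀ u v w, w ∈ R → TAdj u w → TAdj v w → u ∈ A → v ∈ B → w ∈ A ∨ w ∈ B := by
    intro u v w hw huw hvw hu hv
    by_cases ho : η' w = true
    · left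
      obtain ⟨y, h1, h2, h3⟩ := hu
      exact ⟨y, h1, h2, h3.tail ⟨h3.mem_right, hw, huw, h3.open_right, ho⟩⟩
    · right
      obtain ⟨x, h1, h2, h3⟩ := hv
      exact ⟨x, h1, h2, h3.tail ⟨h3.mem_right, hw, hvw, h3.open_right, by simpa [neg] using ho⟩⟩
  -- the left column is in `A`, the bottom row in `B`
  have hleft : ∀ y, c ≤ y → y ≤ d → ((a - 1, y, false) : TV) ∈ A := by
    intro y h1 h2
    refine ⟨y, h1, h2, TConn.refl ?_ ?_⟩
    · rw [hR, mem_TR_site]
      omega
    · rw [hη']
      unfold dualEExt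
      rw [fx_site, fy_site, if_neg (by omega), decide_eq_true_eq]
      omega
  have hbot : ∀ x, a - 1 ≤ x → x ≤ b → ((x, c - 1, false) : TV) ∈ B := by
    intro x h1 h2
    refine ⟨x, h1, h2, TConn.refl ?_ ?_⟩
    · rw [hR, mem_TR_site]
      omega
    · rw [hη']
      unfold neg dualEExt
      rw [fx_site, fy_site, if_neg (by omega), decide_eq_false (by omega)]
      rfl
  -- the top row is closed and not in `B`, the right column is not in `A`
  have htopc : ∀ x, ((x, d + 1, false) : TV) ∉ A := by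
    intro x h
    have h1 := hAo _ h
    rw [hη'] at h1
    unfold dualEExt at h1
    rw [fx_site, fy_site, if_neg (by omega), decide_eq_true_eq] at h1
    omega
  have htop : ∀ x, ((x, d + 1, false) : TV) ∉ B := by
    rintro x ⟨x0, h1, h2, h3⟩
    obtain ⟨x1, x2, h4, -, -⟩ := h3.cross_y (c := c) (d := d) (by rw [fy_site]; omega)
      (by rw [fy_site]; omega) hcd
    refine hV ⟨x1, x2, dualE_conn ?_ h4⟩
    rintro v ⟨hv1, hv2, hv3⟩ hvo
    rw [hR, mem_TR] at hv1
    simp only [neg, hη', dualEExt] at hvo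
    split_ifs at hvo with h5
    · exact ⟨h5, hvo⟩
    · exfalso
      rw [decide_eq_true (by omega)] at hvo
      exact absurd hvo (by decide)
  have hright : ∀ y, ((b, y, false) : TV) ∉ A := by
    rintro y ⟨y0, h1, h2, h3⟩
    obtain ⟨y1, y2, h4, -, -⟩ := h3.cross_x (a := a) (b := b) (by rw [fx_site]; omega)
      (by rw [fx_site]) hab
    refine hH ⟨y1, y2, dualE_conn ?_ h4⟩
    rintro v ⟨hv1, hv2, hv3⟩ hvo
    rw [hR, mem_TR] at hv1
    simp only [hη', dualEExt] at hvo
    split_ifs at hvo with h5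
    · exact ⟨h5, hvo⟩
    · exfalso
      rw [decide_eq_false (by omega)] at hvo
      exact absurd hvo (by decide)
  -- integration
  obtain ⟨W, hW⟩ := integRect (a := a - 1) (b := b) (c := c - 1) (d := d + 1)
    (fun e => dualEK A B ((src e).1, (src e).2, false) ((tgt e).1, (tgt e).2, false)) (by
      rintro ⟨x, y⟩ ⟨h1, h2, h3, h4⟩
      simp only at h1 h2 h3 h4
      have m0 : ((x, y, true) : TV) ∈ R := by rw [hR, mem_TR_cen]; omega
      have m1 : ((x, y, false) : TV) ∈ R := by rw [hR, mem_TR_site]; omega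
      have m2 : ((x + 1, y, false) : TV) ∈ R := by rw [hR, mem_TR_site]; omega
      have m3 : ((x + 1, y + 1, false) : TV) ∈ R := by rw [hR, mem_TR_site]; omega
      have m4 : ((x, y + 1, false) : TV) ∈ R := by rw [hR, mem_TR_site]; omega
      have t1 := dualE_tri hdis hcl m1 m2 m0 (by simp [TAdj]) (by simp [TAdj]) (by simp [TAdj])
      have t2 := dualE_tri hdis hcl m2 m3 m0 (by simp [TAdj]) (by simp [TAdj]) (by simp [TAdj])
      have t3 := dualE_tri hdis hcl m4 m3 m0 (by simp [TAdj]) (by simp [TAdj]) (by simp [TAdj])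
      have t4 := dualE_tri hdis hcl m1 m4 m0 (by simp [TAdj]) (by simp [TAdj]) (by simp [TAdj])
      simp only [fsum, src, tgt, Bool.false_eq_true, if_false, if_true]
      linear_combination t1 + t2 + t3 + t4
        - z2_add_self (dualEK A B (x, y, false) (x, y, true))
        - z2_add_self (dualEK A B (x + 1, y, false) (x, y, true))
        - z2_add_self (dualEK A B (x + 1, y + 1, false) (x, y, true))
        - z2_add_self (dualEK A B (x, y + 1, false) (x, y, true)))
  have hver : ∀ x y, a - 1 ≤ x → x ≤ b → c - 1 ≤ y → y + 1 ≤ d + 1 →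
      dualEK A B (x, y, false) (x, y + 1, false) = 0 → W (x, y) = W (x, y + 1) := by
    intro x y h1 h2 h3 h4 h5
    have := hW (x, y, true) ⟨h1, h2, h3, by simp only [src]; omega⟩
      ⟨by simpa [tgt] using h1, by simpa [tgt] using h2, by simp only [tgt, if_true]; omega,
        by simp only [tgt, if_true]; omega⟩
    simp only [src, tgt, if_true] at this
    rw [h5] at this
    exact z2_add_eq_zero.1 this.symm
  have hhor : ∀ x y, a - 1 ≤ x → x + 1 ≤ b → c - 1 ≤ y → y ≤ d + 1 →
      dualEK A B (x, y, false) (x + 1, y, false) = 0 → W (x, y) = W (x + 1, y) := by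
    intro x y h1 h2 h3 h4 h5
    have := hW (x, y, false) ⟨h1, by simp only [src]; omega, h3, h4⟩
      ⟨by simp only [tgt, Bool.false_eq_true, if_false]; omega,
        by simpa [tgt] using h2, by simpa [tgt] using h3, by simpa [tgt] using h4⟩
    simp only [src, tgt, Bool.false_eq_true, if_false] at this
    rw [h5] at this
    exact z2_add_eq_zero.1 this.symm
  have hK : ∀ u v, (u ∉ A ∨ v ∉ B) → (u ∉ B ∨ v ∉ A) → dualEK A B u v = 0 := by
    intro u v h1 h2
    unfold dualEK dualEInd
    rcases h1 with h1 | h1 <;> rcases h2 with h2 | h2 <;> simp [h1, h2]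
  have e1 : W (a - 1, c) = W (a - 1, d) := const_col (f := W) hcd fun y h1 h2 =>
    hver (a - 1) y le_rfl (by omega) (by omega) (by omega)
      (hK _ _ (Or.inr (hdis _ (hleft (y + 1) (by omega) (by omega))))
        (Or.inl (hdis _ (hleft y h1 (by omega)))))
  have e2 : W (a - 1, d) = W (a - 1, d + 1) :=
    hver (a - 1) d le_rfl (by omega) (by omega) (by omega)
      (hK _ _ (Or.inr (htop _)) (Or.inl (hdis _ (hleft d hcd le_rfl))))
  have e3 : W (a - 1, d + 1) = W (b, d + 1) := const_row (f := W) (by omega) fun x h1 h2 =>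
    hhor x (d + 1) h1 (by omega) (by omega) le_rfl (hK _ _ (Or.inl (htopc _)) (Or.inl (htop _)))
  have e4 : W (b, c - 1) = W (b, d + 1) := const_col (f := W) (by omega) fun y h1 h2 =>
    hver b y (by omega) le_rfl h1 (by omega) (hK _ _ (Or.inl (hright _)) (Or.inr (hright _)))
  have e5 : W (a - 1, c - 1) = W (b, c - 1) := const_row (f := W) (by omega) fun x h1 h2 =>
    hhor x (c - 1) h1 (by omega) le_rfl (by omega)
      (hK _ _ (Or.inl fun h => hdis _ h (hbot x h1 (by omega)))
        (Or.inr fun h => hdis _ h (hbot (x + 1) (by omega) (by omega))))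
  have hfin : W (a - 1, c - 1) = W (a - 1, c) := by rw [e1, e2, e3, ← e4, ← e5]
  have h1 := hW (a - 1, c - 1, true)
    ⟨by simp only [src]; omega, by simp only [src]; omega, by simp only [src]; omega,
      by simp only [src]; omega⟩
    ⟨by simp only [tgt, if_true]; omega, by simp only [tgt, if_true]; omega,
      by simp only [tgt, if_true]; omega, by simp only [tgt, if_true]; omega⟩
  simp only [src, tgt, if_true, sub_add_cancel] at h1
  rw [hfin, z2_add_self] at h1
  have m1 := hbot (a - 1) le_rfl (by omega)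
  have m2 := hleft c le_rfl hcd
  have m3 := hdis _ m2
  have m4 : ((a - 1, c - 1, false) : TV) ∉ A := fun h => hdis _ h m1
  unfold dualEK dualEInd at h1
  rw [if_neg m4, if_neg m3, if_pos m1, if_pos m2] at h1
  exact absurd h1 (by decide)

end Pool.Agent.H83.Site
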