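import Pool.Agent.H83.Site.Defs
import Pool.Agent.H89.Perc.Cross

/-! # Duality: open horizontal and closed vertical crossings do not coexist

The centred lattice `T` is drawn in the square lattice `ℤ²`, scaled by 3: the site `(x, y)` at
`(3 x, 3 y)` and the centre `(x, y)` at `(3 x + 1, 3 y + 1)`. Every vertex of the fine lattice has a
label, a vertex of `T`, such that every edge `u v` of `T` is drawn as a path of vertices with the
labels `u` and `v`. An open horizontal and a closed vertical crossing give two paths in the fine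
lattice which cross (`Pool.Agent.H89.Perc.cross`), in a vertex whose label is both open and closed.
-/

set_option autoImplicit false

namespace Pool.Agent.H83.Site

open Pool.Agent.H89.Perc

/-- The label of a vertex of the fine lattice. -/
private def lab (p : Vert) : TV :=
  if p.2 % 3 = 0 then ((p.1 + 1) / 3, p.2 / 3, false)
  else if p.1 % 3 = 0 then (p.1 / 3, (p.2 + 1) / 3, false)
  else (p.1 / 3, p.2 / 3, true)

private lemma lab_row {m n x y : ℤ} (hn : n = 3 * y) (h1 : 3 * x - 1 ≤ m) (h2 : m ≤ 3 * x + 1) :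
    lab (m, n) = (x, y, false) := by
  unfold lab
  simp only
  rw [if_pos (by omega)]
  refine Prod.ext ?_ (Prod.ext ?_ rfl) <;> simp only <;> omega

private lemma lab_col {m n x y : ℤ} (hm : m = 3 * x) (h1 : 3 * y - 1 ≤ n) (h2 : n ≤ 3 * y + 1) :
    lab (m, n) = (x, y, false) := by
  by_cases h : n = 3 * y
  · exact lab_row h (by omega) (by omega)
  · unfold lab
    simp only
    rw [if_neg (by omega), if_pos (by omega)]
    refine Prod.ext ?_ (Prod.ext ?_ rfl) <;> simp only <;> omega

private lemma lab_cen {m n x y : ℤ} (h1 : 3 * x + 1 ≤ m) (h2 : m ≤ 3 * x + 2)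
    (h3 : 3 * y + 1 ≤ n) (h4 : n ≤ 3 * y + 2) : lab (m, n) = (x, y, true) := by
  unfold lab
  simp only
  rw [if_neg (by omega), if_neg (by omega)]
  refine Prod.ext ?_ (Prod.ext ?_ rfl) <;> simp only <;> omega

/-- The position of a vertex of `T` in the fine lattice. -/
private def pos (v : TV) : Vert := if v.2.2 then (3 * v.1 + 1, 3 * v.2.1 + 1) else (3 * v.1, 3 * v.2.1)

/-- The bonds of the fine lattice between vertices with open labels. -/
private def fine (η : Config) : Config := fun e => η (lab (src e)) && η (lab (tgt e))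

private lemma fine_h {η : Config} {S : Set Vert} {m n m' : ℤ} (hm : m' = m + 1)
    (h1 : (m, n) ∈ S) (h2 : (m', n) ∈ S) (h3 : η (lab (m, n)) = true)
    (h4 : η (lab (m', n)) = true) : Conn (fine η) S (m, n) (m', n) := by
  subst hm
  refine Step.conn ⟨h1, h2, (m, n, false), Or.inl ⟨?_, ?_⟩, ?_⟩
  · simp [src]
  · simp [tgt]
  · simp [fine, src, tgt, h3, h4]

private lemma fine_v {η : Config} {S : Set Vert} {m n n' : ℤ} (hn : n' = n + 1)
    (h1 : (m, n) ∈ S) (h2 : (m, n') ∈ S) (h3 : η (lab (m, n)) = true)
    (h4 : η (lab (m, n')) = true) : Conn (fine η) S (m, n) (m, n') := by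
  subst hn
  refine Step.conn ⟨h1, h2, (m, n, true), Or.inl ⟨?_, ?_⟩, ?_⟩
  · simp [src]
  · simp [tgt]
  · simp [fine, src, tgt, h3, h4]

/-- Labels along fine paths are open. -/
private lemma fine_open {η : Config} {S : Set Vert} {p q : Vert} (h : Conn (fine η) S p q)
    (hp : η (lab p) = true) : η (lab q) = true := by
  refine h.induction_right (P := fun q => η (lab q) = true) hp ?_
  rintro a b _ ⟨_, _, e, he, ho⟩ _
  simp only [fine, Bool.and_eq_true] at ho
  rcases he with ⟨h1, h2⟩ | ⟨h1, h2⟩
  · rw [h2]; exact ho.2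
  · rw [h2]; exact ho.1

private lemma fine_ss_h {η : Config} {a b c d x y : ℤ} (hu : (x, y, false) ∈ TR a b c d)
    (hv : (x + 1, y, false) ∈ TR a b c d) (ou : η (x, y, false) = true)
    (ov : η (x + 1, y, false) = true) :
    Conn (fine η) (rect (3 * a) (3 * b) (3 * c) (3 * d)) (3 * x, 3 * y) (3 * (x + 1), 3 * y) := by
  rw [mem_TR_site] at hu hv
  have l0 : η (lab (3 * x, 3 * y)) = true := by
    rw [lab_row (x := x) (y := y) rfl (by omega) (by omega)]; exact ou
  have l1 : η (lab (3 * x + 1, 3 * y)) = true := by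
    rw [lab_row (x := x) (y := y) rfl (by omega) (by omega)]; exact ou
  have l2 : η (lab (3 * x + 2, 3 * y)) = true := by
    rw [lab_row (x := x + 1) (y := y) rfl (by omega) (by omega)]; exact ov
  have l3 : η (lab (3 * (x + 1), 3 * y)) = true := by
    rw [lab_row (x := x + 1) (y := y) rfl (by omega) (by omega)]; exact ov
  have m0 : ((3 * x, 3 * y) : Vert) ∈ rect (3 * a) (3 * b) (3 * c) (3 * d) := by
    simp only [rect, Set.mem_ofPred_eq]; omega
  have m1 : ((3 * x + 1, 3 * y) : Vert) ∈ rect (3 * a) (3 * b) (3 * c) (3 * d) := by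
    simp only [rect, Set.mem_ofPred_eq]; omega
  have m2 : ((3 * x + 2, 3 * y) : Vert) ∈ rect (3 * a) (3 * b) (3 * c) (3 * d) := by
    simp only [rect, Set.mem_ofPred_eq]; omega
  have m3 : ((3 * (x + 1), 3 * y) : Vert) ∈ rect (3 * a) (3 * b) (3 * c) (3 * d) := by
    simp only [rect, Set.mem_ofPred_eq]; omega
  exact ((fine_h (by ring) m0 m1 l0 l1).trans (fine_h (by ring) m1 m2 l1 l2)).trans
    (fine_h (by ring) m2 m3 l2 l3)

private lemma fine_ss_v {η : Config} {a b c d x y : ℤ} (hu : (x, y, false) ∈ TR a b c d)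
    (hv : (x, y + 1, false) ∈ TR a b c d) (ou : η (x, y, false) = true)
    (ov : η (x, y + 1, false) = true) :
    Conn (fine η) (rect (3 * a) (3 * b) (3 * c) (3 * d)) (3 * x, 3 * y) (3 * x, 3 * (y + 1)) := by
  rw [mem_TR_site] at hu hv
  have l0 : η (lab (3 * x, 3 * y)) = true := by
    rw [lab_col (x := x) (y := y) rfl (by omega) (by omega)]; exact ou
  have l1 : η (lab (3 * x, 3 * y + 1)) = true := by
    rw [lab_col (x := x) (y := y) rfl (by omega) (by omega)]; exact ou
  have l2 : η (lab (3 * x, 3 * y + 2)) = true := by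
    rw [lab_col (x := x) (y := y + 1) rfl (by omega) (by omega)]; exact ov
  have l3 : η (lab (3 * x, 3 * (y + 1))) = true := by
    rw [lab_col (x := x) (y := y + 1) rfl (by omega) (by omega)]; exact ov
  have m0 : ((3 * x, 3 * y) : Vert) ∈ rect (3 * a) (3 * b) (3 * c) (3 * d) := by
    simp only [rect, Set.mem_ofPred_eq]; omega
  have m1 : ((3 * x, 3 * y + 1) : Vert) ∈ rect (3 * a) (3 * b) (3 * c) (3 * d) := by
    simp only [rect, Set.mem_ofPred_eq]; omega
  have m2 : ((3 * x, 3 * y + 2) : Vert) ∈ rect (3 * a) (3 * b) (3 * c) (3 * d) := by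
    simp only [rect, Set.mem_ofPred_eq]; omega
  have m3 : ((3 * x, 3 * (y + 1)) : Vert) ∈ rect (3 * a) (3 * b) (3 * c) (3 * d) := by
    simp only [rect, Set.mem_ofPred_eq]; omega
  exact ((fine_v (by ring) m0 m1 l0 l1).trans (fine_v (by ring) m1 m2 l1 l2)).trans
    (fine_v (by ring) m2 m3 l2 l3)

/-- The edges between a centre and the four corners of its square. -/
private lemma fine_sc {η : Config} {a b c d x y x' y' : ℤ} (hx : x' = x ∨ x' = x + 1)
    (hy : y' = y ∨ y' = y + 1) (hu : (x', y', false) ∈ TR a b c d)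
    (hv : (x, y, true) ∈ TR a b c d) (ou : η (x', y', false) = true)
    (ov : η (x, y, true) = true) :
    Conn (fine η) (rect (3 * a) (3 * b) (3 * c) (3 * d)) (3 * x', 3 * y')
      (3 * x + 1, 3 * y + 1) := by
  rw [mem_TR_site] at hu
  rw [mem_TR_cen] at hv
  -- the four vertices inside the square
  have li : ∀ m n : ℤ, 3 * x + 1 ≤ m → m ≤ 3 * x + 2 → 3 * y + 1 ≤ n → n ≤ 3 * y + 2 →
      η (lab (m, n)) = true := by
    intro m n h1 h2 h3 h4
    rw [lab_cen h1 h2 h3 h4]; exact ov
  have mi : ∀ m n : ℤ, 3 * x ≤ m → m ≤ 3 * x + 3 → 3 * y ≤ n → n ≤ 3 * y + 3 →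
      ((m, n) : Vert) ∈ rect (3 * a) (3 * b) (3 * c) (3 * d) := by
    intro m n h1 h2 h3 h4
    simp only [rect, Set.mem_ofPred_eq]; omega
  -- paths between the vertices inside the square
  have c00 : Conn (fine η) (rect (3 * a) (3 * b) (3 * c) (3 * d)) (3 * x + 1, 3 * y + 1)
      (3 * x + 1, 3 * y + 1) := Conn.refl (mi _ _ (by omega) (by omega) (by omega) (by omega))
  have c10 : Conn (fine η) (rect (3 * a) (3 * b) (3 * c) (3 * d)) (3 * x + 2, 3 * y + 1)
      (3 * x + 1, 3 * y + 1) :=
    (fine_h (by ring) (mi _ _ (by omega) (by omega) (by omega) (by omega))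
      (mi _ _ (by omega) (by omega) (by omega) (by omega))
      (li _ _ (by omega) (by omega) (by omega) (by omega))
      (li _ _ (by omega) (by omega) (by omega) (by omega))).symm
  have c01 : Conn (fine η) (rect (3 * a) (3 * b) (3 * c) (3 * d)) (3 * x + 1, 3 * y + 2)
      (3 * x + 1, 3 * y + 1) :=
    (fine_v (by ring) (mi _ _ (by omega) (by omega) (by omega) (by omega))
      (mi _ _ (by omega) (by omega) (by omega) (by omega))
      (li _ _ (by omega) (by omega) (by omega) (by omega))
      (li _ _ (by omega) (by omega) (by omega) (by omega))).symm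
  have c11 : Conn (fine η) (rect (3 * a) (3 * b) (3 * c) (3 * d)) (3 * x + 2, 3 * y + 2)
      (3 * x + 1, 3 * y + 1) :=
    (fine_h (by ring) (mi _ _ (by omega) (by omega) (by omega) (by omega))
      (mi _ _ (by omega) (by omega) (by omega) (by omega))
      (li _ _ (by omega) (by omega) (by omega) (by omega))
      (li _ _ (by omega) (by omega) (by omega) (by omega))).symm.trans c01
  -- labels near the corner
  have ls : ∀ m : ℤ, 3 * x' - 1 ≤ m → m ≤ 3 * x' + 1 → η (lab (m, 3 * y')) = true := by
    intro m h1 h2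
    rw [lab_row rfl h1 h2]; exact ou
  rcases hx with rfl | rfl
  · have s1 : Conn (fine η) (rect (3 * a) (3 * b) (3 * c) (3 * d)) (3 * x', 3 * y')
        (3 * x' + 1, 3 * y') :=
      fine_h rfl (mi _ _ (by omega) (by omega) (by omega) (by omega))
        (mi _ _ (by omega) (by omega) (by omega) (by omega))
        (ls _ (by omega) (by omega)) (ls _ (by omega) (by omega))
    rcases hy with rfl | rfl
    · exact (s1.trans (fine_v rfl (mi _ _ (by omega) (by omega) (by omega) (by omega))
        (mi _ _ (by omega) (by omega) (by omega) (by omega)) (ls _ (by omega) (by omega))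
        (li _ _ (by omega) (by omega) (by omega) (by omega)))).trans c00
    · exact (s1.trans (fine_v (n := 3 * y + 2) (n' := 3 * (y + 1)) (by ring)
        (mi _ _ (by omega) (by omega) (by omega) (by omega))
        (mi _ _ (by omega) (by omega) (by omega) (by omega))
        (li _ _ (by omega) (by omega) (by omega) (by omega))
        (ls _ (by omega) (by omega))).symm).trans c01
  · have s1 : Conn (fine η) (rect (3 * a) (3 * b) (3 * c) (3 * d)) (3 * (x + 1), 3 * y')
        (3 * x + 2, 3 * y') :=
      (fine_h (m := 3 * x + 2) (m' := 3 * (x + 1)) (by ring)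
        (mi _ _ (by omega) (by omega) (by omega) (by omega))
        (mi _ _ (by omega) (by omega) (by omega) (by omega))
        (ls _ (by omega) (by omega)) (ls _ (by omega) (by omega))).symm
    rcases hy with rfl | rfl
    · exact (s1.trans (fine_v rfl (mi _ _ (by omega) (by omega) (by omega) (by omega))
        (mi _ _ (by omega) (by omega) (by omega) (by omega)) (ls _ (by omega) (by omega))
        (li _ _ (by omega) (by omega) (by omega) (by omega)))).trans c10
    · exact (s1.trans (fine_v (n := 3 * y + 2) (n' := 3 * (y + 1)) (by ring)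
        (mi _ _ (by omega) (by omega) (by omega) (by omega))
        (mi _ _ (by omega) (by omega) (by omega) (by omega))
        (li _ _ (by omega) (by omega) (by omega) (by omega))
        (ls _ (by omega) (by omega))).symm).trans c11

/-- A step between open vertices of `T` gives a path in the fine lattice. -/
private lemma fine_step {η : Config} {a b c d : ℤ} {u v : TV} (h : TStep η (TR a b c d) u v) :
    Conn (fine η) (rect (3 * a) (3 * b) (3 * c) (3 * d)) (pos u) (pos v) := by
  obtain ⟨hu, hv, hadj, ou, ov⟩ := h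
  obtain ⟨x, y, r⟩ := u
  obtain ⟨x', y', r'⟩ := v
  unfold TAdj at hadj
  simp only at hadj
  rcases hadj with ⟨h1, h2, h3⟩ | ⟨h1, h2, h3, h4⟩ | ⟨h1, h2, h3, h4⟩
  · subst h1 h2
    simp only [pos, Bool.false_eq_true, if_false]
    rcases h3 with ⟨h3, h4 | h4⟩ | ⟨h3, h4 | h4⟩
    · subst h3 h4
      exact (fine_ss_v hv hu ov ou).symm
    · subst h3 h4
      exact fine_ss_v hu hv ou ov
    · subst h3 h4
      exact (fine_ss_h hv hu ov ou).symm
    · subst h3 h4
      exact fine_ss_h hu hv ou ov
  · subst h1 h2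
    simp only [pos, Bool.false_eq_true, if_false, if_true]
    exact fine_sc h3 h4 hu hv ou ov
  · subst h1 h2
    simp only [pos, Bool.false_eq_true, if_false, if_true]
    exact (fine_sc h3 h4 hv hu ov ou).symm

private lemma pos_mem {a b c d : ℤ} {u : TV} (h : u ∈ TR a b c d) :
    pos u ∈ rect (3 * a) (3 * b) (3 * c) (3 * d) := by
  obtain ⟨x, y, r⟩ := u
  cases r
  · rw [mem_TR_site] at h
    simp only [pos, Bool.false_eq_true, if_false, rect, Set.mem_ofPred_eq]; omega
  · rw [mem_TR_cen] at h
    simp only [pos, if_true, rect, Set.mem_ofPred_eq]; omega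

private lemma fine_conn {η : Config} {a b c d : ℤ} {u v : TV} (h : TConn η (TR a b c d) u v) :
    Conn (fine η) (rect (3 * a) (3 * b) (3 * c) (3 * d)) (pos u) (pos v) :=
  h.induction_right (P := fun v => Conn (fine η) (rect (3 * a) (3 * b) (3 * c) (3 * d)) (pos u)
    (pos v)) (Conn.refl (pos_mem h.mem_left)) fun _ _ _ hs ih => ih.trans (fine_step hs)

theorem not_hc_and_vc {a b c d : ℤ} {η : Config} (h : HC η a b c d) : ¬ VC (neg η) a b c d := by
  rintro ⟨x, x', h'⟩
  obtain ⟨y, y', h⟩ := h
  have hc := fine_conn h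
  have hc' := fine_conn h'
  simp only [pos, Bool.false_eq_true, if_false] at hc hc'
  obtain ⟨w, h1, h2⟩ := cross hc rfl rfl hc' rfl rfl
  have h3 : η (lab w) = true := fine_open h1 (by
    rw [lab_row (x := a) (y := y) rfl (by omega) (by omega)]; exact h.open_left)
  have h4 : neg η (lab w) = true := fine_open h2 (by
    rw [lab_row (x := x) (y := c) rfl (by omega) (by omega)]; exact h'.open_left)
  simp only [neg, h3] at h4
  exact absurd h4 (by simp)

end Pool.Agent.H83.Site
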