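import Pool.Agent.H83.Site.Low

/-! # Conditioning on the lowest crossing -/

set_option autoImplicit false

open MeasureTheory ProbabilityTheory unitInterval

namespace Pool.Agent.H83.Site

open Pool.Agent.H89.Perc

/-- The lowest crossing of `[0, l] × [c, d]` exists and is joined to the top of
`[0, 2 l] × [c, e]`. -/
def LJ (l c d e : ℤ) : Set Config :=
  {η | HC η 0 l c d ∧ FJ η l c e (Exd l c d (Clo η l c d))}

/-! ### Auxiliary facts -/

theorem expl_clo_congr {l c d : ℤ} {η η' : Config} (h : ∀ v ∈ TR 0 l c d, η v = η' v) :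
    Clo η l c d = Clo η' l c d := by
  have key : ∀ {η η' : Config}, (∀ v ∈ TR 0 l c d, η v = η' v) →
      Clo η l c d ⊆ Clo η' l c d := by
    intro η η' h v hv
    obtain ⟨x, hx⟩ := hv
    exact ⟨x, hx.congr fun w hw => by simp only [neg]; rw [h w hw]⟩
  exact Set.Subset.antisymm (key h) (key fun v hv => (h v hv).symm)

theorem expl_fj_congr {l c e : ℤ} {D : Set TV} {η η' : Config}
    (h : ∀ v ∈ TR 0 (2 * l) c e, v ∉ D → η v = η' v) (hF : FJ η l c e D) : FJ η' l c e D := by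
  obtain ⟨u, hu, h1⟩ := hF
  refine ⟨u, hu, ?_⟩
  rcases h1 with h1 | ⟨w, x, hw, hc⟩
  · exact Or.inl h1
  · exact Or.inr ⟨w, x, hw, hc.congr fun v hv => h v hv.1 fun hD => hv.2 (Or.inl hD)⟩

theorem expl_fj_incr (l c e : ℤ) (D : Set TV) : Incr {η | FJ η l c e D} := by
  rintro η η' h ⟨u, hu, h1⟩
  refine ⟨u, hu, ?_⟩
  rcases h1 with h1 | ⟨w, x, hw, hc⟩
  · exact Or.inl h1
  · exact Or.inr ⟨w, x, hw, hc.mono le_rfl fun v _ => h v⟩

theorem expl_clo_subset {l c d : ℤ} (η : Config) : Clo η l c d ⊆ TR 0 l c d :=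
  fun _ ⟨_, hx⟩ => hx.mem_right

/-- The closed cluster of the bottom row is determined by the states of the explored vertices. -/
theorem expl_clo_eq {l c d : ℤ} {η η' : Config}
    (h : ∀ v ∈ Exd l c d (Clo η l c d), η v = η' v) : Clo η' l c d = Clo η l c d := by
  apply Set.Subset.antisymm
  · rintro v ⟨x, hx⟩
    refine hx.induction_right (P := fun v => v ∈ Clo η l c d) ?_ ?_
    · refine ⟨x, TConn.refl hx.mem_left ?_⟩
      have h1 : (x, c, false) ∈ Exd l c d (Clo η l c d) := ⟨hx.mem_left, Or.inl (by simp)⟩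
      have h2 := hx.open_left
      simp only [neg] at h2 ⊢
      rw [h _ h1]; exact h2
    · rintro a b - ⟨-, hb, hab, -, hb'⟩ ha
      have h1 : b ∈ Exd l c d (Clo η l c d) := ⟨hb, Or.inr (Or.inr ⟨a, ha, hab⟩)⟩
      obtain ⟨z, hz⟩ := ha
      refine ⟨z, hz.tail ⟨hz.mem_right, hb, hab, hz.open_right, ?_⟩⟩
      simp only [neg] at hb' ⊢
      rw [h _ h1]; exact hb'
  · rintro v ⟨x, hx⟩
    have hst : ∀ w : TV, TConn (neg η) (TR 0 l c d) (x, c, false) w → neg η' w = true := by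
      intro w hw
      have h1 : w ∈ Exd l c d (Clo η l c d) := ⟨hw.mem_right, Or.inr (Or.inl ⟨x, hw⟩)⟩
      have h2 := hw.open_right
      simp only [neg] at h2 ⊢
      rw [← h _ h1]; exact h2
    refine hx.induction_right (P := fun v => v ∈ Clo η' l c d) ?_ ?_
    · exact ⟨x, TConn.refl hx.mem_left (hst _ (TConn.refl hx.mem_left hx.open_left))⟩
    · rintro a b hxa hs ⟨z, hz⟩
      exact ⟨z, hz.tail ⟨hs.1, hs.2.1, hs.2.2.1, hst a hxa, hst b (hxa.tail hs)⟩⟩

theorem localOn_LJ {l c d e : ℤ} (hl : 0 ≤ l) (hde : d ≤ e) :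
    LocalOn (eRect 0 (2 * l) c e) (LJ l c d e) := by
  rintro η η' h ⟨h1, h2⟩
  have hsub : TR 0 l c d ⊆ TR 0 (2 * l) c e := TR_mono le_rfl (by omega) le_rfl hde
  have hη : ∀ v ∈ TR 0 l c d, η v = η' v := fun v hv => h v (TR_subset_eRect (hsub hv))
  refine ⟨?_, ?_⟩
  · obtain ⟨y, y', hc⟩ := h1
    exact ⟨y, y', hc.congr hη⟩
  · rw [← expl_clo_congr hη]
    exact expl_fj_congr (fun v hv _ => h v (TR_subset_eRect hv)) h2

/-- Whether there is a crossing is determined by the closed cluster of the bottom row. -/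
theorem expl_hc_of_clo {l c d : ℤ} {η η₀ : Config} (hl : 0 ≤ l) (hcd : c ≤ d)
    (h0 : HC η₀ 0 l c d) (h : Clo η l c d = Clo η₀ l c d) : HC η 0 l c d := by
  rcases hc_or_vc hl hcd η with h1 | ⟨x, x', h1⟩
  · exact h1
  · exfalso
    have h2 : (x', d, false) ∈ Clo η₀ l c d := by rw [← h]; exact ⟨x, h1⟩
    obtain ⟨z, hz⟩ := h2
    exact not_hc_and_vc h0 ⟨z, x', hz⟩

theorem expl_prob (p : I) (r : Bool) {l c d e : ℤ} (hl : 0 ≤ l) (hcd : c ≤ d) (hde : d ≤ e) :
    PT p r {η | HC η 0 l c d} * (1 - Real.sqrt (1 - PT p r {η | VC η 0 (2 * l) c e})) ≤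
      PT p r (LJ l c d e) := by
  classical
  set F : Finset TV := eRect 0 l c d with hF
  set good : Finset (Finset TV) :=
    F.powerset.filter (fun S => ∃ η₀ : Config, Clo η₀ l c d = (↑S : Set TV) ∧ HC η₀ 0 l c d)
    with hgood
  set E : Finset TV → Set Config := fun S => {η | Clo η l c d = (↑S : Set TV)} with hE
  set Y : Finset TV → Set Config := fun S => {η | FJ η l c e (Exd l c d (↑S : Set TV))} with hY
  set sE : Finset TV → Finset TV := fun S => F.filter (fun v => v ∈ Exd l c d (↑S : Set TV))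
    with hsE
  set sY : Finset TV → Finset TV := fun S =>
    (eRect 0 (2 * l) c e).filter (fun v => v ∉ Exd l c d (↑S : Set TV)) with hsY
  have hlE : ∀ S : Finset TV, LocalOn (sE S) (E S) := by
    intro S η η' h hη
    simp only [hE, Set.mem_ofPred_eq] at hη ⊢
    rw [← hη]
    apply expl_clo_eq
    intro v hv
    rw [hη] at hv
    exact h v (Finset.mem_filter.2 ⟨TR_subset_eRect hv.1, hv⟩)
  have hlY : ∀ S : Finset TV, LocalOn (sY S) (Y S) := by
    intro S η η' h hη
    exact expl_fj_congr (fun v hv hD => h v (Finset.mem_filter.2 ⟨TR_subset_eRect hv, hD⟩)) hη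
  have hdisj : ∀ S : Finset TV, Disjoint (sE S) (sY S) := by
    intro S
    rw [Finset.disjoint_left]
    intro v h1 h2
    exact (Finset.mem_filter.1 h2).2 (Finset.mem_filter.1 h1).2
  have hind : ∀ S : Finset TV, PT p r (E S ∩ Y S) = PT p r (E S) * PT p r (Y S) := fun S =>
    PT_indep (hlE S) (hlY S) (hdisj S)
  set q : ℝ := 1 - Real.sqrt (1 - PT p r {η | VC η 0 (2 * l) c e}) with hq
  have hq0 : 0 ≤ q := by
    have h1 : Real.sqrt (1 - PT p r {η | VC η 0 (2 * l) c e}) ≤ 1 := by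
      rw [Real.sqrt_le_one]
      linarith [PT_nonneg (p := p) (r := r) (E := {η | VC η 0 (2 * l) c e})]
    linarith
  -- the lower bound for `Y`
  have hYlow : ∀ S ∈ good, q ≤ PT p r (Y S) := by
    intro S hS
    obtain ⟨η₀, h0, h0'⟩ := (Finset.mem_filter.1 hS).2
    have hsub : {η | VC η 0 (2 * l) c e} ⊆
        Y S ∪ {η | (fun v => η (rfx (2 * l) v)) ∈ Y S} := by
      intro η hη
      have h1 := fj_cover hl hcd hde h0' hη
      rw [h0] at h1
      exact h1
    have hY' : LocalOn ((sY S).image (rfx (2 * l)))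
        {η | (fun v => η (rfx (2 * l) v)) ∈ Y S} := by
      intro η η' h hη
      exact hlY S _ _ (fun v hv => h _ (Finset.mem_image_of_mem _ hv)) hη
    have iY' : Incr {η : Config | (fun v => η (rfx (2 * l) v)) ∈ Y S} := by
      intro η η' h hη
      exact expl_fj_incr l c e _ _ _ (fun v => h _) hη
    have h2 := PT_sqrt_trick (p := p) (r := r) (hlY S) hY' (expl_fj_incr l c e _) iY'
      (PT_comp (hlY S) (rfx_injective (2 * l)).injOn (fun _ => rfl))
    have h3 := PT_mono (p := p) (r := r) hsub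
    refine le_trans ?_ h2
    rw [hq]
    have h4 := Real.sqrt_le_sqrt (sub_le_sub_left h3 1)
    linarith
  have hV : PT p r {η | HC η 0 l c d} ≤ ∑ S ∈ good, PT p r (E S) := by
    refine (PT_mono ?_).trans (PT_biUnion_le good E)
    intro η hη
    have hcoe : (↑(F.filter (fun v => v ∈ Clo η l c d)) : Set TV) = Clo η l c d := by
      ext v
      simp only [Finset.coe_filter, Set.mem_ofPred_eq]
      exact ⟨fun h => h.2, fun h => ⟨TR_subset_eRect (expl_clo_subset η h), h⟩⟩
    rw [Set.mem_iUnion₂]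
    refine ⟨F.filter (fun v => v ∈ Clo η l c d), ?_, ?_⟩
    · rw [hgood, Finset.mem_filter, Finset.mem_powerset]
      exact ⟨Finset.filter_subset _ _, η, hcoe.symm, hη⟩
    · simp only [hE, Set.mem_ofPred_eq]
      exact hcoe.symm
  have hX : (⋃ S ∈ good, E S ∩ Y S) ⊆ LJ l c d e := by
    intro η hη
    rw [Set.mem_iUnion₂] at hη
    obtain ⟨S, hS, hηE, hηY⟩ := hη
    obtain ⟨η₀, h0, h0'⟩ := (Finset.mem_filter.1 hS).2
    simp only [hE, Set.mem_ofPred_eq] at hηE
    simp only [hY, Set.mem_ofPred_eq] at hηY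
    refine ⟨expl_hc_of_clo hl hcd h0' (hηE.trans h0.symm), ?_⟩
    rw [hηE]
    exact hηY
  have hsum : PT p r (⋃ S ∈ good, E S ∩ Y S) = ∑ S ∈ good, PT p r (E S ∩ Y S) := by
    have h1 : {ω : Config | full r ω ∈ ⋃ S ∈ good, E S ∩ Y S} =
        ⋃ S ∈ good, {ω : Config | full r ω ∈ E S ∩ Y S} := by
      ext ω
      simp only [Set.mem_ofPred_eq, Set.mem_iUnion]
    unfold PT
    rw [h1]
    unfold Pr
    refine measureReal_biUnion_finset ?_ ?_ (fun _ _ => measure_ne_top _ _)
    · intro S _ S' _ hne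
      rw [Function.onFun, Set.disjoint_left]
      rintro ω ⟨h1, -⟩ ⟨h2, -⟩
      simp only [hE, Set.mem_ofPred_eq] at h1 h2
      exact hne (Finset.coe_injective (h1.symm.trans h2))
    · intro S _
      exact (localOn_full r (LocalOn.inter' (hlE S) (hlY S))).measurableSet
  calc PT p r {η | HC η 0 l c d} * q
      ≤ (∑ S ∈ good, PT p r (E S)) * q := mul_le_mul_of_nonneg_right hV hq0
    _ = ∑ S ∈ good, PT p r (E S) * q := by rw [Finset.sum_mul]
    _ ≤ ∑ S ∈ good, PT p r (E S ∩ Y S) := by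
        refine Finset.sum_le_sum fun S hS => ?_
        rw [hind S]
        exact mul_le_mul_of_nonneg_left (hYlow S hS) PT_nonneg
    _ = PT p r (⋃ S ∈ good, E S ∩ Y S) := hsum.symm
    _ ≤ PT p r (LJ l c d e) := PT_mono hX

end Pool.Agent.H83.Site
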