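import Pool.Agent.H83.Site.Glue
import Pool.Agent.H83.Site.DualE

/-! # The lowest crossing of a rectangle -/

set_option autoImplicit false

namespace Pool.Agent.H83.Site

open Pool.Agent.H89.Perc

/-- The closed cluster of the bottom row of `[0, l] × [c, d]`. -/
def Clo (η : Config) (l c d : ℤ) : Set TV :=
  {v | ∃ x : ℤ, TConn (neg η) (TR 0 l c d) (x, c, false) v}

/-- The vertices explored when the closed cluster of the bottom row is `C`. -/
def Exd (l c d : ℤ) (C : Set TV) : Set TV :=
  {v | v ∈ TR 0 l c d ∧ (fy v = 2 * c ∨ v ∈ C ∨ ∃ w ∈ C, TAdj w v)}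

/-- The configuration with all vertices that are not explored closed. -/
noncomputable def zet (η : Config) (l c d : ℤ) : Config := fun v => by
  classical exact η v && decide (v ∈ Exd l c d (Clo η l c d))

/-- The set `D ⊆ [0, l] × [c, d]` is joined to the top of `[0, 2 l] × [c, e]` by an open path which
does not use the vertices of `D` and of its mirror image (except for the last vertex, whose state
does not matter). -/
def FJ (η : Config) (l c e : ℤ) (D : Set TV) : Prop :=
  ∃ u ∈ D, fy u = 2 * e ∨ ∃ w : TV, ∃ x : ℤ, TAdj w u ∧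
    TConn η (TR 0 (2 * l) c e \ (D ∪ {v | rfx (2 * l) v ∈ D})) (x, e, false) w

variable {η : Config} {l c d e y y' : ℤ}

theorem zet_eq_true {v : TV} :
    zet η l c d v = true ↔ η v = true ∧ v ∈ Exd l c d (Clo η l c d) := by
  unfold zet
  simp

/-! ### Auxiliary facts -/

private theorem low_site_fy {v : TV} {a : ℤ} (h : fy v = 2 * a) : v = (v.1, a, false) := by
  obtain ⟨h1, h2⟩ := site_of_fy h
  ext <;> simp [h1, h2]

private theorem low_site_fx {v : TV} {a : ℤ} (h : fx v = 2 * a) : v = (a, v.2.1, false) := by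
  obtain ⟨h1, h2⟩ := site_of_fx h
  ext <;> simp [h1, h2]

private theorem low_neg_eq_true {η : Config} {v : TV} : neg η v = true ↔ η v = false := by
  simp [neg]

private theorem low_clo_mem {v : TV} (h : v ∈ Clo η l c d) : v ∈ TR 0 l c d := by
  obtain ⟨x, hx⟩ := h
  exact hx.mem_right

private theorem low_clo_closed {v : TV} (h : v ∈ Clo η l c d) : η v = false := by
  obtain ⟨x, hx⟩ := h
  exact low_neg_eq_true.1 hx.open_right

private theorem low_clo_bottom {v : TV} (hv : v ∈ TR 0 l c d) (h : fy v = 2 * c)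
    (hc : η v = false) : v ∈ Clo η l c d := by
  refine ⟨v.1, ?_⟩
  rw [← low_site_fy h]
  exact TConn.refl hv (low_neg_eq_true.2 hc)

private theorem low_clo_step {v w : TV} (hv : v ∈ Clo η l c d) (ha : TAdj v w)
    (hw : w ∈ TR 0 l c d) (hc : η w = false) : w ∈ Clo η l c d := by
  obtain ⟨x, hx⟩ := hv
  exact ⟨x, hx.tail ⟨hx.mem_right, hw, ha, hx.open_right, low_neg_eq_true.2 hc⟩⟩

private theorem low_zet_open {v : TV} (h : zet η l c d v = true) : η v = true :=
  (zet_eq_true.1 h).1

/-- Indicator configuration. -/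
private noncomputable def lowInd (A : Set TV) : Config := fun v => by
  classical exact decide (v ∈ A)

private theorem lowInd_true {A : Set TV} {v : TV} : lowInd A v = true ↔ v ∈ A := by
  unfold lowInd
  simp

private theorem low_neg_ind {A : Set TV} {v : TV} : neg (lowInd A) v = true ↔ v ∉ A := by
  rw [low_neg_eq_true, ← lowInd_true (A := A), Bool.not_eq_true]

/-- If there is a crossing, there is one in the explored set. -/
theorem low_exists (hl : 0 ≤ l) (hcd : c ≤ d) (h : HC η 0 l c d) :
    ∃ y y' : ℤ, TConn (zet η l c d) (TR 0 l c d) (0, y, false) (l, y', false) := by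
  rcases hc_or_vc hl hcd (zet η l c d) with h1 | ⟨x, x', h2⟩
  · exact h1
  · exfalso
    have key : ∀ v : TV, neg (zet η l c d) v = true → v ∈ Exd l c d (Clo η l c d) →
        η v = false := by
      intro v hv hE
      rw [low_neg_eq_true] at hv
      by_contra hη
      rw [Bool.not_eq_false] at hη
      rw [zet_eq_true.2 ⟨hη, hE⟩] at hv
      exact absurd hv (by decide)
    have h3 : ((x', d, false) : TV) ∈ Clo η l c d := by
      refine h2.induction_right (P := fun v => v ∈ Clo η l c d) ?_ ?_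
      · refine low_clo_bottom h2.mem_left (by simp) (key _ h2.open_left ⟨h2.mem_left, ?_⟩)
        left; simp
      · intro a b _ hab ha
        refine low_clo_step ha hab.2.2.1 hab.2.1 (key _ hab.2.2.2.2 ⟨hab.2.1, ?_⟩)
        right; right
        exact ⟨a, ha, hab.2.2.1⟩
    obtain ⟨x₁, h4⟩ := h3
    exact not_hc_and_vc h ⟨x₁, x', h4⟩

/-- An explored open vertex which is not in the bottom row is adjacent to the closed cluster. -/
private theorem low_adj {v : TV} (h : zet η l c d v = true) (hv : 2 * c < fy v) :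
    ∃ w : TV, ∃ x : ℤ, TConn (neg η) (TR 0 l c d) (x, c, false) w ∧ TAdj w v := by
  obtain ⟨h1, h2, h3⟩ := zet_eq_true.1 h
  rcases h3 with h3 | h3 | ⟨w, ⟨x, hw⟩, hwv⟩
  · omega
  · rw [low_clo_closed h3] at h1
    exact absurd h1 (by decide)
  · exact ⟨w, x, hw, hwv⟩

/-- The start of the lowest crossing is connected to a point not higher than the start of a given
crossing. -/
theorem low_left (h : TConn (zet η l c d) (TR 0 l c d) (0, y, false) (l, y', false))
    {y₀ y₁ : ℤ} (h0 : TConn η (TR 0 l c d) (0, y₀, false) (l, y₁, false)) :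
    ∃ y₂ ≤ y₀, TConn η (TR 0 l c d) (0, y, false) (0, y₂, false) := by
  by_cases hy : y ≤ y₀
  · exact ⟨y, hy, TConn.refl h.mem_left (low_zet_open h.open_left)⟩
  · rw [not_le] at hy
    have h1 := mem_TR_site.1 h0.mem_left
    obtain ⟨w, x, hw, hwv⟩ := low_adj h.open_left (by simp only [fy_site]; omega)
    exact ⟨y₀, le_rfl,
      (glue_low_left hy (low_zet_open h.open_left) h.mem_left h0 hw hwv).symm⟩

theorem low_right (h : TConn (zet η l c d) (TR 0 l c d) (0, y, false) (l, y', false))
    {y₀ y₁ : ℤ} (h0 : TConn η (TR 0 l c d) (0, y₀, false) (l, y₁, false)) :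
    ∃ y₂ ≤ y₁, TConn η (TR 0 l c d) (l, y', false) (l, y₂, false) := by
  by_cases hy : y' ≤ y₁
  · exact ⟨y', hy, TConn.refl h.mem_right (low_zet_open h.open_right)⟩
  · rw [not_le] at hy
    have h1 := mem_TR_site.1 h0.mem_right
    obtain ⟨w, x, hw, hwv⟩ := low_adj h.open_right (by simp only [fy_site]; omega)
    exact ⟨y₁, le_rfl,
      (glue_low_right hy (low_zet_open h.open_right) h.mem_right h0 hw hwv).symm⟩

/-- Folding of the double rectangle. -/
private def lowPhi (l : ℤ) (v : TV) : TV := if fx v ≤ 2 * l then v else rfx (2 * l) v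

private theorem low_rfx_fix {v : TV} (h : fx v = 2 * l) : rfx (2 * l) v = v := by
  rw [low_site_fx h]
  simp only [rfx, Bool.false_eq_true, if_false]
  ext <;> simp
  ring

private theorem lowPhi_of_le {v : TV} (h : fx v ≤ 2 * l) : lowPhi l v = v := by
  rw [lowPhi, if_pos h]

private theorem lowPhi_of_ge {v : TV} (h : 2 * l ≤ fx v) : lowPhi l v = rfx (2 * l) v := by
  rcases h.eq_or_lt with h1 | h1
  · rw [low_rfx_fix h1.symm, lowPhi, if_pos h1.symm.le]
  · rw [lowPhi, if_neg (by omega)]

private theorem lowPhi_adj {u v : TV} (h : TAdj u v) : TAdj (lowPhi l u) (lowPhi l v) := by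
  by_cases hu : fx u ≤ 2 * l
  · by_cases hv : fx v ≤ 2 * l
    · rw [lowPhi_of_le hu, lowPhi_of_le hv]; exact h
    · rw [not_le] at hv
      rw [lowPhi_of_ge (h.symm.le_fx hv), lowPhi_of_ge hv.le]
      exact h.rfx _
  · rw [not_le] at hu
    rw [lowPhi_of_ge (h.le_fx hu), lowPhi_of_ge hu.le]
    exact h.rfx _

private theorem lowPhi_fy (v : TV) : fy (lowPhi l v) = fy v := by
  unfold lowPhi
  split
  · rfl
  · exact fy_rfx _ _

private theorem lowPhi_mem {v : TV} (h : v ∈ TR 0 (2 * l) c e) : lowPhi l v ∈ TR 0 l c e := by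
  rw [mem_TR] at h
  rw [mem_TR, lowPhi_fy]
  by_cases hv : fx v ≤ 2 * l
  · rw [lowPhi_of_le hv]; omega
  · rw [not_le] at hv
    rw [lowPhi_of_ge hv.le, fx_rfx]; omega

/-- If the explored set is joined to the top, then so is the lowest crossing. -/
theorem low_joined (hde : d ≤ e)
    (h : TConn (zet η l c d) (TR 0 l c d) (0, y, false) (l, y', false))
    (hF : FJ η l c e (Exd l c d (Clo η l c d))) :
    ∃ x : ℤ, TConn η (TR 0 (2 * l) c e) (0, y, false) (x, e, false) := by
  set D : Set TV := Exd l c d (Clo η l c d) with hD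
  set A : Set TV := {v | TConn (zet η l c d) (TR 0 l c d) (0, y, false) v} with hA
  have hm := mem_TR_site.1 h.mem_left
  have hsub : TR 0 l c d ⊆ TR 0 l c e := TR_mono le_rfl le_rfl le_rfl hde
  have hsub2 : TR 0 l c d ⊆ TR 0 (2 * l) c e := TR_mono le_rfl (by omega) le_rfl hde
  have hAη : ∀ v ∈ A, η v = true := fun v hv => low_zet_open hv.open_right
  have hAD : ∀ v ∈ A, v ∈ D := fun v hv => (zet_eq_true.1 hv.open_right).2
  obtain ⟨u, huD, hu⟩ := hF
  have huA : u ∈ A := by
    by_contra huA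
    have hHC : HC (lowInd A) 0 l c d := by
      refine ⟨y, y', ?_⟩
      refine h.induction_right
        (P := fun v => TConn (lowInd A) (TR 0 l c d) (0, y, false) v)
        (TConn.refl h.mem_left (lowInd_true.2 (TConn.refl h.mem_left h.open_left))) ?_
      intro a b h1 h2 h3
      exact h3.tail ⟨h2.1, h2.2.1, h2.2.2.1, lowInd_true.2 h1, lowInd_true.2 (h1.tail h2)⟩
    refine not_hc_and_vc hHC ?_
    -- from the bottom to `u`
    have hclosed : ∀ v : TV, neg η v = true → neg (lowInd A) v = true := by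
      intro v hv
      rw [low_neg_ind]
      intro hvA
      rw [low_neg_eq_true, hAη v hvA] at hv
      exact absurd hv (by decide)
    have hbot : ∃ x : ℤ, TConn (neg (lowInd A)) (TR 0 l c e) (x, c, false) u := by
      obtain ⟨h1, h2 | ⟨x, h2⟩ | ⟨w, ⟨x, hw⟩, hwu⟩⟩ := huD
      · refine ⟨u.1, ?_⟩
        rw [← low_site_fy h2]
        exact TConn.refl (hsub h1) (low_neg_ind.2 huA)
      · exact ⟨x, h2.mono hsub fun v _ => hclosed v⟩
      · have h3 := hw.mono (η' := neg (lowInd A)) hsub fun v _ => hclosed v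
        exact ⟨x, h3.tail ⟨h3.mem_right, hsub h1, hwu, h3.open_right, low_neg_ind.2 huA⟩⟩
    obtain ⟨x, hx⟩ := hbot
    have hVC : VC (neg (lowInd A)) 0 l c e := by
      rcases hu with hu | ⟨w, x₁, hwu, hw⟩
      · refine ⟨x, u.1, ?_⟩
        rw [← low_site_fy hu]
        exact hx
      · have hdis : ∀ v ∈ TR 0 (2 * l) c e \ (D ∪ {v | rfx (2 * l) v ∈ D}), lowPhi l v ∉ D := by
          intro v hv
          have h2 := hv.2
          rw [Set.mem_union, not_or] at h2
          by_cases hvl : fx v ≤ 2 * l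
          · rw [lowPhi_of_le hvl]; exact h2.1
          · rw [not_le] at hvl
            rw [lowPhi_of_ge hvl.le]; exact h2.2
        have h2 : TConn (neg (lowInd A)) (TR 0 l c e) (lowPhi l (x₁, e, false)) (lowPhi l w) :=
          hw.map (lowPhi l) (fun v hv => lowPhi_mem hv.1)
            (fun v hv _ => low_neg_ind.2 fun hvA => hdis v hv (hAD _ hvA))
            (fun a b _ _ hab => Or.inl (lowPhi_adj hab))
        have h3 : TAdj (lowPhi l w) u := by
          have h4 := lowPhi_adj (l := l) hwu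
          rwa [lowPhi_of_le (v := u) (mem_TR.1 huD.1).2.1] at h4
        have h4 := h2.tail ⟨h2.mem_right, hsub huD.1, h3, h2.open_right, low_neg_ind.2 huA⟩
        have h5 : lowPhi l (x₁, e, false) = ((lowPhi l (x₁, e, false)).1, e, false) :=
          low_site_fy (by rw [lowPhi_fy, fy_site])
        refine ⟨x, (lowPhi l (x₁, e, false)).1, ?_⟩
        rw [← h5]
        exact hx.trans h4.symm
    exact hVC.mono le_rfl le_rfl le_rfl (by omega) hde
  have h1 : TConn η (TR 0 (2 * l) c e) (0, y, false) u :=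
    TConn.mono hsub2 (fun v _ => low_zet_open) huA
  rcases hu with hu | ⟨w, x, hwu, hw⟩
  · refine ⟨u.1, ?_⟩
    rw [← low_site_fy hu]
    exact h1
  · have h2 : TConn η (TR 0 (2 * l) c e) (x, e, false) w := hw.mono_set fun v hv => hv.1
    exact ⟨x, (h1.tail ⟨h1.mem_right, h2.mem_right, hwu.symm, h1.open_right,
      h2.open_right⟩).trans h2.symm⟩

/-- Reflection of the closed cluster. -/
private theorem low_clo_rfx {v : TV} :
    v ∈ Clo (fun v => η (rfx l v)) l c d ↔ rfx l v ∈ Clo η l c d := by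
  have h0 : neg (fun v => η (rfx l v)) = fun v => neg η (rfx l v) := rfl
  have hTR : TR (l - l) (l - 0) c d = TR 0 l c d := by
    rw [sub_self, sub_zero]
  constructor
  · rintro ⟨x, hx⟩
    rw [h0, tconn_rfx, hTR] at hx
    exact ⟨l - x, by simpa [rfx] using hx⟩
  · rintro ⟨x, hx⟩
    refine ⟨l - x, ?_⟩
    rw [h0, tconn_rfx, hTR]
    simpa [rfx] using hx

private theorem low_exd_rfx {v : TV} :
    v ∈ Exd l c d (Clo (fun v => η (rfx l v)) l c d) ↔ rfx l v ∈ Exd l c d (Clo η l c d) := by
  have h1 : v ∈ TR 0 l c d ↔ rfx l v ∈ TR 0 l c d := by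
    rw [mem_TR, mem_TR, fx_rfx, fy_rfx]; omega
  unfold Exd
  simp only [Set.mem_ofPred_eq]
  rw [← h1, fy_rfx, low_clo_rfx]
  refine and_congr_right fun _ => or_congr_right (or_congr_right ?_)
  constructor
  · rintro ⟨w, hw, hwv⟩
    exact ⟨rfx l w, low_clo_rfx.1 hw, hwv.rfx l⟩
  · rintro ⟨w, hw, hwv⟩
    refine ⟨rfx l w, low_clo_rfx.2 (by rwa [rfx_rfx]), ?_⟩
    have h2 := hwv.rfx l
    rwa [rfx_rfx] at h2

private theorem low_zet_rfx :
    zet (fun v => η (rfx l v)) l c d = fun v => zet η l c d (rfx l v) := by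
  funext v
  rw [Bool.eq_iff_iff, zet_eq_true, zet_eq_true, low_exd_rfx]

/-- Mirror image. -/
theorem low_joined_left (hde : d ≤ e)
    (h : TConn (zet η l c d) (TR 0 l c d) (0, y, false) (l, y', false))
    (hF : FJ (fun v => η (rfx l v)) l c e (Exd l c d (Clo (fun v => η (rfx l v)) l c d))) :
    ∃ x : ℤ, TConn η (TR (-l) l c e) (l, y', false) (x, e, false) := by
  have h1 : TConn (zet (fun v => η (rfx l v)) l c d) (TR 0 l c d) (0, y', false)
      (l, y, false) := by
    rw [low_zet_rfx, tconn_rfx]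
    have h2 := h.symm
    rw [sub_self, sub_zero]
    simpa [rfx] using h2
  obtain ⟨x, hx⟩ := low_joined hde h1 hF
  rw [tconn_rfx] at hx
  refine ⟨l - x, ?_⟩
  have e1 : l - 2 * l = -l := by ring
  rw [e1, sub_zero] at hx
  simpa [rfx] using hx

/-- A vertical crossing of the double rectangle joins the explored set or its mirror image to the
top. -/
theorem fj_cover {η₀ : Config} (hl : 0 ≤ l) (hcd : c ≤ d) (hde : d ≤ e) (h0 : HC η₀ 0 l c d)
    (h : VC η 0 (2 * l) c e) :
    FJ η l c e (Exd l c d (Clo η₀ l c d)) ∨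
      FJ (fun v => η (rfx (2 * l) v)) l c e (Exd l c d (Clo η₀ l c d)) := by
  set D : Set TV := Exd l c d (Clo η₀ l c d) with hD
  set E : Set TV := D ∪ {v | rfx (2 * l) v ∈ D} with hE
  have hErfx : ∀ v : TV, v ∈ E → rfx (2 * l) v ∈ E := by
    intro v hv
    rcases hv with hv | hv
    · right
      simp only [Set.mem_ofPred_eq, rfx_rfx]
      exact hv
    · left; exact hv
  have hSrfx : ∀ v : TV, v ∈ TR 0 (2 * l) c e → rfx (2 * l) v ∈ TR 0 (2 * l) c e := by
    intro v hv
    rw [mem_TR] at hv ⊢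
    rw [fx_rfx, fy_rfx]
    omega
  have hsub : TR 0 l c d ⊆ TR 0 (2 * l) c e := TR_mono le_rfl (by omega) le_rfl hde
  have hHC : HC (lowInd E) 0 (2 * l) c e := by
    obtain ⟨y, y', h1⟩ := low_exists hl hcd h0
    have h2 : TConn (lowInd E) (TR 0 (2 * l) c e) (0, y, false) (l, y', false) :=
      h1.mono hsub fun v _ hv => lowInd_true.2 (Or.inl (zet_eq_true.1 hv).2)
    have h3 : TConn (lowInd E) (TR 0 (2 * l) c e) (rfx (2 * l) (0, y, false))
        (rfx (2 * l) (l, y', false)) :=
      h2.map (rfx (2 * l)) (fun v hv => hSrfx v hv)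
        (fun v _ hv => lowInd_true.2 (hErfx v (lowInd_true.1 hv)))
        (fun a b _ _ hab => Or.inl (hab.rfx _))
    rw [low_rfx_fix (v := (l, y', false)) (by simp)] at h3
    refine ⟨y, y, h2.trans ?_⟩
    have h4 := h3.symm
    simpa [rfx] using h4
  obtain ⟨x, x', hx⟩ := h
  have hx := hx.symm
  by_cases hE0 : ((x', e, false) : TV) ∈ E
  · rcases hE0 with h1 | h1
    · left
      exact ⟨_, h1, Or.inl (by simp)⟩
    · right
      exact ⟨_, h1, Or.inl (by rw [fy_rfx, fy_site])⟩
  · by_cases hz : ∃ z ∈ E, TConn η (TR 0 (2 * l) c e) (x', e, false) z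
    · obtain ⟨z, hzE, hz⟩ := hz
      obtain ⟨w, w', h1, h2, h3, -⟩ := hz.exists_hit hE0 hzE
      rcases h3 with h3 | h3
      · left
        exact ⟨w', h3, Or.inr ⟨w, x', h2.2.2.1, h1⟩⟩
      · right
        refine ⟨rfx (2 * l) w', h3, Or.inr ⟨rfx (2 * l) w, 2 * l - x', h2.2.2.1.rfx _, ?_⟩⟩
        have h4 : TConn (fun v => η (rfx (2 * l) v)) (TR 0 (2 * l) c e \ E)
            (rfx (2 * l) (x', e, false)) (rfx (2 * l) w) :=
          h1.map (rfx (2 * l)) (fun v hv => ⟨hSrfx v hv.1, fun hv' => hv.2 (by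
              have := hErfx _ hv'
              rwa [rfx_rfx] at this)⟩)
            (fun v _ hv => by simp only [rfx_rfx]; exact hv)
            (fun a b _ _ hab => Or.inl (hab.rfx _))
        have e1 : rfx (2 * l) (x', e, false) = (2 * l - x', e, false) := by simp [rfx]
        rw [e1] at h4
        exact h4
    · exfalso
      push Not at hz
      refine not_hc_and_vc hHC ⟨x, x', ?_⟩
      refine TConn.symm ?_
      refine hx.induction_right
        (P := fun v => TConn (neg (lowInd E)) (TR 0 (2 * l) c e) (x', e, false) v)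
        (TConn.refl hx.mem_left (low_neg_ind.2 hE0)) ?_
      intro a b h1 h2 h3
      exact h3.tail ⟨h2.1, h2.2.1, h2.2.2.1, h3.open_right,
        low_neg_ind.2 fun hb => hz b hb (h1.tail h2)⟩

end Pool.Agent.H83.Site
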