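import Pool.Agent.H83.Site.RuleT

/-! # The two-function OSSS inequality, averaged over the corner -/

set_option autoImplicit false

open MeasureTheory ProbabilityTheory unitInterval

namespace Pool.Agent.H83.Site

open Pool.Agent.H89.Perc

/-- Pivotality vanishes off the support. -/
private lemma maint_pivot_zero {q : I} {s : Finset Edge} {A : Set Config} (hA : LocalOn s A)
    {e : Edge} (he : e ∉ s) : pivot q A e = 0 := by
  have : {ω : Config | Function.update ω e true ∈ A} = {ω | Function.update ω e false ∈ A} := by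
    ext ω
    constructor
    · intro h
      refine hA _ _ (fun e' he' => ?_) h
      have : e' ≠ e := fun h => he (h ▸ he')
      rw [Function.update_of_ne this, Function.update_of_ne this]
    · intro h
      refine hA _ _ (fun e' he' => ?_) h
      have : e' ≠ e := fun h => he (h ▸ he')
      rw [Function.update_of_ne this, Function.update_of_ne this]
  unfold pivot
  rw [this]
  ring

private lemma maint_pivot_nonneg {q : I} {A : Set Config} (iA : Incr A) (e : Edge) :
    0 ≤ pivot q A e := by
  unfold pivot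
  rw [sub_nonneg]
  refine Pr_mono fun ω h => iA _ _ (fun e' he' => ?_) h
  by_cases h1 : e' = e
  · subst h1; simp
  · rw [Function.update_of_ne h1] at he' ⊢
    exact he'

private lemma maint_sum_first (f : ℕ → ℝ) (hf : Antitone f) (h0 : ∀ k, 0 ≤ f k) (m x : ℕ) :
    ∑ i ∈ Finset.range m, (if i ≤ x then f (x - i) else 0) ≤ ∑ k ∈ Finset.range m, f k := by
  rcases Nat.eq_zero_or_pos m with rfl | hm
  · simp
  set y := min x (m - 1) with hy
  calc ∑ i ∈ Finset.range m, (if i ≤ x then f (x - i) else 0)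
      = ∑ i ∈ (Finset.range m).filter (fun i => i ≤ x), f (x - i) := by
        rw [Finset.sum_filter]
    _ = ∑ i ∈ Finset.range (y + 1), f (x - i) := by
        congr 1
        ext i
        simp only [Finset.mem_filter, Finset.mem_range]
        omega
    _ ≤ ∑ i ∈ Finset.range (y + 1), f (y - i) := by
        refine Finset.sum_le_sum fun i _ => hf ?_
        omega
    _ = ∑ i ∈ Finset.range (y + 1), f i := by
        have := Finset.sum_range_reflect f (y + 1)
        rw [← this]
        refine Finset.sum_congr rfl fun i hi => ?_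
        congr 1
    _ ≤ ∑ k ∈ Finset.range m, f k := by
        refine Finset.sum_le_sum_of_subset_of_nonneg ?_ (fun i _ _ => h0 i)
        intro i hi
        simp only [Finset.mem_range] at hi ⊢
        omega

private lemma maint_expl_succ (R : Rule) (ω : Config) (n : ℕ) :
    expl R ω (n + 1) = explStep R ω (expl R ω n) := by
  unfold expl
  rw [Function.iterate_succ_apply']

private lemma maint_expl_subset {R : Rule} {s : Finset Edge}
    (hR : ∀ O C e, R O C = some e → e ∈ s ∧ e ∉ O ∧ e ∉ C) (ω : Config) (n : ℕ) :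
    queried R ω n ⊆ s := by
  induction n with
  | zero => simp [queried, expl]
  | succ n ih =>
    rw [queried] at ih ⊢
    rw [maint_expl_succ]
    unfold explStep
    cases h : R (expl R ω n).1 (expl R ω n).2 with
    | none => simpa using ih
    | some e =>
      have he := (hR _ _ _ h).1
      by_cases hω : ω e = true
      · simp only [hω, if_true]
        rw [Finset.insert_union]
        exact Finset.insert_subset he ih
      · simp only [if_neg hω]
        rw [Finset.union_insert]
        exact Finset.insert_subset he ih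

private lemma maint_not_queried {r : Bool} {a b c d : ℤ} (ω : Config) (n : ℕ) {e : Edge}
    (he : e ∉ eRect a b c d) : e ∉ queried (tRule r a b c d) ω n := fun h =>
  he (maint_expl_subset (s := eRect a b c d) tRule_mem ω n h)

theorem maint_av_nonneg (p : I) (r : Bool) (m : ℕ) : 0 ≤ av p r m :=
  div_nonneg (Finset.sum_nonneg fun k _ => na_nonneg p r k) (Nat.cast_nonneg m)

theorem maint_av_mono_param {p q : I} (r : Bool) (h : p ≤ q) (m : ℕ) : av p r m ≤ av q r m :=
  div_le_div_of_nonneg_right (Finset.sum_le_sum fun k _ => na_mono_param r h k)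
    (Nat.cast_nonneg m)

/-- The inequality at a fixed density. -/
theorem mainT_aux (q : I) (r : Bool) {m : ℕ} (hm : 1 ≤ m) :
    PT q r {η | HC η 0 (25 * m) 0 (4 * m)} *
      (1 - PT q r {η | HC η m (25 * m) (-m) (4 * m)}) ≤
      av q r m * av (σ q) (!r) m *
        ∑ e ∈ eRect 0 (25 * m) 0 (4 * m), pivot q {ω | HC (full r ω) 0 (25 * m) 0 (4 * m)} e := by
  have hm0 : (0 : ℝ) < m := by exact_mod_cast hm
  set g : Set Config := {ω | HC (full r ω) 0 (25 * m) 0 (4 * m)} with hg
  set F : Set Config := {ω | HC (full r ω) m (25 * m) (-m) (4 * m)} with hF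
  have hgP : PT q r {η | HC η 0 (25 * m) 0 (4 * m)} = Pr q g := rfl
  have hFP : PT q r {η | HC η m (25 * m) (-m) (4 * m)} = Pr q F := rfl
  rw [hgP, hFP]
  set s : Finset Edge := eRect 0 (25 * m) (-m) (4 * m) with hs
  set sg : Finset Edge := eRect 0 (25 * m) 0 (4 * m) with hsg
  set S : ℝ := ∑ k ∈ Finset.range m, na q r k with hS
  set S' : ℝ := ∑ k ∈ Finset.range m, na (σ q) (!r) k with hS'
  have hsub : sg ⊆ s := by
    intro e he
    rw [hsg, mem_eRect] at he
    rw [hs, mem_eRect]
    obtain ⟨h1, h2, h3, h4⟩ := he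
    exact ⟨h1, h2, by omega, h4⟩
  have hgl : LocalOn sg g := localOn_full r (localOn_HC _ _ _ _)
  have hgl' : LocalOn s g := hgl.mono hsub
  have hgi : Incr g := incr_full r (incr_HC _ _ _ _)
  have hP0 : 0 ≤ Pr q g := Pr_nonneg
  -- the inequality for one corner
  have hone : ∀ i ∈ Finset.range m, ∀ j ∈ Finset.range m,
      Pr q g * (1 - Pr q F) ≤ ∑ e ∈ sg,
        ((if i ≤ e.1.toNat then na q r (e.1.toNat - i) else 0) * na (σ q) (!r) j) *
          pivot q g e := by
    intro i hi j hj
    rw [Finset.mem_range] at hi hj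
    set A : Set Config := {ω | HC (full r ω) i (25 * m) (-j) (4 * m)} with hA
    have hAs : eRect (i : ℤ) (25 * m) (-j) (4 * m) ⊆ s := by
      intro e he
      rw [mem_eRect] at he
      rw [hs, mem_eRect]
      obtain ⟨h1, h2, h3, h4⟩ := he
      exact ⟨by omega, h2, by omega, h4⟩
    have hAl : LocalOn s A := (localOn_full r (localOn_HC _ _ _ _)).mono hAs
    have hBA : g ⊆ A := fun ω h => HC.mono h (by omega) (by omega) le_rfl (by omega) le_rfl
    have hAF : A ⊆ F := fun ω h => HC.mono h (by omega) (by omega) le_rfl (by omega) le_rfl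
    have h1 := Pool.Agent.H57.LF.osss_two (p := q) hAl hgl' hgi hBA
      (tRule r (i : ℤ) (25 * m) (-j) (4 * m))
      (fun O C e he => ⟨hAs (tRule_mem O C e he).1, (tRule_mem O C e he).2⟩)
      (fun ω ω' h hω => tRule_det (by omega) (by omega) hAs ω ω' h hω)
    have h2 : Pr q g * (1 - Pr q F) ≤ Pr q g * (1 - Pr q A) :=
      mul_le_mul_of_nonneg_left (by linarith [Pr_mono (p := q) hAF]) hP0
    refine h2.trans (h1.trans ?_)
    rw [← Finset.sum_subset hsub (fun e _ he => by rw [maint_pivot_zero hgl he, mul_zero])]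
    refine Finset.sum_le_sum fun e he => mul_le_mul_of_nonneg_right ?_ (maint_pivot_nonneg hgi e)
    have he' : 0 ≤ e.1 ∧ e.1 ≤ 25 * m ∧ 0 ≤ e.2.1 ∧ e.2.1 ≤ 4 * m := mem_eRect.1 he
    by_cases hie : i ≤ e.1.toNat
    · rw [if_pos hie]
      have hmem : e ∈ eRect (i : ℤ) (25 * m) (-j) (4 * m) :=
        mem_eRect.2 ⟨by simp only [src]; omega, by simp only [src]; omega,
          by simp only [src]; omega, by simp only [src]; omega⟩
      refine (tRule_reveal q s.card hmem).trans ?_
      have e1 : (e.1 - (i : ℤ)).toNat = e.1.toNat - i := by omega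
      rw [e1]
      refine mul_le_mul_of_nonneg_left ?_ (na_nonneg _ _ _)
      exact na_antitone (σ q) (!r) (by omega)
    · rw [if_neg hie]
      have hne : e ∉ eRect (i : ℤ) (25 * m) (-j) (4 * m) := by
        intro h
        have : (i : ℤ) ≤ e.1 := (mem_eRect.1 h).1
        omega
      have : {ω : Config | e ∈ queried (tRule r (i : ℤ) (25 * m) (-j) (4 * m)) ω s.card} = ∅ := by
        ext ω
        simp only [Set.mem_ofPred_eq, Set.mem_empty_iff_false, iff_false]
        exact maint_not_queried ω _ hne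
      rw [this]
      simp [Pr]
  -- sum over the corners
  have hsum : (m : ℝ) ^ 2 * (Pr q g * (1 - Pr q F)) ≤
      ∑ e ∈ sg, (S * S') * pivot q g e := by
    calc (m : ℝ) ^ 2 * (Pr q g * (1 - Pr q F))
        = ∑ i ∈ Finset.range m, ∑ j ∈ Finset.range m, Pr q g * (1 - Pr q F) := by
          simp only [Finset.sum_const, Finset.card_range, nsmul_eq_mul]; ring
      _ ≤ ∑ i ∈ Finset.range m, ∑ j ∈ Finset.range m, ∑ e ∈ sg,
        ((if i ≤ e.1.toNat then na q r (e.1.toNat - i) else 0) * na (σ q) (!r) j) *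
          pivot q g e := Finset.sum_le_sum fun i hi => Finset.sum_le_sum fun j hj => hone i hi j hj
      _ = ∑ e ∈ sg, ((∑ i ∈ Finset.range m,
            (if i ≤ e.1.toNat then na q r (e.1.toNat - i) else 0)) * S') * pivot q g e := by
          have : ∀ i ∈ Finset.range m, ∑ j ∈ Finset.range m, ∑ e ∈ sg,
              ((if i ≤ e.1.toNat then na q r (e.1.toNat - i) else 0) * na (σ q) (!r) j) *
              pivot q g e = ∑ e ∈ sg, ((if i ≤ e.1.toNat then na q r (e.1.toNat - i) else 0)
                * S') * pivot q g e := by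
            intro i _
            rw [Finset.sum_comm]
            refine Finset.sum_congr rfl fun e _ => ?_
            rw [hS', Finset.mul_sum, Finset.sum_mul]
          rw [Finset.sum_congr rfl this, Finset.sum_comm]
          refine Finset.sum_congr rfl fun e _ => ?_
          rw [Finset.sum_mul, Finset.sum_mul]
      _ ≤ ∑ e ∈ sg, (S * S') * pivot q g e := by
          refine Finset.sum_le_sum fun e _ => mul_le_mul_of_nonneg_right ?_
            (maint_pivot_nonneg hgi e)
          refine mul_le_mul_of_nonneg_right ?_ ?_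
          · exact maint_sum_first (fun k => na q r k) (na_antitone q r)
              (fun k => na_nonneg q r k) m e.1.toNat
          · exact Finset.sum_nonneg fun k _ => na_nonneg _ _ k
  rw [← Finset.mul_sum] at hsum
  have hav : av q r m = S / m := rfl
  have hav' : av (σ q) (!r) m = S' / m := rfl
  rw [hav, hav']
  have h2 : S / m * (S' / m) * ∑ e ∈ sg, pivot q g e =
      ((S * S') * ∑ e ∈ sg, pivot q g e) / (m : ℝ) ^ 2 := by
    field_simp
  rw [h2, le_div_iff₀ (by positivity)]
  linarith

/-- The integrated inequality. -/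
theorem mainT {p₀ p : I} {r : Bool} {c : ℝ} (hc : 0 < c) (hp : p₀ ≤ p) {m : ℕ} (hm : 1 ≤ m)
    (h : c ≤ PT p₀ r {η | HC η 0 (25 * m) 0 (4 * m)}) :
    c * ((p : ℝ) - p₀) * (1 - PT p r {η | HC η m (25 * m) (-m) (4 * m)}) ≤
      av p r m * av (σ p₀) (!r) m := by
  set g : Set Config := {ω | HC (full r ω) 0 (25 * m) 0 (4 * m)} with hg
  set F : Set Config := {ω | HC (full r ω) m (25 * m) (-m) (4 * m)} with hF
  set sg : Finset Edge := eRect 0 (25 * m) 0 (4 * m) with hsg
  have hFP : PT p r {η | HC η m (25 * m) (-m) (4 * m)} = Pr p F := rfl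
  rw [hFP]
  have hgl : LocalOn sg g := localOn_full r (localOn_HC _ _ _ _)
  have hgi : Incr g := incr_full r (incr_HC _ _ _ _)
  have hFl : LocalOn (eRect m (25 * m) (-m) (4 * m)) F := localOn_full r (localOn_HC _ _ _ _)
  have hFi : Incr F := incr_full r (incr_HC _ _ _ _)
  have hg0 : c ≤ Pr p₀ g := h
  have hp0 : (p₀ : ℝ) ≤ p := hp
  have hav0 : 0 ≤ av p r m * av (σ p₀) (!r) m := mul_nonneg (maint_av_nonneg _ _ _) (maint_av_nonneg _ _ _)
  rcases eq_or_lt_of_le hp0 with heq | hlt
  · rw [heq]
    simp only [sub_self, mul_zero, zero_mul]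
    exact hav0
  -- lower bound for the derivative
  set D : ℝ := c * (1 - Pr p F) with hD
  have hD0 : 0 ≤ D := mul_nonneg hc.le (by linarith [Pr_le_one (p := p) (A := F)])
  set W : ℝ := av p r m * av (σ p₀) (!r) m with hW
  have hder : ∀ q : I, p₀ ≤ q → q ≤ p → D ≤ W * ∑ e ∈ sg, pivot q g e := by
    intro q hq hqp
    have h1 := mainT_aux q r hm
    have h2 : D ≤ Pr q g * (1 - Pr q F) := by
      refine mul_le_mul (hg0.trans (Pr_mono_param hgl hgi hq)) ?_
        (by linarith [Pr_le_one (p := p) (A := F)]) Pr_nonneg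
      linarith [Pr_mono_param hFl hFi hqp]
    refine h2.trans (h1.trans ?_)
    refine mul_le_mul_of_nonneg_right ?_ (Finset.sum_nonneg fun e _ => maint_pivot_nonneg hgi e)
    have hσ : σ q ≤ σ p₀ := by
      have hq' : (p₀ : ℝ) ≤ q := hq
      change (1 : ℝ) - q ≤ 1 - p₀
      linarith
    exact mul_le_mul (maint_av_mono_param r hqp m) (maint_av_mono_param (!r) hσ m) (maint_av_nonneg _ _ _)
      (maint_av_nonneg _ _ _)
  -- mean value theorem
  obtain ⟨x, hx, hxd⟩ := exists_hasDerivAt_eq_slope (f := PrR sg g)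
    (f' := fun x => if h : x ∈ Set.Icc (0 : ℝ) 1 then ∑ e ∈ sg, pivot (⟨x, h⟩ : I) g e else 0)
    (a := (p₀ : ℝ)) (b := (p : ℝ)) hlt
    (fun x hx => by
      have hx' : x ∈ Set.Icc (0 : ℝ) 1 := ⟨p₀.2.1.trans hx.1, hx.2.trans p.2.2⟩
      exact (hasDerivAt_PrR hgl (⟨x, hx'⟩ : I)).continuousAt.continuousWithinAt)
    (fun x hx => by
      have hx' : x ∈ Set.Icc (0 : ℝ) 1 := ⟨p₀.2.1.trans hx.1.le, hx.2.le.trans p.2.2⟩
      simp only [dif_pos hx']
      exact hasDerivAt_PrR hgl (⟨x, hx'⟩ : I))
  have hx' : x ∈ Set.Icc (0 : ℝ) 1 := ⟨p₀.2.1.trans hx.1.le, hx.2.le.trans p.2.2⟩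
  simp only [dif_pos hx'] at hxd
  have h1 := hder ⟨x, hx'⟩ (by change (p₀ : ℝ) ≤ x; exact hx.1.le)
    (by change x ≤ (p : ℝ); exact hx.2.le)
  rw [hxd] at h1
  have e1 : PrR sg g (p : ℝ) = Pr p g := (Pr_eq_PrR hgl p).symm
  have e2 : PrR sg g (p₀ : ℝ) = Pr p₀ g := (Pr_eq_PrR hgl p₀).symm
  rw [e1, e2] at h1
  have hpos : 0 < (p : ℝ) - p₀ := by linarith
  rw [← mul_div_assoc, le_div_iff₀ hpos] at h1
  have h2 : Pr p g - Pr p₀ g ≤ 1 := by
    linarith [Pr_le_one (p := p) (A := g), Pr_nonneg (p := p₀) (A := g)]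
  have h3 : W * (Pr p g - Pr p₀ g) ≤ W * 1 := mul_le_mul_of_nonneg_left h2 hav0
  have h4 : c * ((p : ℝ) - p₀) * (1 - Pr p F) = D * ((p : ℝ) - p₀) := by
    rw [hD]; ring
  rw [h4]
  linarith

end Pool.Agent.H83.Site
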