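import Pool.Agent.H83.Site.DualE
import Pool.Agent.H83.Site.DualN
import Pool.Agent.H83.Site.TProb

/-! # Renormalisation of crossing probabilities -/

set_option autoImplicit false

open MeasureTheory ProbabilityTheory unitInterval

namespace Pool.Agent.H83.Site

open Pool.Agent.H89.Perc

/-- The probability that `[0, 4 m] × [1, m]` has no open horizontal crossing. -/
noncomputable def qc (p : I) (r : Bool) (m : ℕ) : ℝ := PT p r {η | VC (neg η) 0 (4 * m) 1 m}

theorem qc_eq (p : I) (r : Bool) {m : ℕ} (hm : 1 ≤ m) :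
    qc p r m = 1 - PT p r {η | HC η 0 (4 * m) 1 m} := by
  have h : {η : Config | VC (neg η) 0 (4 * m) 1 m} = {η | HC η 0 (4 * m) 1 m}ᶜ := by
    ext η
    constructor
    · intro h1 h2
      exact not_hc_and_vc h2 h1
    · intro h1
      rcases hc_or_vc (a := 0) (b := 4 * m) (c := 1) (d := m) (by omega) (by omega) η with h2 | h2
      · exact absurd h2 h1
      · exact h2
  unfold qc
  rw [h]
  exact PT_compl (localOn_HC _ _ _ _)

/-- Either a path stays in `T` or it leaves `T`. -/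
private theorem renorm_stay {η : Config} {S T : Set TV} {u v : TV} (h : TConn η S u v)
    (hu : u ∈ T) : TConn η (S ∩ T) u v ∨ ∃ w, w ∉ T ∧ TConn η S u w := by
  refine h.induction_right
    (P := fun v => TConn η (S ∩ T) u v ∨ ∃ w, w ∉ T ∧ TConn η S u w) ?_ ?_
  · exact Or.inl (TConn.refl ⟨h.mem_left, hu⟩ h.open_left)
  · intro a b hua hab hP
    rcases hP with hP | hP
    · by_cases hb : b ∈ T
      · exact Or.inl (hP.tail ⟨hP.mem_right, ⟨hab.2.1, hb⟩, hab.2.2⟩)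
      · exact Or.inr ⟨b, hb, hua.tail hab⟩
    · exact Or.inr hP

private theorem renorm_hc {η : Config} {a b c d a' b' : ℤ} {u v : TV}
    (h : TConn η (TR a b c d) u v) (ha : a ≤ a') (hab : a' ≤ b') (hb : b' ≤ b)
    (hu : fx u ≤ 2 * a') (hv : 2 * b' ≤ fx v) : HC η a' b' c d := by
  obtain ⟨y, y', h1, -, -⟩ := h.cross_x (a := a') (b := b') hu hv hab
  rw [TR_inter_x ha hb] at h1
  exact ⟨y, y', h1⟩

private theorem renorm_vc {η : Config} {a b c d a' b' x x' : ℤ}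
    (h : TConn η (TR a b c d ∩ {w | 2 * a' ≤ fx w ∧ fx w ≤ 2 * b'}) (x, c, false) (x', d, false))
    (ha : a ≤ a') (hb : b' ≤ b) : VC η a' b' c d := by
  rw [TR_inter_x ha hb] at h
  exact ⟨x, x', h⟩

private theorem renorm_geom {η : Config} {m : ℕ} (hm : 1 ≤ m) (h : VC η 0 (8 * m) 1 m) :
    (VC η 0 (4 * m) 1 m ∨ VC η (2 * m) (6 * m) 1 m ∨ VC η (4 * m) (8 * m) 1 m) ∨
    (HC η (3 * m + 1) (4 * m) 1 m ∨ HC η (2 * m + 1) (3 * m) 1 m ∨
      HC η (5 * m + 1) (6 * m) 1 m ∨ HC η (4 * m + 1) (5 * m) 1 m) := by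
  obtain ⟨x, x', h⟩ := h
  have hx := mem_TR_site.1 h.mem_left
  by_cases h1 : x ≤ 3 * m
  · rcases renorm_stay (T := {w | 2 * (0 : ℤ) ≤ fx w ∧ fx w ≤ 2 * (4 * m : ℤ)}) h
      (by simp only [Set.mem_ofPred_eq, fx_site]; omega) with h2 | ⟨w, hw, h2⟩
    · exact Or.inl (Or.inl (renorm_vc h2 le_rfl (by omega)))
    · simp only [Set.mem_ofPred_eq, not_and_or, not_le] at hw
      have hw2 := mem_TR.1 h2.mem_right
      refine Or.inr (Or.inl (renorm_hc h2 (by omega) (by omega) (by omega) ?_ ?_))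
      · rw [fx_site]; omega
      · omega
  by_cases h1' : x ≤ 5 * m
  · rcases renorm_stay (T := {w | 2 * (2 * m : ℤ) ≤ fx w ∧ fx w ≤ 2 * (6 * m : ℤ)}) h
      (by simp only [Set.mem_ofPred_eq, fx_site]; omega) with h2 | ⟨w, hw, h2⟩
    · exact Or.inl (Or.inr (Or.inl (renorm_vc h2 (by omega) (by omega))))
    · simp only [Set.mem_ofPred_eq, not_and_or, not_le] at hw
      rcases hw with hw | hw
      · refine Or.inr (Or.inr (Or.inl (renorm_hc h2.symm (by omega) (by omega) (by omega) ?_ ?_)))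
        · omega
        · rw [fx_site]; omega
      · refine Or.inr (Or.inr (Or.inr (Or.inl
          (renorm_hc h2 (by omega) (by omega) (by omega) ?_ ?_))))
        · rw [fx_site]; omega
        · omega
  · rcases renorm_stay (T := {w | 2 * (4 * m : ℤ) ≤ fx w ∧ fx w ≤ 2 * (8 * m : ℤ)}) h
      (by simp only [Set.mem_ofPred_eq, fx_site]; omega) with h2 | ⟨w, hw, h2⟩
    · exact Or.inl (Or.inr (Or.inr (renorm_vc h2 (by omega) (by omega))))
    · simp only [Set.mem_ofPred_eq, not_and_or, not_le] at hw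
      have hw2 := mem_TR.1 h2.mem_right
      refine Or.inr (Or.inr (Or.inr (Or.inr
        (renorm_hc h2.symm (by omega) (by omega) (by omega) ?_ ?_))))
      · omega
      · rw [fx_site]; omega

private theorem renorm_vshift (p : I) (r : Bool) (m : ℕ) (j : ℤ) :
    PT p r {η | VC η j (4 * m + j) 1 m} = PT p r {η | VC η 0 (4 * m) 1 m} := by
  have h := PT_VC_shf p r 0 (4 * m) 1 m j 0
  rw [zero_add, add_zero, add_zero] at h
  exact h

private theorem renorm_strip (p : I) (r : Bool) {m : ℕ} (hm : 1 ≤ m) (j : ℤ) :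
    PT p r {η | HC η (1 + j) (m + j) 1 m} ≤ PT p r {η | VC η 0 (4 * m) 1 m} := by
  have h := PT_HC_shf p r 1 m 0 (4 * m) j 0
  rw [add_zero, add_zero] at h
  rw [PT_VC_eq_HC, ← h]
  refine PT_mono fun η hη => ?_
  exact HC.mono hη le_rfl (by omega) le_rfl (by omega) (by omega)

private theorem renorm_seven (p : I) (r : Bool) {m : ℕ} (hm : 1 ≤ m) :
    PT p r {η | VC η 0 (8 * m) 1 m} ≤ 7 * PT p r {η | VC η 0 (4 * m) 1 m} := by
  set Q : ℝ := PT p r {η | VC η 0 (4 * m) 1 m} with hQ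
  have v1 : PT p r {η | VC η (2 * m) (6 * m) 1 m} = Q := by
    have := renorm_vshift p r m (2 * m)
    have e : (4 * (m : ℤ) + 2 * m) = 6 * m := by ring
    rw [e] at this
    exact this
  have v2 : PT p r {η | VC η (4 * m) (8 * m) 1 m} = Q := by
    have := renorm_vshift p r m (4 * m)
    have e : (4 * (m : ℤ) + 4 * m) = 8 * m := by ring
    rw [e] at this
    exact this
  have hs : ∀ (k : ℕ) (k' : ℤ), k' = k + 1 →
      PT p r {η | HC η (k * m + 1) (k' * m) 1 m} ≤ Q := by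
    intro k k' hk
    have := renorm_strip p r hm (k * m)
    have e1 : (1 : ℤ) + k * m = k * m + 1 := by ring
    have e2 : (m : ℤ) + k * m = k' * m := by rw [hk]; ring
    rw [e1, e2] at this
    exact this
  have s1 : PT p r {η | HC η (3 * m + 1) (4 * m) 1 m} ≤ Q := by
    have := hs 3 4 (by norm_num)
    exact_mod_cast this
  have s2 : PT p r {η | HC η (2 * m + 1) (3 * m) 1 m} ≤ Q := by
    have := hs 2 3 (by norm_num)
    exact_mod_cast this
  have s3 : PT p r {η | HC η (5 * m + 1) (6 * m) 1 m} ≤ Q := by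
    have := hs 5 6 (by norm_num)
    exact_mod_cast this
  have s4 : PT p r {η | HC η (4 * m + 1) (5 * m) 1 m} ≤ Q := by
    have := hs 4 5 (by norm_num)
    exact_mod_cast this
  have hsub : {η : Config | VC η 0 (8 * m) 1 m} ⊆
      ({η | VC η 0 (4 * m) 1 m} ∪ ({η | VC η (2 * m) (6 * m) 1 m} ∪
        {η | VC η (4 * m) (8 * m) 1 m})) ∪
      ({η | HC η (3 * m + 1) (4 * m) 1 m} ∪ ({η | HC η (2 * m + 1) (3 * m) 1 m} ∪
        ({η | HC η (5 * m + 1) (6 * m) 1 m} ∪ {η | HC η (4 * m + 1) (5 * m) 1 m}))) := by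
    intro η hη
    exact renorm_geom hm hη
  have h0 := PT_mono (p := p) (r := r) hsub
  have h1 := PT_union_le (p := p) (r := r) (E := {η | VC η 0 (4 * m) 1 m} ∪
      ({η | VC η (2 * m) (6 * m) 1 m} ∪ {η | VC η (4 * m) (8 * m) 1 m}))
    (F := {η | HC η (3 * m + 1) (4 * m) 1 m} ∪ ({η | HC η (2 * m + 1) (3 * m) 1 m} ∪
        ({η | HC η (5 * m + 1) (6 * m) 1 m} ∪ {η | HC η (4 * m + 1) (5 * m) 1 m})))
  have h2 := PT_union_le (p := p) (r := r) (E := {η | VC η 0 (4 * m) 1 m})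
    (F := {η | VC η (2 * m) (6 * m) 1 m} ∪ {η | VC η (4 * m) (8 * m) 1 m})
  have h3 := PT_union_le (p := p) (r := r) (E := {η | VC η (2 * m) (6 * m) 1 m})
    (F := {η | VC η (4 * m) (8 * m) 1 m})
  have h4 := PT_union_le (p := p) (r := r) (E := {η | HC η (3 * m + 1) (4 * m) 1 m})
    (F := {η | HC η (2 * m + 1) (3 * m) 1 m} ∪
        ({η | HC η (5 * m + 1) (6 * m) 1 m} ∪ {η | HC η (4 * m + 1) (5 * m) 1 m}))
  have h5 := PT_union_le (p := p) (r := r) (E := {η | HC η (2 * m + 1) (3 * m) 1 m})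
    (F := {η | HC η (5 * m + 1) (6 * m) 1 m} ∪ {η | HC η (4 * m + 1) (5 * m) 1 m})
  have h6 := PT_union_le (p := p) (r := r) (E := {η | HC η (5 * m + 1) (6 * m) 1 m})
    (F := {η | HC η (4 * m + 1) (5 * m) 1 m})
  rw [v1, v2] at h3
  linarith

private theorem renorm_qc (p : I) (r : Bool) (m : ℕ) :
    qc p r m = PT (σ p) (!r) {η | VC η 0 (4 * m) 1 m} :=
  PT_neg (p := p) (r := r) (localOn_VC 0 (4 * m) 1 m)

theorem qc_step (p : I) (r : Bool) {m : ℕ} (hm : 1 ≤ m) :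
    qc p r (2 * m) ≤ (11 * qc p r m) ^ 2 := by
  rw [renorm_qc, renorm_qc]
  set q := σ p
  set s := !r
  have hQ : 0 ≤ PT q s {η | VC η 0 (4 * m) 1 m} := PT_nonneg
  have h7 := renorm_seven q s hm
  have hw : 0 ≤ PT q s {η | VC η 0 (8 * m) 1 m} := PT_nonneg
  have h1 : PT q s {η | VC η 0 (4 * (2 * m : ℕ)) 1 (2 * m : ℕ)} ≤
      PT q s ({η | VC η 0 (8 * m) 1 m} ∩ {η | VC η 0 (8 * m) (1 + m) (m + m)}) := by
    refine PT_mono fun η hη => ?_
    have hη' : VC η 0 (4 * (2 * m : ℕ)) 1 (2 * m : ℕ) := hη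
    push_cast at hη'
    constructor
    · exact VC.mono hη' (by omega) (by omega) (by omega) (by omega) (by omega)
    · exact VC.mono hη' (by omega) (by omega) (by omega) (by omega) (by omega)
  have h2 : PT q s {η | VC η 0 (8 * m) (1 + m) (m + m)} = PT q s {η | VC η 0 (8 * m) 1 m} := by
    have h := PT_VC_shf q s 0 (8 * m) 1 m 0 m
    rw [add_zero, add_zero] at h
    exact h
  have h3 : PT q s ({η | VC η 0 (8 * m) 1 m} ∩ {η | VC η 0 (8 * m) (1 + m) (m + m)}) =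
      PT q s {η | VC η 0 (8 * m) 1 m} * PT q s {η | VC η 0 (8 * m) (1 + m) (m + m)} :=
    PT_indep (localOn_VC _ _ _ _) (localOn_VC _ _ _ _) (eRect_disjoint_x (by omega))
  rw [h3, h2] at h1
  refine h1.trans ?_
  nlinarith

theorem qc_iter {p : I} {r : Bool} {m : ℕ} (hm : 1 ≤ m) (h : qc p r m ≤ 1 / 242) (k : ℕ) :
    qc p r (2 ^ k * m) ≤ 1 / 121 * (1 / 2) ^ (2 ^ k) := by
  induction k with
  | zero =>
    rw [pow_zero, one_mul, pow_one]
    refine h.trans ?_
    norm_num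
  | succ k ih =>
    have h1 : 1 ≤ 2 ^ k * m := Nat.mul_pos (by positivity) hm
    have h2 := qc_step p r h1
    have e1 : 2 ^ (k + 1) * m = 2 * (2 ^ k * m) := by ring
    have h0 : 0 ≤ qc p r (2 ^ k * m) := PT_nonneg
    rw [e1]
    refine h2.trans ?_
    have e2 : ((1 : ℝ) / 2) ^ (2 ^ (k + 1)) = ((1 / 2) ^ (2 ^ k)) ^ 2 := by
      rw [← pow_mul, pow_succ]
    rw [e2]
    have h3 : qc p r (2 ^ k * m) ^ 2 ≤ (1 / 121 * (1 / 2) ^ (2 ^ k)) ^ 2 :=
      pow_le_pow_left₀ h0 ih 2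
    calc (11 * qc p r (2 ^ k * m)) ^ 2 = 121 * qc p r (2 ^ k * m) ^ 2 := by ring
      _ ≤ 121 * (1 / 121 * (1 / 2) ^ (2 ^ k)) ^ 2 := by linarith
      _ = _ := by ring

end Pool.Agent.H83.Site
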