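import Pool.Agent.H57.LF.Cov
import Pool.Agent.H83.Site.ArmT

/-! # Exploration of a crossing from the lower left corner -/

set_option autoImplicit false

open MeasureTheory ProbabilityTheory unitInterval

namespace Pool.Agent.H83.Site

open Pool.Agent.H89.Perc

/-- Vertices joined to the left side by explored open sites (and centres in state `r`). -/
def reachL (r : Bool) (a b c d : ℤ) (O : Finset Edge) : Set TV :=
  {u | ∃ y : ℤ, TConn (full r (ofS O)) (TR a b c d) (a, y, false) u}

/-- Vertices joined to the bottom by explored closed sites (and centres in state `!r`). -/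
def reachB (r : Bool) (a b c d : ℤ) (C : Finset Edge) : Set TV :=
  {u | ∃ x : ℤ, TConn (full (!r) (ofS C)) (TR a b c d) (x, c, false) u}

/-- Sites that may be queried next. -/
def RCand (r : Bool) (a b c d : ℤ) (O C : Finset Edge) (v : TV) : Prop :=
  v.2.2 = false ∧ v ∈ TR a b c d ∧ v ∉ O ∧ v ∉ C ∧
    (v.1 = a ∨ ∃ u ∈ reachL r a b c d O, TAdj u v) ∧
    (v.2.1 = c ∨ ∃ w ∈ reachB r a b c d C, TAdj w v)

/-- The exploration rule. -/
noncomputable def tRule (r : Bool) (a b c d : ℤ) : Rule := fun O C => by
  classical exact if h : ∃ e, RCand r a b c d O C e then some h.choose else none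

private lemma expl_succ' (R : Rule) (ω : Config) (n : ℕ) :
    expl R ω (n + 1) = explStep R ω (expl R ω n) := by
  simp only [expl, Function.iterate_succ_apply']

private lemma expl_inv (R : Rule) (ω : Config) (n : ℕ) :
    (∀ e ∈ (expl R ω n).1, ω e = true) ∧ (∀ e ∈ (expl R ω n).2, ω e = false) := by
  induction n with
  | zero => simp [expl]
  | succ n ih =>
    rw [expl_succ']
    unfold explStep
    cases h : R (expl R ω n).1 (expl R ω n).2 with
    | none => simpa using ih
    | some e =>
      by_cases hω : ω e = true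
      · simp only [hω, if_true, Finset.mem_insert]
        exact ⟨fun e' he' => he'.elim (fun h => h ▸ hω) (ih.1 e'), ih.2⟩
      · simp only [if_neg hω, Finset.mem_insert]
        exact ⟨ih.1, fun e' he' => he'.elim (fun h => h ▸ by simpa using hω) (ih.2 e')⟩

private lemma expl_subset {R : Rule} {s : Finset Edge}
    (hR : ∀ O C e, R O C = some e → e ∈ s ∧ e ∉ O ∧ e ∉ C) (ω : Config) (n : ℕ) :
    queried R ω n ⊆ s := by
  induction n with
  | zero => simp [queried, expl]
  | succ n ih =>
    rw [queried] at ih ⊢
    rw [expl_succ']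
    unfold explStep
    cases h : R (expl R ω n).1 (expl R ω n).2 with
    | none => simpa using ih
    | some e =>
      have he := (hR _ _ _ h).1
      by_cases hω : ω e = true
      · simp only [hω, if_true]
        rw [Finset.insert_union]
        exact Finset.insert_subset he ih
      · simp only [if_neg hω]
        rw [Finset.union_insert]
        exact Finset.insert_subset he ih

private lemma expl_card {R : Rule} {s : Finset Edge}
    (hR : ∀ O C e, R O C = some e → e ∈ s ∧ e ∉ O ∧ e ∉ C) (ω : Config) (n : ℕ) :
    (queried R ω n).card = n ∨ R (expl R ω n).1 (expl R ω n).2 = none := by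
  induction n with
  | zero => left; simp [queried, expl]
  | succ n ih =>
    cases h : R (expl R ω n).1 (expl R ω n).2 with
    | none =>
      right
      have : expl R ω (n + 1) = expl R ω n := by
        rw [expl_succ']; unfold explStep; rw [h]
      rw [this, h]
    | some e =>
      left
      have h1 := ih.resolve_right (by rw [h]; simp)
      obtain ⟨_, he1, he2⟩ := hR _ _ _ h
      have h2 : queried R ω (n + 1) = insert e (queried R ω n) := by
        rw [queried, expl_succ', queried]
        unfold explStep
        simp only [h]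
        by_cases hω : ω e = true
        · simp only [hω, if_true]
          rw [Finset.insert_union]
        · simp only [if_neg hω]
          rw [Finset.union_insert]
      rw [h2, Finset.card_insert_of_notMem, h1]
      rw [queried, Finset.mem_union]
      tauto

private lemma expl_stop {R : Rule} {s : Finset Edge}
    (hR : ∀ O C e, R O C = some e → e ∈ s ∧ e ∉ O ∧ e ∉ C) (ω : Config) :
    R (expl R ω s.card).1 (expl R ω s.card).2 = none := by
  rcases expl_card hR ω s.card with h | h
  · have h1 := Finset.eq_of_subset_of_card_le (expl_subset hR ω s.card) h.ge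
    cases h2 : R (expl R ω s.card).1 (expl R ω s.card).2 with
    | none => rfl
    | some e =>
      exfalso
      obtain ⟨h3, h4, h5⟩ := hR _ _ _ h2
      rw [← h1, queried, Finset.mem_union] at h3
      tauto
  · exact h

private lemma exists_step_of_queried (R : Rule) (ω : Config) (n : ℕ) {e : Edge}
    (he : e ∈ queried R ω n) :
    ∃ m, R (expl R ω m).1 (expl R ω m).2 = some e := by
  induction n with
  | zero => simp [queried, expl] at he
  | succ n ih =>
    by_cases h : e ∈ queried R ω n
    · exact ih h
    refine ⟨n, ?_⟩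
    rw [queried, expl_succ'] at he
    unfold explStep at he
    rw [queried] at h
    cases h' : R (expl R ω n).1 (expl R ω n).2 with
    | none => simp only [h'] at he; exact absurd he h
    | some e' =>
      simp only [h'] at he
      by_cases hω : ω e' = true
      · simp only [hω, if_true, Finset.mem_union, Finset.mem_insert] at he h
        have : e = e' := by tauto
        rw [this]
      · simp only [if_neg hω, Finset.mem_union, Finset.mem_insert] at he h
        have : e = e' := by tauto
        rw [this]

private lemma tRule_spec {r : Bool} {a b c d : ℤ} {O C : Finset Edge} {e : Edge}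
    (h : tRule r a b c d O C = some e) : RCand r a b c d O C e := by
  unfold tRule at h
  split_ifs at h with h'
  rw [← Option.some.inj h]; exact h'.choose_spec

private lemma tRule_none {r : Bool} {a b c d : ℤ} {O C : Finset Edge}
    (h : tRule r a b c d O C = none) (e : Edge) : ¬ RCand r a b c d O C e := by
  intro he
  unfold tRule at h
  rw [dif_pos ⟨e, he⟩] at h
  exact absurd h (by simp)

theorem tRule_mem {r : Bool} {a b c d : ℤ} (O C : Finset Edge) (e : Edge)
    (h : tRule r a b c d O C = some e) : e ∈ eRect a b c d ∧ e ∉ O ∧ e ∉ C := by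
  obtain ⟨-, h1, h2, h3, -⟩ := tRule_spec h
  exact ⟨TR_subset_eRect h1, h2, h3⟩

/-- The exploration determines the crossing. -/
theorem tRule_det {r : Bool} {a b c d : ℤ} (hab : a ≤ b) (hcd : c ≤ d) {s : Finset Edge}
    (hs : eRect a b c d ⊆ s) (ω ω' : Config)
    (h : ∀ e ∈ queried (tRule r a b c d) ω s.card, ω e = ω' e)
    (hω : HC (full r ω) a b c d) : HC (full r ω') a b c d := by
  classical
  set O := (expl (tRule r a b c d) ω s.card).1 with hOdef
  set C := (expl (tRule r a b c d) ω s.card).2 with hCdef
  have hstop := expl_stop (s := s) (fun O C e he =>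
    ⟨hs (tRule_mem (r := r) O C e he).1, (tRule_mem (r := r) O C e he).2⟩) ω
  have hcand : ∀ e, ¬ RCand r a b c d O C e := tRule_none hstop
  obtain ⟨hO, hC⟩ := expl_inv (tRule r a b c d) ω s.card
  rw [← hOdef] at hO
  rw [← hCdef] at hC
  -- the completed configuration
  set η₁ : Config := fun v => if v.2.2 = true then r else if v ∈ O then true else
    if v ∈ C then false else
    if v ∈ TR a b c d ∧ (v.1 = a ∨ ∃ u ∈ reachL r a b c d O, TAdj u v) then false else true
    with hη₁
  have hcen : ∀ v : TV, v.2.2 = true → η₁ v = r := by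
    intro v hv
    simp only [hη₁, if_pos hv]
  -- an open vertex next to `reachL` is explored
  have hopen : ∀ v : TV, v ∈ TR a b c d → (v.1 = a ∨ ∃ u ∈ reachL r a b c d O, TAdj u v) →
      η₁ v = true → full r (ofS O) v = true := by
    intro v hv h1 h2
    by_cases hv2 : v.2.2 = true
    · rw [hcen v hv2] at h2
      simp [full, hv2, h2]
    · simp only [hη₁, if_neg hv2] at h2
      by_cases h3 : v ∈ O
      · simp [full, hv2, ofS_apply, h3]
      · rw [if_neg h3] at h2
        by_cases h4 : v ∈ C
        · rw [if_pos h4] at h2; exact absurd h2 (by decide)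
        · rw [if_neg h4, if_pos ⟨hv, h1⟩] at h2
          exact absurd h2 (by decide)
  have hclosed : ∀ v : TV, v ∈ TR a b c d → (v.2.1 = c ∨ ∃ w ∈ reachB r a b c d C, TAdj w v) →
      η₁ v = false → full (!r) (ofS C) v = true := by
    intro v hv h1 h2
    by_cases hv2 : v.2.2 = true
    · rw [hcen v hv2] at h2
      simp [full, hv2, h2]
    · simp only [hη₁, if_neg hv2] at h2
      by_cases h3 : v ∈ O
      · rw [if_pos h3] at h2; exact absurd h2 (by decide)
      · rw [if_neg h3] at h2
        by_cases h4 : v ∈ C
        · simp [full, hv2, ofS_apply, h4]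
        · rw [if_neg h4] at h2
          by_cases h5 : v ∈ TR a b c d ∧ (v.1 = a ∨ ∃ u ∈ reachL r a b c d O, TAdj u v)
          · exact absurd ⟨by simpa using hv2, hv, h3, h4, h5.2, h1⟩ (hcand v)
          · rw [if_neg h5] at h2; exact absurd h2 (by decide)
  rcases hc_or_vc hab hcd η₁ with h1 | h1
  · -- the left cluster reaches the right side
    obtain ⟨y, y', huv⟩ := h1
    have hL : ((b, y', false) : TV) ∈ reachL r a b c d O := by
      refine huv.induction_right (P := fun v => v ∈ reachL r a b c d O)
        ⟨y, TConn.refl huv.mem_left (hopen _ huv.mem_left (Or.inl rfl) huv.open_left)⟩ ?_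
      rintro x z - ⟨hx, hz, hadj, hxo, hzo⟩ ⟨w, hw⟩
      exact ⟨w, hw.tail ⟨hx, hz, hadj, hw.open_right,
        hopen z hz (Or.inr ⟨x, ⟨w, hw⟩, hadj⟩) hzo⟩⟩
    obtain ⟨w, hw⟩ := hL
    refine ⟨w, y', hw.mono le_rfl fun v _ hv => ?_⟩
    by_cases hv2 : v.2.2 = true
    · simp only [full, hv2, if_true] at hv ⊢; exact hv
    · simp only [full, if_neg hv2, ofS_apply, decide_eq_true_eq] at hv ⊢
      rw [← h v (by rw [queried]; exact Finset.mem_union_left _ hv)]
      exact hO v hv
  · -- the closed cluster of the bottom reaches the top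
    exfalso
    obtain ⟨x, x', huv⟩ := h1
    have hneg : ∀ v : TV, neg η₁ v = true → η₁ v = false := by
      intro v hv
      simpa [neg] using hv
    have hB : ((x', d, false) : TV) ∈ reachB r a b c d C := by
      refine huv.induction_right (P := fun v => v ∈ reachB r a b c d C)
        ⟨x, TConn.refl huv.mem_left
          (hclosed _ huv.mem_left (Or.inl rfl) (hneg _ huv.open_left))⟩ ?_
      rintro y z - ⟨hy, hz, hadj, hyo, hzo⟩ ⟨w, hw⟩
      exact ⟨w, hw.tail ⟨hy, hz, hadj, hw.open_right,
        hclosed z hz (Or.inr ⟨y, ⟨w, hw⟩, hadj⟩) (hneg _ hzo)⟩⟩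
    obtain ⟨w, hw⟩ := hB
    refine not_hc_and_vc hω ⟨w, x', hw.mono le_rfl fun v _ hv => ?_⟩
    by_cases hv2 : v.2.2 = true
    · simp only [full, hv2, if_true] at hv
      simp only [neg, full, hv2, if_true]; exact hv
    · simp only [full, if_neg hv2, ofS_apply, decide_eq_true_eq] at hv
      simp [neg, full, hv2, hC v hv]

/-- The arm event from the neighbourhood of a site, the sure event at distance `0`. -/
private def nE (x y : ℤ) (k : ℕ) : Set Config := if k = 0 then Set.univ else AB x y 1 k

private lemma localOn_nE (x y : ℤ) (k : ℕ) :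
    LocalOn (eRect (x - k) (x + k) (y - k) (y + k)) (nE x y k) := by
  unfold nE
  split_ifs
  · intro _ _ _ _; trivial
  · exact localOn_AB x y 1 k

private lemma incr_nE (x y : ℤ) (k : ℕ) : Incr (nE x y k) := by
  unfold nE
  split_ifs
  · intro _ _ _ _; trivial
  · exact incr_AB x y 1 k

private lemma PT_nE (p : I) (r : Bool) (x y : ℤ) (k : ℕ) : PT p r (nE x y k) = na p r k := by
  unfold nE na
  split_ifs
  · exact PT_univ
  · exact PT_AB p r x y 1 k

private lemma adj_near {u v : TV} (h : TAdj u v) (hv : v.2.2 = false) :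
    u ∈ TR (v.1 - 1) (v.1 + 1) (v.2.1 - 1) (v.2.1 + 1) := by
  rw [mem_TR]
  have h1 := h.symm.fx_le (a := v.1 + 1) (by rw [fx_even hv]; omega)
  have h2 := h.symm.le_fx (a := v.1 - 1) (by rw [fx_even hv]; omega)
  have h3 := h.symm.fy_le (a := v.2.1 + 1) (by rw [fy_even hv]; omega)
  have h4 := h.symm.le_fy (a := v.2.1 - 1) (by rw [fy_even hv]; omega)
  exact ⟨h2, h1, h4, h3⟩

/-- Queried sites have an open arm to the left side and a closed arm to the bottom. -/
theorem tRule_reveal {r : Bool} {a b c d : ℤ} (q : I) (n : ℕ) {e : Edge}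
    (he : e ∈ eRect a b c d) :
    Pr q {ω | e ∈ queried (tRule r a b c d) ω n} ≤
      na q r (e.1 - a).toNat * na (σ q) (!r) (e.2.1 - c).toNat := by
  set k := (e.1 - a).toNat with hk
  set l := (e.2.1 - c).toNat with hl
  have her : a ≤ e.1 ∧ e.1 ≤ b ∧ c ≤ e.2.1 ∧ e.2.1 ≤ d := mem_eRect.1 he
  have hk' : (k : ℤ) = e.1 - a := by rw [hk]; omega
  have hl' : (l : ℤ) = e.2.1 - c := by rw [hl]; omega
  have hfkg : PT q r (nE e.1 e.2.1 k ∩ {η | neg η ∈ nE e.1 e.2.1 l}) ≤
      na q r k * na (σ q) (!r) l := by
    refine (PT_fkg_mixed (localOn_nE _ _ k) (LocalOn.neg (localOn_nE _ _ l)) (incr_nE _ _ k)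
      (Incr.neg_compl (incr_nE _ _ l))).trans ?_
    rw [PT_nE, PT_neg (localOn_nE _ _ l), PT_nE]
  refine le_trans (Pr_mono ?_) hfkg
  intro ω hω
  obtain ⟨m, hm⟩ := exists_step_of_queried _ _ _ hω
  obtain ⟨h1, h2, h3, h4, h5, h6⟩ := tRule_spec hm
  obtain ⟨hO, hC⟩ := expl_inv (tRule r a b c d) ω m
  set O := (expl (tRule r a b c d) ω m).1
  set C := (expl (tRule r a b c d) ω m).2
  refine ⟨?_, ?_⟩
  · show full r ω ∈ nE e.1 e.2.1 k
    unfold nE
    split_ifs with hk0
    · trivial
    obtain ⟨u, ⟨y, hu⟩, hadj⟩ := h5.resolve_left (by omega)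
    have hu' : TConn (full r ω) (TR a b c d) (a, y, false) u := by
      refine hu.mono le_rfl fun v _ hv => ?_
      by_cases hv2 : v.2.2 = true
      · simp only [full, hv2, if_true] at hv ⊢; exact hv
      · simp only [full, if_neg hv2, ofS_apply, decide_eq_true_eq] at hv ⊢
        exact hO v hv
    refine hu'.symm.mem_AB (by omega) (by simpa using adj_near hadj h1) (Or.inl ?_)
    rw [fx_site]; omega
  · show neg (full r ω) ∈ nE e.1 e.2.1 l
    unfold nE
    split_ifs with hl0
    · trivial
    obtain ⟨u, ⟨x, hu⟩, hadj⟩ := h6.resolve_left (by omega)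
    have hu' : TConn (neg (full r ω)) (TR a b c d) (x, c, false) u := by
      refine hu.mono le_rfl fun v _ hv => ?_
      by_cases hv2 : v.2.2 = true
      · simp only [full, hv2, if_true] at hv
        simp only [neg, full, hv2, if_true]; exact hv
      · simp only [full, if_neg hv2, ofS_apply, decide_eq_true_eq] at hv
        simp [neg, full, hv2, hC v hv]
    refine hu'.symm.mem_AB (by omega) (by simpa using adj_near hadj h1) (Or.inr (Or.inr (Or.inl ?_)))
    rw [fy_site]; omega

end Pool.Agent.H83.Site
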